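import Pool.Agent.N579.WA.Refine

/-!
# The coloured graphs induced on the vertices of multiple colours, with renumbered vertices
-/

set_option autoImplicit false

namespace Pool.Agent.N579.WA

open Finset Pool.Agent.N579.WL

variable {n : ℕ} {v w : Fin n} {z : In n → Bool}

/-- Isomorphism of two graphs on `Fin m` whose vertices are coloured by strings of `m` bits. -/
def ColIso {m : ℕ} (A : SimpleGraph (Fin m)) (X : Fin m → Fin m → Bool) (B : SimpleGraph (Fin m))
    (Y : Fin m → Fin m → Bool) : Prop := ∃ σ : A ≃g B, ∀ i, X i = Y (σ i)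

/-- The number of smaller vertices with multiple colours. -/
def rk (v w : Fin n) (a : Bool) (z : In n → Bool) (x : Fin n) : ℕ :=
  (univ.filter fun y => (multi v w a y z && decide (y < x)) = true).card

/-- `x` is the vertex number `i` of multiple colour -/
def pos (v w : Fin n) (a : Bool) (i : ℕ) (x : Fin n) (z : In n → Bool) : Bool :=
  multi v w a x z && decide (rk v w a z x = i)

/-- the adjacency bits -/
def abit (v w : Fin n) (a : Bool) (i j : ℕ) (z : In n → Bool) : Bool :=
  decide (∃ p : Fin n × Fin n, ((pos v w a i p.1 z && pos v w a j p.2 z) && z (a, p.1, p.2)) = true)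

/-- the colour bits -/
def xbit (v w : Fin n) (a : Bool) (i l : ℕ) (z : In n → Bool) : Bool :=
  decide (∃ p : Fin n × Fin n, ((pos v w a i p.1 z && pos v w true l p.2 z) &&
    eqv v w (a, p.1) (true, p.2) z) = true)

theorem rk_lt {a : Bool} {x y : Fin n} (hx : multi v w a x z = true) (hxy : x < y) :
    rk v w a z x < rk v w a z y := by
  refine Finset.card_lt_card ⟨fun u hu => ?_, fun h => ?_⟩
  · simp only [mem_filter, mem_univ, true_and, Bool.and_eq_true, decide_eq_true_eq] at hu ⊢
    exact ⟨hu.1, hu.2.trans hxy⟩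
  · have h1 : x ∈ univ.filter fun u => (multi v w a u z && decide (u < y)) = true := by
      simp only [mem_filter, mem_univ, true_and, Bool.and_eq_true, decide_eq_true_eq]
      exact ⟨hx, hxy⟩
    have h2 := h h1
    simp only [mem_filter, mem_univ, true_and, Bool.and_eq_true, decide_eq_true_eq] at h2
    exact lt_irrefl _ h2.2

theorem rk_inj {a : Bool} {x y : Fin n} (hx : multi v w a x z = true)
    (hy : multi v w a y z = true) (h : rk v w a z x = rk v w a z y) : x = y := by
  rcases lt_trichotomy x y with h1 | h1 | h1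
  · exact absurd h (rk_lt hx h1).ne
  · exact h1
  · exact absurd h.symm (rk_lt hy h1).ne

theorem rk_lt_card {a : Bool} {x : Fin n} (hx : multi v w a x z = true) :
    rk v w a z x < (univ.filter fun y => multi v w a y z = true).card := by
  refine Finset.card_lt_card ⟨fun u hu => ?_, fun h => ?_⟩
  · simp only [mem_filter, mem_univ, true_and, Bool.and_eq_true, decide_eq_true_eq] at hu ⊢
    exact hu.1
  · have h2 := h (mem_filter.2 ⟨mem_univ x, hx⟩)
    simp only [mem_filter, mem_univ, true_and, Bool.and_eq_true, decide_eq_true_eq] at h2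
    exact lt_irrefl _ h2.2

/-- The numbering. -/
theorem exists_num (v w : Fin n) (z : In n → Bool) (a : Bool) {m c : ℕ} (hcm : c ≤ m)
    (hc : (univ.filter fun y => multi v w a y z = true).card = c) :
    ∃ e : {x // multi v w a x z = true} ≃ {i : Fin m // (i : ℕ) < c},
      ∀ x, (((e x : {i : Fin m // (i : ℕ) < c}) : Fin m) : ℕ) = rk v w a z x := by
  classical
  let f : {x // multi v w a x z = true} → {i : Fin m // (i : ℕ) < c} := fun x =>
    ⟨⟨rk v w a z x, by
      have := rk_lt_card x.2
      omega⟩, by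
      have := rk_lt_card x.2
      simpa [hc] using this⟩
  have hf : Function.Bijective f := by
    rw [Fintype.bijective_iff_injective_and_card]
    constructor
    · intro x y hxy
      have h1 := congrArg (fun i : {i : Fin m // (i : ℕ) < c} => ((i : Fin m) : ℕ)) hxy
      exact Subtype.ext (rk_inj x.2 y.2 h1)
    · rw [Fintype.card_subtype, hc, Fintype.card_subtype]
      have h1 : (univ.filter fun i : Fin m => (i : ℕ) < c) =
          (univ : Finset (Fin c)).map ⟨Fin.castLE hcm, Fin.castLE_injective _⟩ := by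
        ext i
        simp only [mem_filter, mem_univ, true_and, mem_map, Function.Embedding.coeFn_mk]
        constructor
        · exact fun h => ⟨⟨i, h⟩, by ext; simp⟩
        · rintro ⟨j, rfl⟩
          simp
      rw [h1, card_map, card_univ, Fintype.card_fin]
  exact ⟨Equiv.ofBijective f hf, fun x => rfl⟩

theorem abit_iff {a : Bool} {i j : ℕ} : abit v w a i j z = true ↔
    ∃ x y : {x // multi v w a x z = true}, rk v w a z x = i ∧ rk v w a z y = j ∧
      z (a, x, y) = true := by
  simp only [abit, pos, decide_eq_true_eq, Bool.and_eq_true]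
  constructor
  · rintro ⟨⟨x, y⟩, ⟨⟨h1, h2⟩, h3, h4⟩, h5⟩
    exact ⟨⟨x, h1⟩, ⟨y, h3⟩, h2, h4, h5⟩
  · rintro ⟨⟨x, h1⟩, ⟨y, h3⟩, h2, h4, h5⟩
    exact ⟨(x, y), ⟨⟨h1, h2⟩, h3, h4⟩, h5⟩

theorem xbit_iff {a : Bool} {i l : ℕ} : xbit v w a i l z = true ↔
    ∃ (x : {x // multi v w a x z = true}) (y : {x // multi v w true x z = true}),
      rk v w a z x = i ∧ rk v w true z y = l ∧
      eqv v w (a, (x : Fin n)) (true, (y : Fin n)) z = true := by
  simp only [xbit, pos, decide_eq_true_eq, Bool.and_eq_true]
  constructor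
  · rintro ⟨⟨x, y⟩, ⟨⟨h1, h2⟩, h3, h4⟩, h5⟩
    exact ⟨⟨x, h1⟩, ⟨y, h3⟩, h2, h4, h5⟩
  · rintro ⟨⟨x, h1⟩, ⟨y, h3⟩, h2, h4, h5⟩
    exact ⟨(x, y), ⟨⟨h1, h2⟩, h3, h4⟩, h5⟩

/-- The renumbered graphs. -/
def core (G H : SimpleGraph (Fin n)) (v w : Fin n) (m : ℕ) (a : Bool) : SimpleGraph (Fin m) where
  Adj i j := abit v w a i j (cod G H) = true
  symm := ⟨by
    intro i j h
    obtain ⟨x, y, h1, h2, h3⟩ := abit_iff.1 h
    refine abit_iff.2 ⟨y, x, h2, h1, ?_⟩
    simp only [cod] at h3 ⊢
    split_ifs at h3 ⊢
    · rw [bit_iff] at h3 ⊢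
      exact h3.symm
    · rw [bit_iff] at h3 ⊢
      exact h3.symm⟩
  loopless := ⟨by
    intro i h
    obtain ⟨x, y, h1, h2, h3⟩ := abit_iff.1 h
    have h4 : x = y := Subtype.ext (rk_inj x.2 y.2 (h1.trans h2.symm))
    subst h4
    simp only [cod] at h3
    split_ifs at h3
    · rw [bit_iff] at h3
      exact h3.ne rfl
    · rw [bit_iff] at h3
      exact h3.ne rfl⟩

/-- **Condition C is coloured isomorphism of the renumbered graphs.** -/
theorem condC_iff {G H : SimpleGraph (Fin n)} {m : ℕ} (hA : CondA v w (cod G H))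
    (hm : (univ.filter fun y => multi v w true y (cod G H) = true).card ≤ m) :
    CondC v w (cod G H) ↔ ColIso (core G H v w m true)
      (fun i l => xbit v w true i l (cod G H)) (core G H v w m false)
      (fun i l => xbit v w false i l (cod G H)) := by
  classical
  set z := cod G H with hz
  obtain ⟨c, hc⟩ : ∃ c, (univ.filter fun y => multi v w true y z = true).card = c := ⟨_, rfl⟩
  rw [hc] at hm
  obtain ⟨π, hπ⟩ := exists_pi hA
  have hc' : (univ.filter fun y => multi v w false y z = true).card = c := by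
    rw [← hc]
    symm
    refine Finset.card_bij (fun x _ => π x) ?_ ?_ ?_
    · intro x hx
      rw [mem_filter] at hx ⊢
      exact ⟨mem_univ _, by rw [← multi_pi hA (hπ x)]; exact hx.2⟩
    · intro x _ y _ h
      exact π.injective h
    · intro y hy
      rw [mem_filter] at hy
      refine ⟨π.symm y, ?_, by simp⟩
      rw [mem_filter]
      refine ⟨mem_univ _, ?_⟩
      rw [multi_pi hA (hπ _)]
      simpa using hy.2
  obtain ⟨et, het⟩ := exists_num v w z true hm hc
  obtain ⟨ef, hef⟩ := exists_num v w z false hm hc'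
  constructor
  · rintro ⟨σ, h1, h2⟩
    let τ0 : Equiv.Perm {i : Fin m // (i : ℕ) < c} := (et.symm.trans σ).trans ef
    let τ : Equiv.Perm (Fin m) := Equiv.Perm.ofSubtype τ0
    have hτ1 : ∀ x : {x // multi v w true x z = true}, ∀ i : Fin m, rk v w true z x = i →
        rk v w false z (σ x) = τ i := by
      intro x i hi
      have h3 : (i : ℕ) < c := by
        rw [← hi, ← hc]
        exact rk_lt_card x.2
      have h4 : τ i = τ0 ⟨i, h3⟩ := Equiv.Perm.ofSubtype_apply_of_mem τ0 h3
      have h5 : et x = ⟨i, h3⟩ := by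
        apply Subtype.ext
        apply Fin.ext
        rw [het x, hi]
      have h6 : τ0 ⟨i, h3⟩ = ef (σ x) := by
        show ef (σ (et.symm ⟨i, h3⟩)) = _
        rw [← h5, Equiv.symm_apply_apply]
      rw [h4, h6, hef]
    have hτ2 : ∀ i : Fin m, ¬ (i : ℕ) < c → τ i = i := fun i hi =>
      Equiv.Perm.ofSubtype_apply_of_not_mem τ0 hi
    have hτ3 : ∀ i : Fin m, ¬ (i : ℕ) < c → ¬ (τ i : ℕ) < c := fun i hi => by rwa [hτ2 i hi]
    have hex : ∀ i : Fin m, (i : ℕ) < c → ∃ x : {x // multi v w true x z = true},
        rk v w true z x = i := by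
      intro i hi
      refine ⟨et.symm ⟨i, hi⟩, ?_⟩
      rw [← het, Equiv.apply_symm_apply]
    refine ⟨⟨τ, ?_⟩, ?_⟩
    · intro i j
      show abit v w false (τ i) (τ j) z = true ↔ abit v w true i j z = true
      rw [abit_iff, abit_iff]
      constructor
      · rintro ⟨x, y, h3, h4, h5⟩
        have hi : (i : ℕ) < c := by
          by_contra hcon
          apply hτ3 i hcon
          rw [← h3, ← hc']
          exact rk_lt_card x.2
        have hj : (j : ℕ) < c := by
          by_contra hcon
          apply hτ3 j hcon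
          rw [← h4, ← hc']
          exact rk_lt_card y.2
        obtain ⟨x', hx'⟩ := hex i hi
        obtain ⟨y', hy'⟩ := hex j hj
        have e1 : σ x' = x := Subtype.ext (rk_inj (σ x').2 x.2 ((hτ1 x' i hx').trans h3.symm))
        have e2 : σ y' = y := Subtype.ext (rk_inj (σ y').2 y.2 ((hτ1 y' j hy').trans h4.symm))
        refine ⟨x', y', hx', hy', ?_⟩
        rw [h2, e1, e2]
        exact h5
      · rintro ⟨x, y, h3, h4, h5⟩
        refine ⟨σ x, σ y, hτ1 x i h3, hτ1 y j h4, ?_⟩
        rw [← h2]
        exact h5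
    · intro i
      funext l
      show xbit v w true i l z = xbit v w false (τ i) l z
      rw [Bool.eq_iff_iff, xbit_iff, xbit_iff]
      constructor
      · rintro ⟨x, y, h3, h4, h5⟩
        exact ⟨σ x, y, hτ1 x i h3, h4, eqv_trans (eqv_symm (h1 x)) h5⟩
      · rintro ⟨x, y, h3, h4, h5⟩
        have hi : (i : ℕ) < c := by
          by_contra hcon
          apply hτ3 i hcon
          rw [← h3, ← hc']
          exact rk_lt_card x.2
        obtain ⟨x', hx'⟩ := hex i hi
        have e1 : σ x' = x := Subtype.ext (rk_inj (σ x').2 x.2 ((hτ1 x' i hx').trans h3.symm))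
        refine ⟨x', y, hx', h4, eqv_trans (h1 x') ?_⟩
        rw [e1]
        exact h5
  · rintro ⟨τ, hτ⟩
    have h1 : ∀ x : {x // multi v w true x z = true}, ∃ y : {x // multi v w false x z = true},
        rk v w false z y = τ (et x) ∧ eqv v w (true, (x : Fin n)) (false, (y : Fin n)) z = true := by
      intro x
      have h2 : xbit v w true (et x : {i : Fin m // (i : ℕ) < c}).1 (et x).1 z = true := by
        rw [xbit_iff]
        exact ⟨x, x, (het x).symm, (het x).symm, eqv_refl _⟩
      have h3 := congrFun (hτ (et x).1) (et x).1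
      simp only at h3
      rw [h2] at h3
      obtain ⟨y, x', h4, h5, h6⟩ := xbit_iff.1 h3.symm
      have h7 : x' = x := Subtype.ext (rk_inj x'.2 x.2 (h5.trans (het x)))
      subst h7
      exact ⟨y, h4, eqv_symm h6⟩
    choose f hf1 hf2 using h1
    have hinj : Function.Injective f := by
      intro x y hxy
      have h2 := hf1 x
      rw [hxy, hf1 y] at h2
      have h3 : (et y).1 = (et x).1 := τ.injective (Fin.ext h2)
      exact (et.injective (Subtype.ext h3)).symm
    have hcard : Fintype.card {x // multi v w true x z = true} =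
        Fintype.card {x // multi v w false x z = true} := by
      rw [Fintype.card_subtype, Fintype.card_subtype, hc, hc']
    refine ⟨Equiv.ofBijective f ((Fintype.bijective_iff_injective_and_card f).2 ⟨hinj, hcard⟩),
      fun x => hf2 x, fun x y => ?_⟩
    show z (true, (x : Fin n), (y : Fin n)) = z (false, (f x : Fin n), (f y : Fin n))
    have h2 : (core G H v w m false).Adj (τ (et x).1) (τ (et y).1) ↔
        (core G H v w m true).Adj (et x).1 (et y).1 := τ.map_rel_iff
    have h3 : (core G H v w m true).Adj (et x).1 (et y).1 ↔ z (true, (x : Fin n), (y : Fin n)) = true := by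
      show abit v w true _ _ z = true ↔ _
      rw [abit_iff]
      constructor
      · rintro ⟨x', y', h4, h5, h6⟩
        have e1 : x' = x := Subtype.ext (rk_inj x'.2 x.2 (h4.trans (het x)))
        have e2 : y' = y := Subtype.ext (rk_inj y'.2 y.2 (h5.trans (het y)))
        rw [← e1, ← e2]
        exact h6
      · exact fun h => ⟨x, y, (het x).symm, (het y).symm, h⟩
    have h4 : (core G H v w m false).Adj (τ (et x).1) (τ (et y).1) ↔
        z (false, (f x : Fin n), (f y : Fin n)) = true := by
      show abit v w false _ _ z = true ↔ _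
      rw [abit_iff]
      constructor
      · rintro ⟨x', y', h4, h5, h6⟩
        have e1 : x' = f x := Subtype.ext (rk_inj x'.2 (f x).2 (h4.trans (hf1 x).symm))
        have e2 : y' = f y := Subtype.ext (rk_inj y'.2 (f y).2 (h5.trans (hf1 y).symm))
        rw [← e1, ← e2]
        exact h6
      · exact fun h => ⟨f x, f y, hf1 x, hf1 y, h⟩
    rw [Bool.eq_iff_iff, ← h3, ← h4]
    exact h2.symm

end Pool.Agent.N579.WA
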