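import Pool.Agent.N579.WA.Prob2

/-!
# Individualizing one vertex of a random graph: the probability bound
-/

set_option autoImplicit false

namespace Pool.Agent.N579.WA

open Finset Pool.Agent.N579.WL

/-- Equitable partitions with many vertices in nontrivial classes and with many classes are rare. -/
theorem upper_event {n k : ℕ} (hn : 2 ^ 40 ≤ n) (_hk : 2 ≤ k) (_hkn : k ≤ n) :
    {G : SimpleGraph (Fin n) | ∃ ρ, EqM G ρ ∧ 1 ≤ defect ρ ∧ k ≤ 4 * defect ρ ∧
      (2 * defect ρ ≤ n ∨ (n < 2 * defect ρ ∧ (k - 2) / 2 + defect ρ ≤ n ∧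
        16 * (Nat.log 2 n + 1) + 2 ≤ n - defect ρ))}.ncard * 2 ^ (k * n / 1000 + 2) ≤
      2 ^ n.choose 2 := by
  classical
  obtain ⟨L, hLd⟩ : ∃ L, L = Nat.log 2 n + 1 := ⟨_, rfl⟩
  have hn0 : n ≠ 0 := by
    have : (0 : ℕ) < 2 ^ 40 := by norm_num
    omega
  have hL : 41 ≤ L := by
    have := Nat.log_mono_right (b := 2) hn
    rw [Nat.log_pow (by norm_num)] at this
    omega
  have hnL : n < 2 ^ L := by
    rw [hLd]
    exact Nat.lt_pow_succ_log_self (by norm_num) n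
  have hLn : 2 ^ (L - 1) ≤ n := by
    rw [hLd, Nat.add_sub_cancel]
    exact Nat.pow_log_le_self 2 hn0
  have hlin : 100000 * L ≤ n := (lin_bound L hL).trans hLn
  set M := 2 ^ n.choose 2 with hM
  set e := k * n / 1000 with he
  let S : Finset ℕ := (Finset.range (n + 1)).filter fun d =>
    1 ≤ d ∧ k ≤ 4 * d ∧ (2 * d ≤ n ∨ (n < 2 * d ∧ (k - 2) / 2 + d ≤ n ∧ 16 * L + 2 ≤ n - d))
  have hS : S.card ≤ 2 ^ L := by
    have h1 : S ⊆ (Finset.range (n + 1)).erase 0 := by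
      intro d hd
      simp only [S, mem_filter] at hd
      rw [mem_erase]
      exact ⟨by omega, hd.1⟩
    have h2 := Finset.card_le_card h1
    rw [Finset.card_erase_of_mem (by simp), Finset.card_range] at h2
    omega
  have hone : ∀ d ∈ S, (Bad n d).ncard * 2 ^ (L + 2 + e) ≤ M := by
    intro d hd
    simp only [S, mem_filter, mem_range] at hd
    obtain ⟨h0, h1, h2, h3⟩ := hd
    have hb := bad_all n d
    rw [← hM] at hb
    have hX : ∃ X, (univ.filter fun ρ : Fin n → Fin n => defect ρ = d).card ≤ 2 ^ X ∧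
        X + (L + 2 + e) ≤ d * (n - d - 1) / 2 := by
      rcases h3 with h3 | ⟨h3, h4, h5⟩
      · refine ⟨2 * d * L, ?_, ?_⟩
        · refine (card_maps n d).trans ?_
          calc n ^ (2 * d) ≤ (2 ^ L) ^ (2 * d) := Nat.pow_le_pow_left hnL.le _
            _ = _ := by rw [← pow_mul]; congr 1; ring
        · have := ineq1 h1 h2 h3 hL hlin
          omega
      · refine ⟨n * L, ?_, ?_⟩
        · refine (Finset.card_filter_le _ _).trans ?_
          rw [Finset.card_univ, Fintype.card_fun, Fintype.card_fin]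
          calc n ^ n ≤ (2 ^ L) ^ n := Nat.pow_le_pow_left hnL.le _
            _ = _ := by rw [← pow_mul]; congr 1; ring
        · have := ineq2 h3 h4 h5 hL hlin
          omega
    obtain ⟨X, hX1, hX2⟩ := hX
    have h6 : 2 ^ X * ((Bad n d).ncard * 2 ^ (L + 2 + e)) ≤ 2 ^ X * M := by
      calc 2 ^ X * ((Bad n d).ncard * 2 ^ (L + 2 + e))
          = (Bad n d).ncard * 2 ^ (X + (L + 2 + e)) := by rw [pow_add]; ring
        _ ≤ (Bad n d).ncard * 2 ^ (d * (n - d - 1) / 2) :=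
            Nat.mul_le_mul_left _ (Nat.pow_le_pow_right (by norm_num) hX2)
        _ ≤ _ := hb
        _ ≤ _ := Nat.mul_le_mul_right _ hX1
    exact Nat.le_of_mul_le_mul_left h6 (by positivity)
  have hsub : {G : SimpleGraph (Fin n) | ∃ ρ, EqM G ρ ∧ 1 ≤ defect ρ ∧ k ≤ 4 * defect ρ ∧
      (2 * defect ρ ≤ n ∨ (n < 2 * defect ρ ∧ (k - 2) / 2 + defect ρ ≤ n ∧
        16 * (Nat.log 2 n + 1) + 2 ≤ n - defect ρ))} ⊆ ⋃ d ∈ S, Bad n d := by
    rintro G ⟨ρ, h1, h2, h3, h4⟩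
    rw [← hLd] at h4
    simp only [Set.mem_iUnion]
    refine ⟨defect ρ, ?_, ρ, h1, rfl⟩
    simp only [S, mem_filter, mem_range]
    have h5 := card_reps ρ
    exact ⟨by omega, h2, h3, h4⟩
  have hcard := (Set.ncard_le_ncard hsub (Set.toFinite _)).trans
    (Finset.set_ncard_biUnion_le _ _)
  have h1 : (∑ d ∈ S, (Bad n d).ncard) * 2 ^ (L + 2 + e) ≤ 2 ^ L * M := by
    rw [Finset.sum_mul]
    refine (Finset.sum_le_sum hone).trans ?_
    rw [Finset.sum_const, smul_eq_mul]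
    exact Nat.mul_le_mul_right _ hS
  have h2 : 2 ^ L * ((∑ d ∈ S, (Bad n d).ncard) * 2 ^ (e + 2)) ≤ 2 ^ L * M := by
    refine le_trans (le_of_eq ?_) h1
    rw [show L + 2 + e = L + (e + 2) by ring, pow_add 2 L]
    ring
  exact (Nat.mul_le_mul_right _ hcard).trans (Nat.le_of_mul_le_mul_left h2 (by positivity))

theorem pow_bound (L : ℕ) (hL : 98 ≤ L) : (32 * L) ^ 4 ≤ 2 ^ (L - 1) := by
  induction L, hL using Nat.le_induction with
  | base => norm_num
  | succ L hL ih =>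
    have h1 : L + 1 - 1 = (L - 1) + 1 := by omega
    have h1' : 2 ^ (L + 1 - 1) = 2 ^ (L - 1) * 2 := by rw [h1, pow_succ]
    rw [h1']
    have h2 : (32 * (L + 1)) ^ 4 ≤ (32 * L) ^ 4 * 2 := by
      have h3 : 5 * (L + 1) ≤ 6 * L := by omega
      have h4 : (5 * (L + 1)) ^ 4 ≤ (6 * L) ^ 4 := Nat.pow_le_pow_left h3 4
      rw [mul_pow] at h4 ⊢
      rw [mul_pow] at h4
      rw [mul_pow]
      nlinarith [Nat.zero_le (L ^ 4), Nat.zero_le ((L + 1) ^ 4)]
    omega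

/-- Some vertex `v` has the property that in all equitable partitions in which `v` is alone in its
class, at most `m` vertices are not alone in their classes. -/
def GoodV {n : ℕ} (m : ℕ) (G : SimpleGraph (Fin n)) : Prop :=
  ∃ v : Fin n, ∀ ρ : Fin n → Fin n, EqM G ρ → (∀ x, ρ x = ρ v → x = v) → n ≤ (sing ρ).card + m

/-- the parameters -/
structure Par (n m L T h w m' : ℕ) : Prop where
  hL : 98 ≤ L
  hnL : n < 2 ^ L
  hLn : 2 ^ (L - 1) ≤ n
  hT : T = m + 32 * L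
  hT4 : T ^ 4 ≤ 16 * n
  hh : h = n / 4
  hw : w = 20 * T
  hm' : m' = h / (2 * w)
  hTn : 1000 * T ≤ n

theorem Par.facts {n m L T h w m' : ℕ} (p : Par n m L T h w m') :
    1 ≤ m' ∧ 2 * h + 2 * m' * w ≤ n ∧ n < (m' + 1) * (160 * T) ∧ n ≤ 4 * h + 3 ∧
      32 * L ≤ T ∧ 200 * T ≤ h ∧ 2 * m' < 2 ^ L := by
  obtain ⟨hL, hnL, hLn, hT, hT4, hh, hw, hm', hTn⟩ := p
  have h0 : n ≤ 4 * h + 3 := by omega
  have h1 : m' * (2 * w) ≤ h := by
    rw [hm']
    exact Nat.div_mul_le_self h (2 * w)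
  have h2 : h < (m' + 1) * (2 * w) := by
    rw [hm']
    exact (Nat.div_lt_iff_lt_mul (by omega)).1 (Nat.lt_succ_self _)
  have h3 : 200 * T ≤ h := by omega
  have h4 : 1 ≤ m' := by
    rw [hm', Nat.le_div_iff_mul_le (by omega)]
    omega
  have h5 : 2 * m' * w = m' * (2 * w) := by ring
  refine ⟨h4, by omega, ?_, h0, by omega, h3, ?_⟩
  · have h6 : (m' + 1) * (160 * T) = 4 * ((m' + 1) * (2 * w)) := by
      rw [hw]
      ring
    omega
  · have h6 : m' * 2 ≤ m' * (2 * w) := Nat.mul_le_mul_left _ (by omega)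
    omega

/-- the first numerical estimate -/
theorem num_one {n m L T h w m' : ℕ} (p : Par n m L T h w m') :
    (16 * T) * h ^ (16 * T) * ((2 ^ (2 * m' * w)) ^ (16 * T) *
      (2 * m' * 2 ^ (16 * T + (2 * m' - 1) * w)) ^ (h - 16 * T)) * 2 ^ (T * h) ≤
      2 ^ (h * (2 * m' * w)) ∧ 2 * m' * 2 ^ (16 * T + (2 * m' - 1) * w) ≤ 2 ^ (2 * m' * w) := by
  obtain ⟨f1, f2, f3, f4, f5, f6, f7⟩ := p.facts
  obtain ⟨hL, hnL, hLn, hT, hT4, hh, hw, hm', hTn⟩ := p
  set A := 2 ^ (2 * m' * w) with hA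
  set D := 2 * m' * 2 ^ (16 * T + (2 * m' - 1) * w) with hD
  have h1 : D * 2 ^ (3 * T) ≤ A := by
    have e1 : 2 * m' * w = (2 * m' - 1) * w + w := by
      obtain ⟨z, hz⟩ : ∃ z, 2 * m' = z + 1 := ⟨2 * m' - 1, by omega⟩
      rw [hz, Nat.add_sub_cancel]
      ring
    calc D * 2 ^ (3 * T) = 2 * m' * 2 ^ ((16 * T + (2 * m' - 1) * w) + 3 * T) := by
          rw [hD, pow_add 2 (16 * T + (2 * m' - 1) * w)]
          ring
      _ ≤ 2 ^ L * 2 ^ ((16 * T + (2 * m' - 1) * w) + 3 * T) := Nat.mul_le_mul_right _ f7.le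
      _ = 2 ^ (L + ((16 * T + (2 * m' - 1) * w) + 3 * T)) := by rw [← pow_add]
      _ ≤ A := by
          rw [hA]
          refine Nat.pow_le_pow_right (by norm_num) ?_
          rw [e1]
          omega
  have h2 : D ≤ A := (Nat.le_mul_of_pos_right _ (by positivity)).trans h1
  refine ⟨?_, h2⟩
  obtain ⟨z, hz⟩ : ∃ z, h = 16 * T + z := ⟨h - 16 * T, by omega⟩
  have hz' : h - 16 * T = z := by omega
  rw [hz']
  have h3 : (16 * T) * h ^ (16 * T) ≤ 2 ^ (L * (16 * T + 1)) := by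
    calc (16 * T) * h ^ (16 * T) ≤ 2 ^ L * (2 ^ L) ^ (16 * T) :=
          Nat.mul_le_mul (by omega) (Nat.pow_le_pow_left (by omega) _)
      _ = 2 ^ (L * (16 * T + 1)) := by
          rw [← pow_mul, ← pow_add]
          congr 1
          ring
  have h4 : L * (16 * T + 1) + T * h ≤ 3 * T * z := by
    have h5 : 32 * L ≤ z := by omega
    have h6 : L * (16 * T + 1) ≤ 17 * (L * T) := by nlinarith
    have h7 : 32 * (L * T) ≤ T * z := by nlinarith
    have h8 : 4 * h ≤ 5 * z := by omega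
    have h9 : 4 * (T * h) ≤ 5 * (T * z) := by nlinarith
    nlinarith
  have h5 : h * (2 * m' * w) = (2 * m' * w) * (16 * T) + (2 * m' * w) * z := by
    rw [hz]
    ring
  calc (16 * T) * h ^ (16 * T) * (A ^ (16 * T) * D ^ z) * 2 ^ (T * h) ≤
      2 ^ (L * (16 * T + 1)) * (A ^ (16 * T) * D ^ z) * 2 ^ (T * h) :=
        Nat.mul_le_mul_right _ (Nat.mul_le_mul_right _ h3)
    _ = 2 ^ (L * (16 * T + 1) + T * h) * (A ^ (16 * T) * D ^ z) := by
        rw [pow_add]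
        ring
    _ ≤ 2 ^ (3 * T * z) * (A ^ (16 * T) * D ^ z) :=
        Nat.mul_le_mul_right _ (Nat.pow_le_pow_right (by norm_num) h4)
    _ = A ^ (16 * T) * (D * 2 ^ (3 * T)) ^ z := by
        rw [pow_mul, mul_pow]
        ring
    _ ≤ A ^ (16 * T) * A ^ z := Nat.mul_le_mul_left _ (Nat.pow_le_pow_left h1 _)
    _ = 2 ^ (h * (2 * m' * w)) := by
        rw [h5, hA, ← pow_mul, ← pow_mul, ← pow_add]

/-- the second numerical estimate -/
theorem num_two {n m L T h w m' : ℕ} (p : Par n m L T h w m') :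
    (n + 1) ^ T * T ^ (2 * (8 * T)) * (2 * m') * 2 ^ T ≤ (m' + 1) ^ (8 * T) := by
  obtain ⟨f1, f2, f3, f4, f5, f6, f7⟩ := p.facts
  obtain ⟨hL, hnL, hLn, hT, hT4, hh, hw, hm', hTn⟩ := p
  have hT0 : 0 < T := by omega
  have h1 : (n + 1) ^ T * T ^ (2 * (8 * T)) * (2 * m') * 2 ^ T * (160 * T) ^ (8 * T) ≤
      (m' + 1) ^ (8 * T) * (160 * T) ^ (8 * T) := by
    have e1 : (n + 1) ^ T ≤ 2 ^ (L * T) := by
      rw [pow_mul]
      exact Nat.pow_le_pow_left hnL _
    have e2 : T ^ (2 * (8 * T)) * T ^ (8 * T) ≤ 2 ^ ((L + 4) * (6 * T)) := by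
      calc T ^ (2 * (8 * T)) * T ^ (8 * T) = (T ^ 4) ^ (6 * T) := by
            rw [← pow_add, ← pow_mul]
            congr 1
            ring
        _ ≤ (2 ^ (L + 4)) ^ (6 * T) := by
            refine Nat.pow_le_pow_left ?_ _
            rw [pow_add]
            omega
        _ = _ := by rw [← pow_mul]
    have e3 : (160 : ℕ) ^ (8 * T) ≤ 2 ^ (8 * (8 * T)) := by
      rw [pow_mul 2 8]
      exact Nat.pow_le_pow_left (by norm_num) _
    have e4 : L * T + (L + 4) * (6 * T) + 8 * (8 * T) + L + T ≤ (L - 1) * (8 * T) := by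
      obtain ⟨z, rfl⟩ : ∃ z, L = z + 1 := ⟨L - 1, by omega⟩
      rw [Nat.add_sub_cancel]
      nlinarith
    calc (n + 1) ^ T * T ^ (2 * (8 * T)) * (2 * m') * 2 ^ T * (160 * T) ^ (8 * T)
        = (n + 1) ^ T * (T ^ (2 * (8 * T)) * T ^ (8 * T)) * 160 ^ (8 * T) * (2 * m') * 2 ^ T := by
          rw [mul_pow]
          ring
      _ ≤ 2 ^ (L * T) * 2 ^ ((L + 4) * (6 * T)) * 2 ^ (8 * (8 * T)) * 2 ^ L * 2 ^ T := by
          gcongr
      _ = 2 ^ (L * T + (L + 4) * (6 * T) + 8 * (8 * T) + L + T) := by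
          rw [← pow_add, ← pow_add, ← pow_add, ← pow_add]
      _ ≤ 2 ^ ((L - 1) * (8 * T)) := Nat.pow_le_pow_right (by norm_num) e4
      _ = (2 ^ (L - 1)) ^ (8 * T) := by rw [pow_mul]
      _ ≤ ((m' + 1) * (160 * T)) ^ (8 * T) := Nat.pow_le_pow_left (by omega) _
      _ = _ := by rw [mul_pow]
  exact Nat.le_of_mul_le_mul_right h1 (by positivity)

theorem exists_par {n m : ℕ} (hn : 2 ^ 100 ≤ n) (hm : m ^ 4 ≤ n) :
    ∃ L T h w m' : ℕ, L = Nat.log 2 n + 1 ∧ Par n m L T h w m' := by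
  obtain ⟨L, hLd⟩ : ∃ L, L = Nat.log 2 n + 1 := ⟨_, rfl⟩
  have hn0 : n ≠ 0 := by
    have : (0 : ℕ) < 2 ^ 100 := by norm_num
    omega
  have hL : 98 ≤ L := by
    have := Nat.log_mono_right (b := 2) hn
    rw [Nat.log_pow (by norm_num)] at this
    omega
  have hnL : n < 2 ^ L := by
    rw [hLd]
    exact Nat.lt_pow_succ_log_self (by norm_num) n
  have hLn : 2 ^ (L - 1) ≤ n := by
    rw [hLd, Nat.add_sub_cancel]
    exact Nat.pow_log_le_self 2 hn0
  obtain ⟨T, hT⟩ : ∃ T, T = m + 32 * L := ⟨_, rfl⟩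
  have hT4 : T ^ 4 ≤ 16 * n := by
    have h1 := (pow_bound L hL).trans hLn
    rw [hT]
    have h2 : (m + 32 * L) ^ 4 ≤ 8 * (m ^ 4 + (32 * L) ^ 4) := by
      generalize 32 * L = y
      have h3 : ((m : ℤ) + y) ^ 4 ≤ 8 * ((m : ℤ) ^ 4 + (y : ℤ) ^ 4) := by
        nlinarith [sq_nonneg ((m : ℤ) - y), sq_nonneg ((m : ℤ) ^ 2 - (y : ℤ) ^ 2),
          sq_nonneg ((m : ℤ) + y), mul_nonneg (sq_nonneg ((m : ℤ) - y)) (sq_nonneg ((m : ℤ) + y)),
          mul_nonneg (sq_nonneg ((m : ℤ) - y)) (sq_nonneg ((m : ℤ) - y)),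
          mul_nonneg (sq_nonneg ((m : ℤ) - y)) (sq_nonneg (m : ℤ)),
          mul_nonneg (sq_nonneg ((m : ℤ) - y)) (sq_nonneg (y : ℤ))]
      exact_mod_cast h3
    omega
  have hTn : 1000 * T ≤ n := by
    have h1 : 3136 ≤ T := by omega
    have h2 : 3136 ^ 3 ≤ T ^ 3 := Nat.pow_le_pow_left h1 3
    have h3 : T ^ 4 = T ^ 3 * T := by ring
    have h4 : 3136 ^ 3 * T ≤ T ^ 3 * T := Nat.mul_le_mul_right _ h2
    omega
  exact ⟨L, T, n / 4, 20 * T, n / 4 / (2 * (20 * T)), hLd, hL, hnL, hLn, hT, hT4, rfl, rfl, rfl, hTn⟩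

/-- **All but a `2 ^ (- m n / 1000)` fraction of the graphs are good.** -/
theorem good_prob {n m : ℕ} (hn : 2 ^ 100 ≤ n) (hm : m ^ 4 ≤ n) :
    {G : SimpleGraph (Fin n) | ¬ GoodV m G}.ncard * 2 ^ (m * n / 1000) ≤ 2 ^ n.choose 2 := by
  classical
  rcases Nat.eq_zero_or_pos m with hm0 | hm0
  · subst hm0
    rw [zero_mul, Nat.zero_div, pow_zero, mul_one]
    calc {G : SimpleGraph (Fin n) | ¬ GoodV 0 G}.ncard ≤ (Set.univ : Set (SimpleGraph (Fin n))).ncard :=
          Set.ncard_le_ncard (Set.subset_univ _) (Set.toFinite _)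
      _ = 2 ^ n.choose 2 := by rw [Set.ncard_univ, card_graphs]
  obtain ⟨L, T, h, w, m', hLd, p⟩ := exists_par hn hm
  obtain ⟨f1, f2, f3, f4, f5, f6, f7⟩ := p.facts
  obtain ⟨q, hq1, hq2⟩ := Nat.exists_infinite_primes (m' + 1)
  haveI : Fact q.Prime := ⟨hq2⟩
  set M := 2 ^ n.choose 2 with hM
  -- the three events
  set U : Set (SimpleGraph (Fin n)) := {G | ∃ ρ, EqM G ρ ∧ 1 ≤ defect ρ ∧ 2 * m + 2 ≤ 4 * defect ρ ∧
      (2 * defect ρ ≤ n ∨ (n < 2 * defect ρ ∧ (2 * m + 2 - 2) / 2 + defect ρ ≤ n ∧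
        16 * (Nat.log 2 n + 1) + 2 ≤ n - defect ρ))} with hU
  set S1 : Set (SimpleGraph (Fin n)) := {G | ¬ ∃ x : Fin (16 * T) → Fin h,
    Indep q (rows f2 (xs f2) G) x} with hS1
  set S2 : Set (SimpleGraph (Fin n)) := {G | (∃ x : Fin (2 * (8 * T)) → Fin h,
        Indep q (rows (l := 2 * m') (w := w) f2 (xs f2) G) x) ∧
      ∀ v : Fin h, (univ.image fun i : Fin h => codeg G (xs f2 i) (vs f2 v)).card ≤ T} with hS2
  have hmn : 2 * m + 2 ≤ n := by
    have := p.hTn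
    have := p.hT
    omega
  have b1 : U.ncard * 2 ^ (m * n / 1000 + 2) ≤ M := by
    refine le_trans (Nat.mul_le_mul_left _ (Nat.pow_le_pow_right (by norm_num) ?_))
      (upper_event (n := n) (k := 2 * m + 2) (le_trans (by norm_num) hn) (by omega) hmn)
    have : m * n ≤ (2 * m + 2) * n := Nat.mul_le_mul_right _ (by omega)
    have := Nat.div_le_div_right (c := 1000) this
    omega
  have hTh : m * n / 1000 + 2 ≤ T * h := by
    have h1 : m * n ≤ 8 * (T * h) := by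
      have h2 : n ≤ 8 * h := by omega
      calc m * n ≤ T * (8 * h) := Nat.mul_le_mul (by have := p.hT; omega) h2
        _ = 8 * (T * h) := by ring
    have h2 : 100 ≤ T * h := by nlinarith [p.hL]
    omega
  have b2 : S1.ncard * 2 ^ (m * n / 1000 + 2) ≤ M := by
    refine le_trans (Nat.mul_le_mul_left _ (Nat.pow_le_pow_right (by norm_num) hTh)) ?_
    obtain ⟨n1, n2⟩ := num_one p
    have h1 := step_one (q := q) f2 (R := 16 * T) n2 (by omega) f1
    have h2 : S1.ncard * 2 ^ (T * h) * 2 ^ (h * (2 * m' * w)) ≤ M * 2 ^ (h * (2 * m' * w)) := by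
      calc S1.ncard * 2 ^ (T * h) * 2 ^ (h * (2 * m' * w))
          = (S1.ncard * 2 ^ (h * (2 * m' * w))) * 2 ^ (T * h) := by ring
        _ ≤ _ * 2 ^ (T * h) := Nat.mul_le_mul_right _ h1
        _ = ((16 * T) * h ^ (16 * T) * ((2 ^ (2 * m' * w)) ^ (16 * T) *
              (2 * m' * 2 ^ (16 * T + (2 * m' - 1) * w)) ^ (h - 16 * T)) * 2 ^ (T * h)) * M := by
            rw [hM]
            ring
        _ ≤ 2 ^ (h * (2 * m' * w)) * M := Nat.mul_le_mul_right _ n1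
        _ = _ := by ring
    exact Nat.le_of_mul_le_mul_right h2 (by positivity)
  have b3 : S2.ncard * 2 ^ (m * n / 1000 + 2) ≤ M := by
    refine le_trans (Nat.mul_le_mul_left _ (Nat.pow_le_pow_right (by norm_num) hTh)) ?_
    have n1 := num_two p
    have h1 := step_two (q := q) f2 (R := 8 * T) (T := T) f1 (by omega)
    set K := (m' + 1) ^ (8 * T) with hK
    have h2 : S2.ncard * 2 ^ (T * h) * (2 ^ (h * (2 * m' * w)) * K ^ h) ≤
        M * (2 ^ (h * (2 * m' * w)) * K ^ h) := by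
      calc S2.ncard * 2 ^ (T * h) * (2 ^ (h * (2 * m' * w)) * K ^ h)
          = (S2.ncard * 2 ^ (h * (2 * m' * w)) * K ^ h) * 2 ^ (T * h) := by ring
        _ ≤ _ * 2 ^ (T * h) := Nat.mul_le_mul_right _ h1
        _ = ((n + 1) ^ T * T ^ (2 * (8 * T)) * (2 * m') * 2 ^ T * 2 ^ (2 * m' * w)) ^ h * M := by
            rw [hM, pow_mul 2 T h, mul_pow _ _ h, mul_pow _ _ h, mul_pow _ _ h, mul_pow _ _ h,
              mul_pow _ _ h, mul_pow _ _ h]
            ring
        _ ≤ (K * 2 ^ (2 * m' * w)) ^ h * M :=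
            Nat.mul_le_mul_right _ (Nat.pow_le_pow_left (Nat.mul_le_mul_right _ n1) _)
        _ = _ := by
            rw [mul_pow, ← pow_mul 2, mul_comm (2 * m' * w) h]
            ring
    exact Nat.le_of_mul_le_mul_right h2 (by positivity)
  -- the union
  have hsub : {G : SimpleGraph (Fin n) | ¬ GoodV m G} ⊆ U ∪ (S1 ∪ S2) := by
    intro G hG
    by_contra hnot
    simp only [Set.mem_union, not_or] at hnot
    obtain ⟨hu, h1, h2⟩ := hnot
    apply hG
    have h1' : ∃ x : Fin (16 * T) → Fin h, Indep q (rows f2 (xs f2) G) x := not_not.1 h1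
    have h2' : ∃ v : Fin h, T < (univ.image fun i : Fin h => codeg G (xs f2 i) (vs f2 v)).card := by
      by_contra hcon
      push Not at hcon
      refine h2 ⟨?_, hcon⟩
      have e : 2 * (8 * T) = 16 * T := by ring
      rw [e]
      exact h1'
    obtain ⟨v, hv⟩ := h2'
    refine ⟨vs f2 v, fun ρ hρ hρv => ?_⟩
    by_contra hbig
    push Not at hbig
    have h3 := card_codeg_le hρ hρv (univ.image (xs f2))
    rw [image_image] at h3
    have h4 : (univ.image ((fun x => codeg G x (vs f2 v)) ∘ xs f2)).card =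
      (univ.image fun i : Fin h => codeg G (xs f2 i) (vs f2 v)).card := rfl
    have h5 := card_sing ρ
    have h6 := p.hT
    apply hu
    refine ⟨ρ, hρ, by omega, by omega, ?_⟩
    by_cases h7 : 2 * defect ρ ≤ n
    · exact Or.inl h7
    · refine Or.inr ⟨by omega, by omega, ?_⟩
      rw [← hLd]
      omega
  have hcard : {G : SimpleGraph (Fin n) | ¬ GoodV m G}.ncard ≤ U.ncard + (S1.ncard + S2.ncard) :=
    (Set.ncard_le_ncard hsub (Set.toFinite _)).trans ((Set.ncard_union_le _ _).trans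
      (Nat.add_le_add_left (Set.ncard_union_le _ _) _))
  have h1 : {G : SimpleGraph (Fin n) | ¬ GoodV m G}.ncard * 2 ^ (m * n / 1000) * 4 ≤ M * 4 := by
    calc {G : SimpleGraph (Fin n) | ¬ GoodV m G}.ncard * 2 ^ (m * n / 1000) * 4
        = {G : SimpleGraph (Fin n) | ¬ GoodV m G}.ncard * 2 ^ (m * n / 1000 + 2) := by
          rw [pow_add]
          ring
      _ ≤ (U.ncard + (S1.ncard + S2.ncard)) * 2 ^ (m * n / 1000 + 2) := Nat.mul_le_mul_right _ hcard
      _ = U.ncard * 2 ^ (m * n / 1000 + 2) + (S1.ncard * 2 ^ (m * n / 1000 + 2) +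
          S2.ncard * 2 ^ (m * n / 1000 + 2)) := by ring
      _ ≤ M + (M + M) := Nat.add_le_add b1 (Nat.add_le_add b2 b3)
      _ ≤ M * 4 := by omega
  omega

end Pool.Agent.N579.WA
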