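import Pool.Agent.N579.WA.Circ
import Pool.Agent.N579.WA.Core
import Pool.Agent.N579.WA.Prob3

/-!
# The circuit
-/

set_option autoImplicit false

namespace Pool.Agent.N579.WA

open Finset Pool.Agent.N579.WL

variable {n : ℕ} (v w : Fin n)

/-- All the functions `EE`. -/
def famE (v w : Fin n) (t : ℕ) : Set (Fn (In n)) :=
  Set.range fun pq : (Bool × Fin n) × (Bool × Fin n) => EE v w t pq.1 pq.2

theorem fam_adjb (F : Set (Fn (In n))) (p u : Bool × Fin n) :
    Fam 4 F {fun z => adjb z p u} :=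
  ((Fam.const F (p.1 == u.1)).and (Fam.input F (p.1, p.2, u.2))).mono (by omega) le_rfl le_rfl

theorem card_V : (univ : Finset (Bool × Fin n)).card = 2 * n := by
  rw [card_univ, Fintype.card_prod, Fintype.card_bool, Fintype.card_fin]

theorem fam_EE_succ (t : ℕ) (p q : Bool × Fin n) :
    Fam (300 * (2 * n + 1) ^ 3) (famE v w t) {EE v w (t + 1) p q} := by
  have hE : ∀ p q, Fam 0 (famE v w t) {EE v w t p q} := fun p q => Fam.mem ⟨(p, q), rfl⟩
  have h1 : ∀ r : Bool × Fin n, Fam (140 * (2 * n + 1) ^ 2) (famE v w t)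
      {fun z => decide ((univ.filter fun u => (adjb z p u && EE v w t u r z) = true).card =
        (univ.filter fun u => (adjb z q u && EE v w t u r z) = true).card)} := by
    intro r
    have h2 := Fam.countEq (F := famE v w t) (c := 6) (univ : Finset (Bool × Fin n))
      (f := fun u z => adjb z p u && EE v w t u r z) (g := fun u z => adjb z q u && EE v w t u r z)
      (fun u _ => ((fam_adjb _ p u).and (hE u r)).mono (by omega) le_rfl le_rfl)
      (fun u _ => ((fam_adjb _ q u).and (hE u r)).mono (by omega) le_rfl le_rfl)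
    refine h2.mono (le_of_eq ?_) le_rfl le_rfl
    rw [card_V]
    ring
  have h2 := (hE p q).and (Fam.bigAnd (univ : Finset (Bool × Fin n)) (fun r _ => h1 r))
  refine Fam.ext (h2.mono ?_ le_rfl le_rfl) ?_
  · rw [card_V]
    nlinarith [Nat.zero_le n]
  · intro z
    rw [EE_succ]
    simp

theorem fam_EE (t : ℕ) : Fam ((2 * n + 1) ^ 2 + t * (300 * (2 * n + 1) ^ 5)) ∅ (famE v w t) := by
  have hc : Fintype.card ((Bool × Fin n) × (Bool × Fin n)) ≤ (2 * n + 1) ^ 2 := by
    rw [Fintype.card_prod, Fintype.card_prod, Fintype.card_bool, Fintype.card_fin]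
    nlinarith
  induction t with
  | zero =>
    have h1 := Fam.rng (F := (∅ : Set (Fn (In n)))) (c := 1)
      (f := fun pq : (Bool × Fin n) × (Bool × Fin n) => EE v w 0 pq.1 pq.2)
      (fun pq => Fam.const ∅ _)
    refine h1.mono ?_ le_rfl le_rfl
    omega
  | succ t ih =>
    have h1 := Fam.rng (F := famE v w t)
      (f := fun pq : (Bool × Fin n) × (Bool × Fin n) => EE v w (t + 1) pq.1 pq.2)
      (fun pq => fam_EE_succ v w t pq.1 pq.2)
    refine (ih.then h1).mono ?_ le_rfl le_rfl
    have h2 : Fintype.card ((Bool × Fin n) × (Bool × Fin n)) * (300 * (2 * n + 1) ^ 3) ≤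
        (2 * n + 1) ^ 2 * (300 * (2 * n + 1) ^ 3) := Nat.mul_le_mul_right _ hc
    have h3 : (2 * n + 1) ^ 2 * (300 * (2 * n + 1) ^ 3) = 300 * (2 * n + 1) ^ 5 := by ring
    rw [add_mul, one_mul]
    omega

/-- All the functions `eqv`. -/
def famQ (v w : Fin n) : Set (Fn (In n)) :=
  Set.range fun pq : (Bool × Fin n) × (Bool × Fin n) => eqv v w pq.1 pq.2

theorem fam_eqv : Fam (301 * (2 * n + 1) ^ 7) ∅ (famQ v w) := by
  refine (fam_EE v w (rounds n)).mono ?_ le_rfl le_rfl
  unfold rounds
  have h1 : (2 * n) ^ 2 ≤ (2 * n + 1) ^ 2 := Nat.pow_le_pow_left (by omega) 2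
  have h2 : (2 * n) ^ 2 * (300 * (2 * n + 1) ^ 5) ≤ (2 * n + 1) ^ 2 * (300 * (2 * n + 1) ^ 5) :=
    Nat.mul_le_mul_right _ h1
  have h3 : (2 * n + 1) ^ 2 * (300 * (2 * n + 1) ^ 5) = 300 * (2 * n + 1) ^ 7 := by ring
  have h4 : (2 * n + 1) ^ 2 ≤ (2 * n + 1) ^ 7 := Nat.pow_le_pow_right (by omega) (by norm_num)
  omega

/-- All the functions `multi`. -/
def famM (v w : Fin n) : Set (Fn (In n)) :=
  Set.range fun ax : Bool × Fin n => multi v w ax.1 ax.2

theorem fam_multi : Fam (20 * (2 * n + 1) ^ 2) (famQ v w) (famM v w) := by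
  have hE : ∀ p q, Fam 0 (famQ v w) {eqv v w p q} := fun p q => Fam.mem ⟨(p, q), rfl⟩
  have h1 := Fam.rng (F := famQ v w) (c := 17 * n + 3)
    (f := fun ax : Bool × Fin n => multi v w ax.1 ax.2) (by
      rintro ⟨a, x⟩
      have h2 := Fam.count (F := famQ v w) (c := 0) (univ : Finset (Fin n))
        (f := fun y => eqv v w (a, x) (a, y)) (fun y _ => hE _ _) 2
      have h3 := (h2.mono (G' := {fun z => decide ((univ.filter fun y =>
        eqv v w (a, x) (a, y) z = true).card = 1)}) le_rfl le_rfl (by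
          rintro g hg
          rw [Set.mem_singleton_iff] at hg
          exact ⟨1, by norm_num, hg⟩)).not
      refine h3.mono ?_ le_rfl le_rfl
      rw [card_univ, Fintype.card_fin]
      omega)
  refine h1.mono ?_ le_rfl le_rfl
  rw [Fintype.card_prod, Fintype.card_bool, Fintype.card_fin]
  nlinarith

/-- All the functions `pos`. -/
def famP (v w : Fin n) (m : ℕ) : Set (Fn (In n)) :=
  {g | ∃ (a : Bool) (x : Fin n) (i : ℕ), i < m ∧ g = pos v w a i x}

theorem fam_pos {m : ℕ} (hm : m ≤ n) : Fam (20 * (2 * n + 1) ^ 3) (famM v w) (famP v w m) := by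
  have hE : ∀ a x, Fam 0 (famM v w) {multi v w a x} := fun a x => Fam.mem ⟨(a, x), rfl⟩
  have h1 := Fam.iUnion (F := famM v w) (univ : Finset (Bool × Fin n)) (c := n * (8 * m + 4) + m + m * 2)
    (G := fun ax => {g | ∃ i < m, g = pos v w ax.1 i ax.2}) (by
      rintro ⟨a, x⟩ -
      have h2 := Fam.count (F := famM v w) (c := 3) (univ : Finset (Fin n))
        (f := fun y z => multi v w a y z && decide (y < x))
        (fun y _ => ((hE a y).and (Fam.const _ (decide (y < x)))).mono (by omega) le_rfl le_rfl) m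
      rw [card_univ, Fintype.card_fin] at h2
      have h3 := h2.trans (H := {g | ∃ i ∈ range m, g ∈ ({pos v w a i x} : Set (Fn (In n)))})
        (d := (range m).card * 2) (by
          refine Fam.iUnion (range m) fun i hi => ?_
          rw [mem_range] at hi
          refine ((Fam.mem (f := multi v w a x) (Or.inl ⟨(a, x), rfl⟩)).and
            (Fam.mem (f := fun z => decide (rk v w a z x = i)) (Or.inr ⟨i, hi, rfl⟩))).mono
            (by omega) le_rfl le_rfl)
      refine h3.mono ?_ le_rfl ?_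
      · rw [card_range]
        ring_nf
        omega
      · rintro g ⟨i, hi, rfl⟩
        exact Or.inr ⟨i, mem_range.2 hi, rfl⟩)
  refine h1.mono ?_ le_rfl ?_
  · rw [card_V]
    have h2 : n * (8 * m + 4) + m + m * 2 ≤ n * (8 * n + 4) + 3 * n := by
      have : n * (8 * m + 4) ≤ n * (8 * n + 4) := Nat.mul_le_mul_left _ (by omega)
      omega
    refine (Nat.mul_le_mul_left _ h2).trans ?_
    nlinarith [Nat.zero_le n, Nat.zero_le (n ^ 2), Nat.zero_le (n ^ 3)]
  · rintro g ⟨a, x, i, hi, rfl⟩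
    exact ⟨(a, x), mem_univ _, i, hi, rfl⟩

/-- The inputs of a circuit which reads two coloured graphs with `m` vertices: the adjacency bits
(`true, a, i, j`) and the colour bits (`false, a, i, j`) of the graph number `a`. -/
abbrev Jc (m : ℕ) : Type := Bool × Bool × Fin m × Fin m

/-- The bits of the renumbered graphs. -/
def cbit (v w : Fin n) (m : ℕ) (j : Jc m) : Fn (In n) :=
  if j.1 = true then abit v w j.2.1 j.2.2.1 j.2.2.2 else xbit v w j.2.1 j.2.2.1 j.2.2.2

theorem fam_cbit {m : ℕ} (hm : m ≤ n) :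
    Fam (20 * (2 * n + 1) ^ 4) (famQ v w ∪ famP v w m) (Set.range (cbit v w m)) := by
  set F : Set (Fn (In n)) := famQ v w ∪ famP v w m with hF
  have hQ : ∀ p q, Fam 0 F {eqv v w p q} := fun p q => Fam.mem (Or.inl ⟨(p, q), rfl⟩)
  have hP : ∀ a x i, i < m → Fam 0 F {pos v w a i x} := fun a x i hi =>
    Fam.mem (Or.inr ⟨a, x, i, hi, rfl⟩)
  have hcard : (univ : Finset (Fin n × Fin n)).card = n * n := by
    rw [card_univ, Fintype.card_prod, Fintype.card_fin]
  have h1 := Fam.rng (F := F) (c := n * n * 8 + 1) (f := cbit v w m) (by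
    rintro ⟨b, a, i, j⟩
    cases b
    · show Fam _ F {xbit v w a i j}
      have h2 := Fam.bigOr (F := F) (c := 4) (univ : Finset (Fin n × Fin n))
        (f := fun p z => (pos v w a i p.1 z && pos v w true j p.2 z) &&
          eqv v w (a, p.1) (true, p.2) z)
        (fun p _ => (((hP a p.1 i i.2).and (hP true p.2 j j.2)).and
          (hQ (a, p.1) (true, p.2))).mono (by omega) le_rfl le_rfl)
      refine Fam.ext (h2.mono ?_ le_rfl le_rfl) ?_
      · rw [hcard]
        omega
      · intro z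
        simp only [xbit, decide_eq_true_eq, mem_univ, true_and]
    · show Fam _ F {abit v w a i j}
      have h2 := Fam.bigOr (F := F) (c := 5) (univ : Finset (Fin n × Fin n))
        (f := fun p z => (pos v w a i p.1 z && pos v w a j p.2 z) && z (a, p.1, p.2))
        (fun p _ => (((hP a p.1 i i.2).and (hP a p.2 j j.2)).and
          (Fam.input F (a, p.1, p.2))).mono (by omega) le_rfl le_rfl)
      refine Fam.ext (h2.mono ?_ le_rfl le_rfl) ?_
      · rw [hcard]
      · intro z
        simp only [abit, decide_eq_true_eq, mem_univ, true_and])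
  refine h1.mono ?_ le_rfl le_rfl
  rw [Fintype.card_prod, Fintype.card_prod, Fintype.card_prod, Fintype.card_bool, Fintype.card_fin]
  have h2 : m * m ≤ n * n := Nat.mul_le_mul hm hm
  calc 2 * (2 * (m * m)) * (n * n * 8 + 1) ≤ 2 * (2 * (n * n)) * (n * n * 8 + 1) := by gcongr
    _ ≤ 20 * (2 * n + 1) ^ 4 := by
      have : (2 * n + 1) ^ 4 = 16 * n ^ 4 + 32 * n ^ 3 + 24 * n ^ 2 + 8 * n + 1 := by ring
      nlinarith [Nat.zero_le (n ^ 3), Nat.zero_le (n ^ 4)]

/-- Condition A. -/
def condA (v w : Fin n) : Fn (In n) := fun z => decide (∀ r : Bool × Fin n,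
  (univ.filter fun x => eqv v w (true, x) r z = true).card =
    (univ.filter fun x => eqv v w (false, x) r z = true).card)

theorem condA_iff {z : In n → Bool} : condA v w z = true ↔ CondA v w z := by
  simp [condA, CondA]

theorem fam_condA : Fam (25 * (2 * n + 1) ^ 3) (famQ v w) {condA v w} := by
  have hQ : ∀ p q, Fam 0 (famQ v w) {eqv v w p q} := fun p q => Fam.mem ⟨(p, q), rfl⟩
  have h1 : ∀ r : Bool × Fin n, Fam (20 * (n + 1) ^ 2) (famQ v w)
      {fun z => decide ((univ.filter fun x => eqv v w (true, x) r z = true).card =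
        (univ.filter fun x => eqv v w (false, x) r z = true).card)} := by
    intro r
    have h2 := Fam.countEq (F := famQ v w) (c := 0) (univ : Finset (Fin n))
      (f := fun x => eqv v w (true, x) r) (g := fun x => eqv v w (false, x) r)
      (fun x _ => hQ _ _) (fun x _ => hQ _ _)
    refine h2.mono (le_of_eq ?_) le_rfl le_rfl
    rw [card_univ, Fintype.card_fin]
    ring
  refine Fam.ext ((Fam.bigAnd (univ : Finset (Bool × Fin n)) (fun r _ => h1 r)).mono ?_
    le_rfl le_rfl) ?_
  · rw [card_V]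
    nlinarith [Nat.zero_le n, Nat.zero_le (n ^ 2), Nat.zero_le (n ^ 3)]
  · intro z
    simp [condA]

/-- There are at most `m` vertices of multiple colours in the first graph. -/
def small (v w : Fin n) (m : ℕ) : Fn (In n) := fun z =>
  decide ((univ.filter fun x => multi v w true x z = true).card ≤ m)

theorem fam_small {m : ℕ} (hm : m ≤ n) : Fam (20 * (2 * n + 1) ^ 2) (famM v w) {small v w m} := by
  have hE : ∀ a x, Fam 0 (famM v w) {multi v w a x} := fun a x => Fam.mem ⟨(a, x), rfl⟩
  have h2 := Fam.count (F := famM v w) (c := 0) (univ : Finset (Fin n))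
    (f := fun x => multi v w true x) (fun x _ => hE _ _) (m + 1)
  have h3 := h2.then (H := {small v w m}) (d := (m + 1) * 3 + 1) (by
    have hj : ∀ j ∈ range (m + 1), Fam 0 {g : Fn (In n) | ∃ j < m + 1, g = fun z =>
        decide ((univ.filter fun x => multi v w true x z = true).card = j)} {fun z =>
        decide ((univ.filter fun x => multi v w true x z = true).card = j)} := fun j hj =>
      Fam.mem (Set.mem_ofPred_eq ▸ ⟨j, mem_range.1 hj, rfl⟩)
    refine Fam.ext ((Fam.bigOr (range (m + 1)) hj).mono ?_ le_rfl le_rfl) ?_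
    · rw [card_range]
    · intro z
      simp only [small, decide_eq_true_eq, mem_range]
      constructor
      · intro h
        exact ⟨_, Nat.lt_succ_of_le h, rfl⟩
      · rintro ⟨j, hj, h⟩
        omega)
  refine h3.mono ?_ le_rfl le_rfl
  rw [card_univ, Fintype.card_fin]
  have h4 : n * (0 + 8 * (m + 1) + 1) ≤ n * (0 + 8 * (n + 1) + 1) := Nat.mul_le_mul_left _ (by omega)
  nlinarith

/-- The bits of two coloured graphs. -/
noncomputable def colcod {m : ℕ} (A : SimpleGraph (Fin m)) (X : Fin m → Fin m → Bool)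
    (B : SimpleGraph (Fin m)) (Y : Fin m → Fin m → Bool) : Jc m → Bool := fun j =>
  if j.1 = true then (if j.2.1 = true then bit A j.2.2.1 j.2.2.2 else bit B j.2.2.1 j.2.2.2)
  else (if j.2.1 = true then X j.2.2.1 j.2.2.2 else Y j.2.2.1 j.2.2.2)

/-- `g` decides isomorphism of coloured graphs. -/
def SolvesCol {m : ℕ} (g : Fn (Jc m)) : Prop := ∀ A X B Y, g (colcod A X B Y) = true ↔ ColIso A X B Y

theorem cbit_eq {m : ℕ} (G H : SimpleGraph (Fin n)) : (fun j => cbit v w m j (cod G H)) =
    colcod (core G H v w m true) (fun i l => xbit v w true i l (cod G H)) (core G H v w m false)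
      (fun i l => xbit v w false i l (cod G H)) := by
  classical
  have hb : ∀ (a : Bool) (i j : Fin m), abit v w a i j (cod G H) = bit (core G H v w m a) i j := by
    intro a i j
    rw [Bool.eq_iff_iff, bit_iff]
    exact Iff.rfl
  funext j
  obtain ⟨b, a, i, l⟩ := j
  cases b
  · cases a
    · rfl
    · rfl
  · cases a
    · show abit v w false i l (cod G H) = bit (core G H v w m false) i l
      exact hb _ _ _
    · show abit v w true i l (cod G H) = bit (core G H v w m true) i l
      exact hb _ _ _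

/-- acceptance with the individualized vertices `v` and `w` -/
def acc (v w : Fin n) {m : ℕ} (g : Fn (Jc m)) : Fn (In n) := fun z =>
  (small v w m z && condA v w z) && g (fun j => cbit v w m j z)

theorem fam_acc {m s : ℕ} (hm : m ≤ n) {g : Fn (Jc m)} (hg : Computes s g) :
    Fam (s + 420 * (2 * n + 1) ^ 7) ∅ {acc v w g} := by
  have h1 := fam_eqv v w
  have h2 := h1.trans ((fam_multi v w).mono le_rfl Set.subset_union_right le_rfl)
  have h3 := h2.trans ((fam_pos v w hm).mono (F' := ∅ ∪ (famQ v w ∪ famM v w)) le_rfl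
    (fun f hf => Or.inr (Or.inr hf)) le_rfl)
  have h4 := h3.trans ((fam_cbit v w hm).mono (F' := ∅ ∪ ((famQ v w ∪ famM v w) ∪ famP v w m)) le_rfl
    (by
      rintro f (hf | hf)
      · exact Or.inr (Or.inl (Or.inl hf))
      · exact Or.inr (Or.inr hf)) le_rfl)
  set F : Set (Fn (In n)) := ((famQ v w ∪ famM v w) ∪ famP v w m) ∪ Set.range (cbit v w m) with hF
  have a1 : Fam (20 * (2 * n + 1) ^ 2) F {small v w m} := (fam_small v w hm).mono le_rfl
    (fun f hf => Or.inl (Or.inl (Or.inr hf))) le_rfl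
  have a2 : Fam (25 * (2 * n + 1) ^ 3) F {condA v w} := (fam_condA v w).mono le_rfl
    (fun f hf => Or.inl (Or.inl (Or.inl hf))) le_rfl
  have a3 : Fam s F {fun z => g fun j => cbit v w m j z} :=
    Fam.of_computes (fun j => Or.inr ⟨j, rfl⟩) hg
  have h5 := h4.then ((a1.and a2).and a3)
  refine h5.mono ?_ le_rfl le_rfl
  have e1 : (2 * n + 1) ^ 2 ≤ (2 * n + 1) ^ 7 := Nat.pow_le_pow_right (by omega) (by norm_num)
  have e2 : (2 * n + 1) ^ 3 ≤ (2 * n + 1) ^ 7 := Nat.pow_le_pow_right (by omega) (by norm_num)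
  have e3 : (2 * n + 1) ^ 4 ≤ (2 * n + 1) ^ 7 := Nat.pow_le_pow_right (by omega) (by norm_num)
  have e4 : 1 ≤ (2 * n + 1) ^ 7 := Nat.one_le_pow _ _ (by omega)
  omega

theorem acc_sound {m : ℕ} {g : Fn (Jc m)} (hg : SolvesCol g) {G H : SimpleGraph (Fin n)}
    (h : acc v w g (cod G H) = true) : Nonempty (G ≃g H) := by
  simp only [acc, Bool.and_eq_true] at h
  obtain ⟨⟨h1, h2⟩, h3⟩ := h
  rw [condA_iff] at h2
  simp only [small, decide_eq_true_eq] at h1
  rw [cbit_eq, hg] at h3
  exact iso_of_cond h2 ((condC_iff h2 h1).2 h3)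

theorem acc_complete {m : ℕ} {g : Fn (Jc m)} (hg : SolvesCol g) {G H : SimpleGraph (Fin n)}
    (hv : ∀ ρ : Fin n → Fin n, EqM G ρ → (∀ x, ρ x = ρ v → x = v) → n ≤ (sing ρ).card + m)
    (φ : G ≃g H) (hφ : φ v = w) : acc v w g (cod G H) = true := by
  obtain ⟨h1, h2⟩ := cond_of_iso φ hφ
  have h3 := card_multi (w := w) (H := H) hv
  simp only [acc, Bool.and_eq_true]
  refine ⟨⟨?_, (condA_iff v w).2 h1⟩, ?_⟩
  · simp only [small, decide_eq_true_eq]
    exact h3
  · rw [cbit_eq, hg]
    exact (condC_iff h1 h3).1 h2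

/-- **The circuit.** -/
theorem exists_circuit {n m s : ℕ} (hm : m ≤ n) {g : Fn (Jc m)} (hg : Computes s g)
    (hsol : SolvesCol g) : ∃ f : Fn (In n), Computes (n ^ 2 * s + 500 * (2 * n + 1) ^ 9) f ∧
      (∀ G H, f (cod G H) = true → Nonempty (G ≃g H)) ∧
      ∀ G H, GoodV m G → Nonempty (G ≃g H) → f (cod G H) = true := by
  classical
  refine ⟨fun z => decide (∃ p : Fin n × Fin n, acc p.1 p.2 g z = true), computes_of_fam ?_, ?_, ?_⟩
  · have h1 := Fam.bigOr (F := (∅ : Set (Fn (In n)))) (univ : Finset (Fin n × Fin n))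
      (f := fun p => acc p.1 p.2 g) (fun p _ => fam_acc p.1 p.2 hm hg)
    refine Fam.ext (h1.mono ?_ le_rfl le_rfl) ?_
    · rw [card_univ, Fintype.card_prod, Fintype.card_fin]
      have e1 : n * n ≤ (2 * n + 1) ^ 2 := by nlinarith
      have e2 : n * n * (420 * (2 * n + 1) ^ 7 + 3) ≤ (2 * n + 1) ^ 2 * (420 * (2 * n + 1) ^ 7 + 3) :=
        Nat.mul_le_mul_right _ e1
      have e3 : (2 * n + 1) ^ 2 * (420 * (2 * n + 1) ^ 7 + 3) =
          420 * (2 * n + 1) ^ 9 + 3 * (2 * n + 1) ^ 2 := by ring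
      have e4 : (2 * n + 1) ^ 2 ≤ (2 * n + 1) ^ 9 := Nat.pow_le_pow_right (by omega) (by norm_num)
      have e5 : 1 ≤ (2 * n + 1) ^ 9 := Nat.one_le_pow _ _ (by omega)
      have e6 : n * n * (s + 420 * (2 * n + 1) ^ 7 + 3) + 1 =
          n ^ 2 * s + n * n * (420 * (2 * n + 1) ^ 7 + 3) + 1 := by ring
      rw [e6]
      omega
    · intro z
      simp
  · intro G H h
    simp only [decide_eq_true_eq] at h
    obtain ⟨p, hp⟩ := h
    exact acc_sound p.1 p.2 hsol hp
  · rintro G H ⟨v, hv⟩ ⟨φ⟩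
    simp only [decide_eq_true_eq]
    exact ⟨(v, φ v), acc_complete v (φ v) hsol hv φ rfl⟩

end Pool.Agent.N579.WA
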