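import Mathlib

/-!
# Boolean circuits: a calculus for their size
-/

set_option autoImplicit false

namespace Pool.Agent.N579.WA

open Finset

/-- Boolean functions of the inputs `x i`, `i : I`. -/
abbrev Fn (I : Type) : Type := (I → Bool) → Bool

/-- `f` is computed by a Boolean circuit with at most `s` gates: there are Boolean functions
`g 0, g 1, ..., g (s - 1)` (the functions computed at the gates), each of which is a constant, an
input bit or the NAND of two earlier ones, and one of which is `f`. -/
def Computes {I : Type} (s : ℕ) (f : Fn I) : Prop :=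
  ∃ g : ℕ → Fn I, (∀ j < s, (∃ b : Bool, g j = fun _ => b) ∨ (∃ i : I, g j = fun x => x i) ∨
    ∃ a b : ℕ, a < j ∧ b < j ∧ g j = fun x => !(g a x && g b x)) ∧ ∃ j < s, g j = f

variable {I J : Type}

/-- Valid lists of functions, the last gate first. -/
inductive Chain : List (Fn I) → Prop
  | nil : Chain []
  | const (b : Bool) {L : List (Fn I)} : Chain L → Chain ((fun _ => b) :: L)
  | input (i : I) {L : List (Fn I)} : Chain L → Chain ((fun x => x i) :: L)
  | nand {f g : Fn I} {L : List (Fn I)} : Chain L → f ∈ L → g ∈ L →
      Chain ((fun x => !(f x && g x)) :: L)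

theorem Chain.elim {L : List (Fn I)} (h : Chain L) {f : Fn I} (hf : f ∈ L) :
    (∃ b : Bool, f = fun _ => b) ∨ (∃ i : I, f = fun x => x i) ∨
      ∃ g ∈ L, ∃ g' ∈ L, f = fun x => !(g x && g' x) := by
  induction h with
  | nil => exact absurd hf List.not_mem_nil
  | const b h ih =>
    rcases List.mem_cons.1 hf with rfl | hf
    · exact Or.inl ⟨b, rfl⟩
    · rcases ih hf with h1 | h1 | ⟨g, hg, g', hg', rfl⟩
      · exact Or.inl h1
      · exact Or.inr (Or.inl h1)
      · exact Or.inr (Or.inr ⟨g, List.mem_cons_of_mem _ hg, g', List.mem_cons_of_mem _ hg', rfl⟩)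
  | input i h ih =>
    rcases List.mem_cons.1 hf with rfl | hf
    · exact Or.inr (Or.inl ⟨i, rfl⟩)
    · rcases ih hf with h1 | h1 | ⟨g, hg, g', hg', rfl⟩
      · exact Or.inl h1
      · exact Or.inr (Or.inl h1)
      · exact Or.inr (Or.inr ⟨g, List.mem_cons_of_mem _ hg, g', List.mem_cons_of_mem _ hg', rfl⟩)
  | nand h hg hg' ih =>
    rcases List.mem_cons.1 hf with rfl | hf
    · exact Or.inr (Or.inr ⟨_, List.mem_cons_of_mem _ hg, _, List.mem_cons_of_mem _ hg', rfl⟩)
    · rcases ih hf with h1 | h1 | ⟨g, hg, g', hg', rfl⟩
      · exact Or.inl h1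
      · exact Or.inr (Or.inl h1)
      · exact Or.inr (Or.inr ⟨g, List.mem_cons_of_mem _ hg, g', List.mem_cons_of_mem _ hg', rfl⟩)

/-- A gate can be repeated. -/
theorem Chain.dup {L : List (Fn I)} (h : Chain L) {f : Fn I} (hf : f ∈ L) : Chain (f :: L) := by
  rcases h.elim hf with ⟨b, rfl⟩ | ⟨i, rfl⟩ | ⟨g, hg, g', hg', rfl⟩
  · exact Chain.const b h
  · exact Chain.input i h
  · exact Chain.nand h hg hg'

/-- The family `G` can be added to any circuit which contains `F`, at the cost of `c` gates. -/
def Fam (c : ℕ) (F G : Set (Fn I)) : Prop :=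
  ∀ L : List (Fn I), Chain L → (∀ f ∈ F, f ∈ L) →
    ∃ L' : List (Fn I), Chain (L' ++ L) ∧ (∀ g ∈ G, g ∈ L' ++ L) ∧ L'.length ≤ c

theorem Fam.mono {c c' : ℕ} {F G F' G' : Set (Fn I)} (h : Fam c F G) (hc : c ≤ c') (hF : F ⊆ F')
    (hG : G' ⊆ G) : Fam c' F' G' := fun L hL hF' => by
  obtain ⟨L', h1, h2, h3⟩ := h L hL fun f hf => hF' f (hF hf)
  exact ⟨L', h1, fun g hg => h2 g (hG hg), h3.trans hc⟩

theorem Fam.self (F : Set (Fn I)) : Fam 0 F F := fun _ hL hF => ⟨[], hL, hF, le_rfl⟩

/-- First compute `G` from `F`, then `H` from `F` and `G`. -/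
theorem Fam.trans {c d : ℕ} {F G H : Set (Fn I)} (h : Fam c F G) (h' : Fam d (F ∪ G) H) :
    Fam (c + d) F (G ∪ H) := fun L hL hF => by
  obtain ⟨L1, h1, h2, h3⟩ := h L hL hF
  obtain ⟨L2, h4, h5, h6⟩ := h' (L1 ++ L) h1 (by
    rintro f (hf | hf)
    · exact List.mem_append_right _ (hF f hf)
    · exact h2 f hf)
  refine ⟨L2 ++ L1, by rwa [List.append_assoc], ?_, by rw [List.length_append]; omega⟩
  rintro g (hg | hg)
  · rw [List.append_assoc]
    exact List.mem_append_right _ (h2 g hg)
  · rw [List.append_assoc]
    exact h5 g hg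

theorem Fam.union {c d : ℕ} {F G H : Set (Fn I)} (h : Fam c F G) (h' : Fam d F H) :
    Fam (c + d) F (G ∪ H) :=
  h.trans (h'.mono le_rfl Set.subset_union_left le_rfl)

theorem Fam.then {c d : ℕ} {F G H : Set (Fn I)} (h : Fam c F G) (h' : Fam d G H) :
    Fam (c + d) F H :=
  (h.trans (h'.mono le_rfl Set.subset_union_right le_rfl)).mono le_rfl le_rfl Set.subset_union_right

/-- Families indexed by a finite set. -/
theorem Fam.iUnion {α : Type} (S : Finset α) {c : ℕ} {F : Set (Fn I)} {G : α → Set (Fn I)}
    (h : ∀ a ∈ S, Fam c F (G a)) : Fam (S.card * c) F {g | ∃ a ∈ S, g ∈ G a} := by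
  classical
  induction S using Finset.induction_on with
  | empty => exact (Fam.self F).mono (Nat.zero_le _) le_rfl (by rintro g ⟨a, ha, _⟩; exact absurd ha (Finset.notMem_empty a)) |>.mono le_rfl le_rfl le_rfl
  | insert a S ha ih =>
    have h1 := (ih fun b hb => h b (mem_insert_of_mem hb)).union (h a (mem_insert_self a S))
    rw [card_insert_of_notMem ha, add_mul, one_mul]
    refine h1.mono le_rfl le_rfl ?_
    rintro g ⟨b, hb, hg⟩
    rcases mem_insert.1 hb with rfl | hb
    · exact Or.inr hg
    · exact Or.inl ⟨b, hb, hg⟩

theorem Fam.rng {α : Type} [Fintype α] {c : ℕ} {F : Set (Fn I)} {f : α → Fn I}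
    (h : ∀ a, Fam c F {f a}) : Fam (Fintype.card α * c) F (Set.range f) := by
  refine (Fam.iUnion univ (G := fun a => {f a}) fun a _ => h a).mono le_rfl le_rfl ?_
  rintro _ ⟨a, rfl⟩
  exact ⟨a, mem_univ _, rfl⟩

/-! ## Single functions -/

theorem Fam.mem {F : Set (Fn I)} {f : Fn I} (hf : f ∈ F) : Fam 0 F {f} :=
  (Fam.self F).mono le_rfl le_rfl (by simpa using hf)

theorem Fam.ext {c : ℕ} {F : Set (Fn I)} {f g : Fn I} (hf : Fam c F {f})
    (h : ∀ x, g x = true ↔ f x = true) : Fam c F {g} := by
  have h1 : g = f := by
    funext x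
    rw [Bool.eq_iff_iff]
    exact h x
  rw [h1]
  exact hf

theorem Fam.const (F : Set (Fn I)) (b : Bool) : Fam 1 F {fun _ => b} := fun L hL _ =>
  ⟨[fun _ => b], Chain.const b hL, by simp, by simp⟩

theorem Fam.input (F : Set (Fn I)) (i : I) : Fam 1 F {fun x => x i} := fun L hL _ =>
  ⟨[fun x => x i], Chain.input i hL, by simp, by simp⟩

theorem Fam.nand {c d : ℕ} {F : Set (Fn I)} {f g : Fn I} (hf : Fam c F {f}) (hg : Fam d F {g}) :
    Fam (c + d + 1) F {fun x => !(f x && g x)} := by
  refine Fam.then (hf.union hg) fun L hL hF => ⟨[fun x => !(f x && g x)], ?_, by simp, by simp⟩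
  exact Chain.nand hL (hF f (Or.inl rfl)) (hF g (Or.inr rfl))

theorem Fam.not {c : ℕ} {F : Set (Fn I)} {f : Fn I} (hf : Fam c F {f}) :
    Fam (c + 1) F {fun x => !(f x)} := by
  refine Fam.then hf fun L hL hF => ⟨[fun x => !(f x && f x)], ?_, ?_, by simp⟩
  · exact Chain.nand hL (hF f rfl) (hF f rfl)
  · intro g hg
    rw [Set.mem_singleton_iff] at hg
    subst hg
    simp

theorem Fam.and {c d : ℕ} {F : Set (Fn I)} {f g : Fn I} (hf : Fam c F {f}) (hg : Fam d F {g}) :
    Fam (c + d + 2) F {fun x => f x && g x} := by
  have h := (hf.nand hg).not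
  simpa using h

theorem Fam.or {c d : ℕ} {F : Set (Fn I)} {f g : Fn I} (hf : Fam c F {f}) (hg : Fam d F {g}) :
    Fam (c + d + 3) F {fun x => f x || g x} := by
  have h := hf.not.nand hg.not
  have h1 : (fun x : I → Bool => !(!(f x) && !(g x))) = fun x => f x || g x := by
    funext x
    cases f x <;> cases g x <;> rfl
  rw [h1] at h
  exact h.mono (by omega) le_rfl le_rfl

/-- Equality of two bits. -/
theorem Fam.beq {c d : ℕ} {F : Set (Fn I)} {f g : Fn I} (hf : Fam c F {f}) (hg : Fam d F {g}) :
    Fam (2 * (c + d) + 8) F {fun x => f x == g x} := by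
  have h := (hf.and hg).or ((hf.not.and hg.not))
  have h1 : (fun x : I → Bool => (f x && g x) || (!(f x) && !(g x))) = fun x => f x == g x := by
    funext x
    cases f x <;> cases g x <;> rfl
  have h2 : Fam (2 * (c + d) + 9) F {fun x => f x == g x} := by
    rw [h1] at h
    exact h.mono (by omega) le_rfl le_rfl
  have h3 : Fam ((c + d) + 8) F {fun x => f x == g x} := by
    refine (Fam.then (hf.union hg) (d := 8) ?_).mono le_rfl le_rfl le_rfl
    have a1 : Fam 0 ({f} ∪ {g} : Set (Fn I)) {f} := Fam.mem (Or.inl rfl)
    have a2 : Fam 0 ({f} ∪ {g} : Set (Fn I)) {g} := Fam.mem (Or.inr rfl)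
    have h4 := ((a1.nand a2)).nand ((a1.not.nand a2.not))
    have h5 : (fun x : I → Bool => !((!(f x && g x)) && !(!(f x) && !(g x)))) =
        fun x => f x == g x := by
      funext x
      cases f x <;> cases g x <;> rfl
    rw [h5] at h4
    exact h4.mono (by omega) le_rfl le_rfl
  exact h3.mono (by omega) le_rfl le_rfl

/-- Disjunction over a finite set. -/
theorem Fam.bigOr {α : Type} (S : Finset α) {c : ℕ} {F : Set (Fn I)} {f : α → Fn I}
    (h : ∀ a ∈ S, Fam c F {f a}) :
    Fam (S.card * (c + 3) + 1) F {fun x => decide (∃ a ∈ S, f a x = true)} := by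
  classical
  induction S using Finset.induction_on with
  | empty =>
    have h1 : (fun x : I → Bool => decide (∃ a ∈ (∅ : Finset α), f a x = true)) =
        fun _ => false := by
      funext x
      simp
    rw [h1]
    exact (Fam.const F false).mono (by simp) le_rfl le_rfl
  | insert a S ha ih =>
    have h1 := (h a (mem_insert_self a S)).or (ih fun b hb => h b (mem_insert_of_mem hb))
    have h2 : (fun x : I → Bool => f a x || decide (∃ b ∈ S, f b x = true)) =
        fun x => decide (∃ b ∈ insert a S, f b x = true) := by
      funext x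
      rw [Bool.eq_iff_iff]
      simp [Finset.mem_insert, or_and_right, exists_or]
    rw [h2] at h1
    refine h1.mono ?_ le_rfl le_rfl
    rw [card_insert_of_notMem ha]
    ring_nf
    omega

/-- Conjunction over a finite set. -/
theorem Fam.bigAnd {α : Type} (S : Finset α) {c : ℕ} {F : Set (Fn I)} {f : α → Fn I}
    (h : ∀ a ∈ S, Fam c F {f a}) :
    Fam (S.card * (c + 2) + 1) F {fun x => decide (∀ a ∈ S, f a x = true)} := by
  classical
  induction S using Finset.induction_on with
  | empty =>
    have h1 : (fun x : I → Bool => decide (∀ a ∈ (∅ : Finset α), f a x = true)) =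
        fun _ => true := by
      funext x
      simp
    rw [h1]
    exact (Fam.const F true).mono (by simp) le_rfl le_rfl
  | insert a S ha ih =>
    have h1 := (h a (mem_insert_self a S)).and (ih fun b hb => h b (mem_insert_of_mem hb))
    have h2 : (fun x : I → Bool => f a x && decide (∀ b ∈ S, f b x = true)) =
        fun x => decide (∀ b ∈ insert a S, f b x = true) := by
      funext x
      rw [Bool.eq_iff_iff]
      simp [Finset.mem_insert]
    rw [h2] at h1
    refine h1.mono ?_ le_rfl le_rfl
    rw [card_insert_of_notMem ha]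
    ring_nf
    omega

/-- Counting: the bits which say that exactly `j` of the given bits are true. -/
theorem Fam.count {α : Type} (S : Finset α) {c : ℕ} {F : Set (Fn I)} {f : α → Fn I}
    (h : ∀ a ∈ S, Fam c F {f a}) (m : ℕ) :
    Fam (S.card * (c + 8 * m + 1) + m) F
      {g | ∃ j < m, g = fun x => decide ((S.filter fun a => f a x = true).card = j)} := by
  classical
  induction S using Finset.induction_on with
  | empty =>
    have h1 := Fam.iUnion (range m) (c := 1) (F := F)
      (G := fun j => {fun x : I → Bool => decide (((∅ : Finset α).filter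
        fun a => f a x = true).card = j)}) (by
        intro j _
        have h2 : (fun x : I → Bool => decide (((∅ : Finset α).filter
            fun a => f a x = true).card = j)) = fun _ => decide (0 = j) := by
          funext x
          simp
        show Fam 1 F {fun x : I → Bool => decide (((∅ : Finset α).filter
            fun a => f a x = true).card = j)}
        rw [h2]
        exact Fam.const F _)
    refine h1.mono (by simp) le_rfl ?_
    rintro g ⟨j, hj, rfl⟩
    exact ⟨j, mem_range.2 hj, rfl⟩
  | insert a S ha ih =>
    have h1 := (h a (mem_insert_self a S)).union (ih fun b hb => h b (mem_insert_of_mem hb))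
    have h2 : Fam ((range m).card * 8)
        ({f a} ∪ {g | ∃ j < m, g = fun x => decide ((S.filter fun a => f a x = true).card = j)})
        {g | ∃ j ∈ range m, g ∈ ({fun x => decide (((insert a S).filter
          fun a => f a x = true).card = j)} : Set (Fn I))} := by
      refine Fam.iUnion (range m) fun j hj => ?_
      rw [mem_range] at hj
      set F' : Set (Fn I) := {f a} ∪ {g | ∃ j < m, g = fun x => decide ((S.filter
        fun a => f a x = true).card = j)} with hF'
      have a1 : Fam 0 F' {f a} := Fam.mem (Or.inl rfl)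
      have a2 : Fam 0 F' {fun x => decide ((S.filter fun a => f a x = true).card = j)} :=
        Fam.mem (Or.inr ⟨j, hj, rfl⟩)
      rcases Nat.eq_zero_or_pos j with hj0 | hj0
      · subst hj0
        have h3 := a1.not.and a2
        have h4 : (fun x : I → Bool => !(f a x) && decide ((S.filter
            fun a => f a x = true).card = 0)) = fun x => decide (((insert a S).filter
              fun a => f a x = true).card = 0) := by
          funext x
          rw [Finset.filter_insert]
          cases hx : f a x
          · simp
          · simp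
        rw [h4] at h3
        exact h3.mono (by omega) le_rfl le_rfl
      · have a3 : Fam 0 F' {fun x => decide ((S.filter fun a => f a x = true).card = j - 1)} :=
          Fam.mem (Or.inr ⟨j - 1, by omega, rfl⟩)
        have h3 := (a1.not.and a2).or (a1.and a3)
        have h4 : (fun x : I → Bool => (!(f a x) && decide ((S.filter
            fun a => f a x = true).card = j)) || (f a x && decide ((S.filter
            fun a => f a x = true).card = j - 1))) = fun x => decide (((insert a S).filter
              fun a => f a x = true).card = j) := by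
          funext x
          rw [Finset.filter_insert]
          cases hx : f a x
          · simp
          · have h5 : a ∉ S.filter fun a => f a x = true := fun h => ha (mem_filter.1 h).1
            simp only [Bool.not_true, Bool.false_and, Bool.true_and, Bool.false_or, if_true]
            rw [card_insert_of_notMem h5]
            congr 1
            rw [eq_iff_iff]
            omega
        rw [h4] at h3
        exact h3.mono (by omega) le_rfl le_rfl
    have h5 := h1.then h2
    refine h5.mono ?_ le_rfl ?_
    · rw [card_insert_of_notMem ha, card_range]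
      ring_nf
      omega
    · rintro g ⟨j, hj, rfl⟩
      exact ⟨j, mem_range.2 hj, rfl⟩

/-- Comparison of the numbers of true bits in two families. -/
theorem Fam.countEq {α : Type} (S : Finset α) {c : ℕ} {F : Set (Fn I)} {f g : α → Fn I}
    (hf : ∀ a ∈ S, Fam c F {f a}) (hg : ∀ a ∈ S, Fam c F {g a}) :
    Fam (20 * (S.card + 1) ^ 2 * (c + 1)) F {fun x => decide ((S.filter fun a => f a x = true).card =
      (S.filter fun a => g a x = true).card)} := by
  classical
  have h1 := (Fam.count S hf (S.card + 1)).union (Fam.count S hg (S.card + 1))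
  set F' : Set (Fn I) := {h | ∃ j < S.card + 1, h = fun x => decide ((S.filter
    fun a => f a x = true).card = j)} ∪ {h | ∃ j < S.card + 1, h = fun x => decide ((S.filter
    fun a => g a x = true).card = j)} with hF'
  have h2 : Fam ((range (S.card + 1)).card * (2 + 3) + 1) F'
      {fun x => decide ((S.filter fun a => f a x = true).card =
        (S.filter fun a => g a x = true).card)} := by
    refine Fam.ext (Fam.bigOr (range (S.card + 1)) (c := 2) (f := fun j => fun x : I → Bool =>
        decide ((S.filter fun a => f a x = true).card = j) &&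
        decide ((S.filter fun a => g a x = true).card = j)) fun j hj => ?_) ?_
    · rw [mem_range] at hj
      have a1 : Fam 0 F' {fun x => decide ((S.filter fun a => f a x = true).card = j)} :=
        Fam.mem (Or.inl ⟨j, hj, rfl⟩)
      have a2 : Fam 0 F' {fun x => decide ((S.filter fun a => g a x = true).card = j)} :=
        Fam.mem (Or.inr ⟨j, hj, rfl⟩)
      exact (a1.and a2).mono (by omega) le_rfl le_rfl
    · intro x
      simp only [decide_eq_true_eq, Bool.and_eq_true, mem_range]
      constructor
      · intro h
        exact ⟨_, Nat.lt_succ_of_le (card_filter_le _ _), rfl, h.symm⟩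
      · rintro ⟨j, _, h1, h2⟩
        rw [h1, h2]
  refine (h1.then h2).mono ?_ le_rfl le_rfl
  rw [card_range]
  nlinarith [Nat.zero_le c, Nat.zero_le S.card, Nat.zero_le (c * S.card), Nat.zero_le (c * S.card ^ 2)]

/-! ## Composition -/

/-- Substitution of functions for the inputs of a circuit. -/
theorem Fam.subst {c : ℕ} {F : Set (Fn I)} {h : J → Fn I} (hF : ∀ j, h j ∈ F) {L : List (Fn J)}
    (hL : Chain L) (hc : L.length ≤ c) :
    Fam c F {g | ∃ f ∈ L, g = fun x => f fun j => h j x} := by
  intro L0 hL0 hF0
  have key : ∀ {L : List (Fn J)}, Chain L →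
      Chain (L.map (fun f => fun x => f fun j => h j x) ++ L0) := by
    intro L hL
    induction hL with
    | nil => exact hL0
    | const b _ ih => exact Chain.const b ih
    | input i _ ih => exact Chain.dup ih (List.mem_append_right _ (hF0 _ (hF i)))
    | nand _ h1 h2 ih =>
      exact Chain.nand ih (List.mem_append_left _ (List.mem_map_of_mem h1))
        (List.mem_append_left _ (List.mem_map_of_mem h2))
  refine ⟨L.map (fun f => fun x => f fun j => h j x), key hL, ?_, by simpa using hc⟩
  rintro g ⟨f, hf, rfl⟩
  exact List.mem_append_left _ (List.mem_map_of_mem hf)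

theorem computes_iff {s : ℕ} {f : Fn I} :
    Computes s f ↔ ∃ L : List (Fn I), Chain L ∧ L.length ≤ s ∧ f ∈ L := by
  constructor
  · rintro ⟨g, hg, j, hj, rfl⟩
    have key : ∀ t, t ≤ s → ∃ L : List (Fn I), Chain L ∧ L.length = t ∧ ∀ i < t, g i ∈ L := by
      intro t
      induction t with
      | zero => exact fun _ => ⟨[], Chain.nil, rfl, by omega⟩
      | succ t ih =>
        intro ht
        obtain ⟨L, h1, h2, h3⟩ := ih (by omega)
        refine ⟨g t :: L, ?_, by simp [h2], ?_⟩
        · rcases hg t (by omega) with ⟨b, hb⟩ | ⟨i, hi⟩ | ⟨a, b, ha, hb, hab⟩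
          · rw [hb]
            exact Chain.const b h1
          · rw [hi]
            exact Chain.input i h1
          · rw [hab]
            exact Chain.nand h1 (h3 a ha) (h3 b hb)
        · intro i hi
          rcases Nat.lt_succ_iff_lt_or_eq.1 hi with h | rfl
          · exact List.mem_cons_of_mem _ (h3 i h)
          · exact List.mem_cons_self
    obtain ⟨L, h1, h2, h3⟩ := key s le_rfl
    exact ⟨L, h1, h2.le, h3 j hj⟩
  · rintro ⟨L, hL, hs, hf⟩
    have key : ∀ {L : List (Fn I)}, Chain L → ∃ g : ℕ → Fn I, (∀ j < L.length,
        (∃ b : Bool, g j = fun _ => b) ∨ (∃ i : I, g j = fun x => x i) ∨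
        ∃ a b : ℕ, a < j ∧ b < j ∧ g j = fun x => !(g a x && g b x)) ∧
        ∀ f ∈ L, ∃ j < L.length, g j = f := by
      intro L hL
      induction hL with
      | nil => exact ⟨fun _ _ => false, by simp, by simp⟩
      | @const b L _ ih =>
        obtain ⟨g, h1, h2⟩ := ih
        refine ⟨Function.update g L.length fun _ => b, ?_, ?_⟩
        · intro j hj
          rw [List.length_cons] at hj
          rcases Nat.lt_succ_iff_lt_or_eq.1 hj with h | rfl
          · rw [Function.update_of_ne h.ne]
            rcases h1 j h with h3 | h3 | ⟨a, b', ha, hb, hab⟩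
            · exact Or.inl h3
            · exact Or.inr (Or.inl h3)
            · refine Or.inr (Or.inr ⟨a, b', ha, hb, ?_⟩)
              rw [Function.update_of_ne (by omega), Function.update_of_ne (by omega), hab]
          · exact Or.inl ⟨b, by rw [Function.update_self]⟩
        · intro f hf
          rcases List.mem_cons.1 hf with rfl | hf
          · exact ⟨L.length, by simp, by rw [Function.update_self]⟩
          · obtain ⟨j, hj, hjf⟩ := h2 f hf
            exact ⟨j, by simp; omega, by rw [Function.update_of_ne hj.ne, hjf]⟩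
      | @input i L _ ih =>
        obtain ⟨g, h1, h2⟩ := ih
        refine ⟨Function.update g L.length fun x => x i, ?_, ?_⟩
        · intro j hj
          rw [List.length_cons] at hj
          rcases Nat.lt_succ_iff_lt_or_eq.1 hj with h | rfl
          · rw [Function.update_of_ne h.ne]
            rcases h1 j h with h3 | h3 | ⟨a, b', ha, hb, hab⟩
            · exact Or.inl h3
            · exact Or.inr (Or.inl h3)
            · refine Or.inr (Or.inr ⟨a, b', ha, hb, ?_⟩)
              rw [Function.update_of_ne (by omega), Function.update_of_ne (by omega), hab]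
          · exact Or.inr (Or.inl ⟨i, by rw [Function.update_self]⟩)
        · intro f hf
          rcases List.mem_cons.1 hf with rfl | hf
          · exact ⟨L.length, by simp, by rw [Function.update_self]⟩
          · obtain ⟨j, hj, hjf⟩ := h2 f hf
            exact ⟨j, by simp; omega, by rw [Function.update_of_ne hj.ne, hjf]⟩
      | @nand f1 f2 L _ hf1 hf2 ih =>
        obtain ⟨g, h1, h2⟩ := ih
        refine ⟨Function.update g L.length fun x => !(f1 x && f2 x), ?_, ?_⟩
        · intro j hj
          rw [List.length_cons] at hj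
          rcases Nat.lt_succ_iff_lt_or_eq.1 hj with h | rfl
          · rw [Function.update_of_ne h.ne]
            rcases h1 j h with h3 | h3 | ⟨a, b', ha, hb, hab⟩
            · exact Or.inl h3
            · exact Or.inr (Or.inl h3)
            · refine Or.inr (Or.inr ⟨a, b', ha, hb, ?_⟩)
              rw [Function.update_of_ne (by omega), Function.update_of_ne (by omega), hab]
          · obtain ⟨j1, hj1, hjf1⟩ := h2 f1 hf1
            obtain ⟨j2, hj2, hjf2⟩ := h2 f2 hf2
            refine Or.inr (Or.inr ⟨j1, j2, hj1, hj2, ?_⟩)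
            rw [Function.update_self, Function.update_of_ne hj1.ne, Function.update_of_ne hj2.ne,
              hjf1, hjf2]
        · intro f hf
          rcases List.mem_cons.1 hf with rfl | hf
          · exact ⟨L.length, by simp, by rw [Function.update_self]⟩
          · obtain ⟨j, hj, hjf⟩ := h2 f hf
            exact ⟨j, by simp; omega, by rw [Function.update_of_ne hj.ne, hjf]⟩
    obtain ⟨g, h1, h2⟩ := key hL
    obtain ⟨j, hj, hjf⟩ := h2 f hf
    -- the sequence is extended by constants
    refine ⟨fun i => if i < L.length then g i else fun _ => false, ?_, j, by omega, by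
      simp only [hj, if_true, hjf]⟩
    intro i hi
    by_cases h : i < L.length
    · simp only [h, if_true]
      rcases h1 i h with h3 | h3 | ⟨a, b', ha, hb, hab⟩
      · exact Or.inl h3
      · exact Or.inr (Or.inl h3)
      · refine Or.inr (Or.inr ⟨a, b', ha, hb, ?_⟩)
        rw [if_pos (by omega), if_pos (by omega), hab]
    · exact Or.inl ⟨false, by simp only [h, if_false]⟩

/-- A family computed from nothing. -/
theorem computes_of_fam {s : ℕ} {f : Fn I} (h : Fam s ∅ {f}) : Computes s f := by
  obtain ⟨L, h1, h2, h3⟩ := h [] Chain.nil (by simp)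
  rw [List.append_nil] at h1 h2
  exact computes_iff.2 ⟨L, h1, h3, h2 f rfl⟩

theorem Fam.of_computes {s : ℕ} {F : Set (Fn I)} {h : J → Fn I} (hF : ∀ j, h j ∈ F) {f : Fn J}
    (hf : Computes s f) : Fam s F {fun x => f fun j => h j x} := by
  obtain ⟨L, h1, h2, h3⟩ := computes_iff.1 hf
  refine (Fam.subst hF h1 h2).mono le_rfl le_rfl ?_
  rintro g hg
  rw [Set.mem_singleton_iff] at hg
  exact ⟨f, h3, hg⟩

theorem Computes.mono {s t : ℕ} {f : Fn I} (h : Computes s f) (hst : s ≤ t) : Computes t f := by
  obtain ⟨L, h1, h2, h3⟩ := computes_iff.1 h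
  exact computes_iff.2 ⟨L, h1, h2.trans hst, h3⟩

/-- Substitution of constants and inputs for the inputs does not change the number of gates. -/
theorem Computes.proj {s : ℕ} {f : Fn J} (hf : Computes s f) (p : J → Bool ⊕ I) :
    Computes s (fun x : I → Bool => f fun j => Sum.elim id x (p j)) := by
  obtain ⟨L, h1, h2, h3⟩ := computes_iff.1 hf
  have key : ∀ {L : List (Fn J)}, Chain L →
      Chain (L.map (fun f => fun x : I → Bool => f fun j => Sum.elim id x (p j))) := by
    intro L hL
    induction hL with
    | nil => exact Chain.nil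
    | const b _ ih => exact Chain.const b ih
    | input i _ ih =>
      rw [List.map_cons]
      cases hp : p i with
      | inl b => simpa only [hp, Sum.elim_inl, id] using Chain.const b ih
      | inr i' => simpa only [hp, Sum.elim_inr] using Chain.input i' ih
    | nand _ h1 h2 ih =>
      exact Chain.nand ih (List.mem_map_of_mem h1) (List.mem_map_of_mem h2)
  exact computes_iff.2 ⟨_, key h1, by simpa using h2, List.mem_map_of_mem h3⟩

/-- Every Boolean function of finitely many inputs has a circuit. -/
theorem exists_computes [Finite I] (f : Fn I) : ∃ s, Computes s f := by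
  classical
  have := Fintype.ofFinite I
  have h1 : ∀ y : I → Bool, Fam ((univ : Finset I).card * 15 + 1) (∅ : Set (Fn I))
      {fun x => decide (x = y)} := by
    intro y
    refine Fam.ext (Fam.bigAnd univ (c := 13) (f := fun i => fun x : I → Bool => x i == y i)
      fun i _ => ((Fam.input ∅ i).beq (Fam.const ∅ (y i))).mono (by omega) le_rfl le_rfl) ?_
    intro x
    simp [funext_iff]
  refine ⟨_, computes_of_fam (Fam.ext (Fam.bigOr (univ.filter fun y : I → Bool => f y = true)
    (f := fun y => fun x : I → Bool => decide (x = y)) (fun y _ => h1 y)) ?_)⟩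
  intro x
  simp

end Pool.Agent.N579.WA
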