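import Pool.Agent.N579.WA.Ctx

/-!
# Most contexts are rigid
-/

set_option autoImplicit false

namespace Pool.Agent.N579.WA

open Finset Pool.Agent.N579.WL

variable {m N : ℕ}

theorem pow_thousand {q : ℕ} (hq : 14 ≤ q) : 1000 * (q + 1) ≤ 2 ^ q := by
  induction q, hq using Nat.le_induction with
  | base => norm_num
  | succ q hq ih =>
    rw [pow_succ]
    omega

theorem lt_pow_thousand (hN : 2 ^ 14 ≤ N) : N ≤ 2 ^ (N / 1000) := by
  have h1 : 14 ≤ N / 1000 := by omega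
  have h2 := pow_thousand h1
  omega

/-- pairs of equal rows -/
theorem rows_bad (hN : 2 ^ 14 ≤ N) {r r' : Fin N} (hr : r ≠ r') :
    {Q : SimpleGraph (Fin N) | ¬ N / 20 < Nat.card {z : Fin N // ¬ (Q.Adj r z ↔ Q.Adj r' z)}}.ncard *
      2 ^ (N / 2) ≤ 2 ^ N.choose 2 := by
  classical
  set W : Finset (Fin N) := (univ.erase r).erase r' with hW
  have hWc : W.card = N - 2 := by
    rw [hW, card_erase_of_mem (mem_erase.2 ⟨hr.symm, mem_univ _⟩), card_erase_of_mem (mem_univ _),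
      card_univ, Fintype.card_fin]
    omega
  have h1 := row_count r W (by simp [hW]) (fun Q z => Q.Adj r' z) (by
    intro Q Q' hag z
    by_cases hz : z = r
    · subst hz
      have h2 : s(r', z) ∉ W.image fun y => s(z, y) := by
        rw [mem_image]
        rintro ⟨y, hy, hyz⟩
        rw [Sym2.eq_iff] at hyz
        rcases hyz with ⟨h, _⟩ | ⟨_, h⟩
        · exact hr h
        · subst h
          simp [hW] at hy
      exact hag _ h2
    · have h2 : s(r', z) ∉ W.image fun y => s(r, y) := by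
        rw [mem_image]
        rintro ⟨y, hy, hyz⟩
        rw [Sym2.eq_iff] at hyz
        rcases hyz with ⟨h, _⟩ | ⟨h, _⟩
        · exact hr h
        · exact hz h.symm
      exact hag _ h2) (N / 20)
  have h2 : {Q : SimpleGraph (Fin N) | ¬ N / 20 <
      Nat.card {z : Fin N // ¬ (Q.Adj r z ↔ Q.Adj r' z)}}.ncard ≤
      {Q : SimpleGraph (Fin N) | Nat.card {z : Fin N // z ∈ W ∧ ¬ (Q.Adj r z ↔ Q.Adj r' z)} ≤
        N / 20}.ncard := by
    refine Set.ncard_le_ncard (fun Q hQ => ?_) (Set.toFinite _)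
    have h3 : ¬ N / 20 < Nat.card {z : Fin N // ¬ (Q.Adj r z ↔ Q.Adj r' z)} := hQ
    show Nat.card {z : Fin N // z ∈ W ∧ ¬ (Q.Adj r z ↔ Q.Adj r' z)} ≤ N / 20
    refine le_trans ?_ (not_lt.1 h3)
    exact Nat.card_le_card_of_injective (fun z => (⟨z.1, z.2.2⟩ :
      {z : Fin N // ¬ (Q.Adj r z ↔ Q.Adj r' z)})) fun x y h => by
        simpa [Subtype.ext_iff] using h
  have h3 : 2 ^ (3 * (N / 20) + W.card / 4 + 1) * 2 ^ (N / 2) ≤ 2 ^ W.card := by
    rw [← pow_add, hWc]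
    exact Nat.pow_le_pow_right (by norm_num) (by omega)
  refine Nat.le_of_mul_le_mul_right (c := 2 ^ W.card) ?_ (by positivity)
  calc {Q : SimpleGraph (Fin N) | ¬ N / 20 <
      Nat.card {z : Fin N // ¬ (Q.Adj r z ↔ Q.Adj r' z)}}.ncard * 2 ^ (N / 2) * 2 ^ W.card
      ≤ {Q : SimpleGraph (Fin N) | Nat.card {z : Fin N // z ∈ W ∧ ¬ (Q.Adj r z ↔ Q.Adj r' z)} ≤
        N / 20}.ncard * 2 ^ (N / 2) * 2 ^ W.card := by gcongr
    _ = ({Q : SimpleGraph (Fin N) | Nat.card {z : Fin N // z ∈ W ∧ ¬ (Q.Adj r z ↔ Q.Adj r' z)} ≤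
        N / 20}.ncard * 2 ^ W.card) * 2 ^ (N / 2) := by ring
    _ ≤ (2 ^ (3 * (N / 20) + W.card / 4 + 1) * 2 ^ N.choose 2) * 2 ^ (N / 2) := by gcongr
    _ = 2 ^ N.choose 2 * (2 ^ (3 * (N / 20) + W.card / 4 + 1) * 2 ^ (N / 2)) := by ring
    _ ≤ 2 ^ N.choose 2 * 2 ^ W.card := by gcongr

/-- small degrees -/
theorem degree_bad (hN : 2 ^ 14 ≤ N) (hm : 100 * m ≤ N) (r : Fin N) :
    {Q : SimpleGraph (Fin N) | ¬ N / 20 + m < Nat.card {z : Fin N // Q.Adj r z}}.ncard *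
      2 ^ (N / 2) ≤ 2 ^ N.choose 2 := by
  classical
  set W : Finset (Fin N) := univ.erase r with hW
  have hWc : W.card = N - 1 := by
    rw [hW, card_erase_of_mem (mem_univ _), card_univ, Fintype.card_fin]
  have h1 := row_count r W (by simp [hW]) (fun _ _ => False) (fun _ _ _ _ => Iff.rfl) (N / 20 + m)
  have h2 : {Q : SimpleGraph (Fin N) | ¬ N / 20 + m < Nat.card {z : Fin N // Q.Adj r z}}.ncard ≤
      {Q : SimpleGraph (Fin N) | Nat.card {z : Fin N // z ∈ W ∧ ¬ (Q.Adj r z ↔ False)} ≤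
        N / 20 + m}.ncard := by
    refine Set.ncard_le_ncard (fun Q hQ => ?_) (Set.toFinite _)
    have h3 : ¬ N / 20 + m < Nat.card {z : Fin N // Q.Adj r z} := hQ
    show Nat.card {z : Fin N // z ∈ W ∧ ¬ (Q.Adj r z ↔ False)} ≤ N / 20 + m
    refine le_trans ?_ (not_lt.1 h3)
    exact Nat.card_le_card_of_injective (fun z => (⟨z.1, by
      have := z.2.2
      simpa using this⟩ :
      {z : Fin N // Q.Adj r z})) fun x y h => by
        simpa [Subtype.ext_iff] using h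
  have h3 : 2 ^ (3 * (N / 20 + m) + W.card / 4 + 1) * 2 ^ (N / 2) ≤ 2 ^ W.card := by
    rw [← pow_add, hWc]
    exact Nat.pow_le_pow_right (by norm_num) (by omega)
  refine Nat.le_of_mul_le_mul_right (c := 2 ^ W.card) ?_ (by positivity)
  calc {Q : SimpleGraph (Fin N) | ¬ N / 20 + m < Nat.card {z : Fin N // Q.Adj r z}}.ncard *
        2 ^ (N / 2) * 2 ^ W.card
      ≤ {Q : SimpleGraph (Fin N) | Nat.card {z : Fin N // z ∈ W ∧ ¬ (Q.Adj r z ↔ False)} ≤
        N / 20 + m}.ncard * 2 ^ (N / 2) * 2 ^ W.card := by gcongr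
    _ = ({Q : SimpleGraph (Fin N) | Nat.card {z : Fin N // z ∈ W ∧ ¬ (Q.Adj r z ↔ False)} ≤
        N / 20 + m}.ncard * 2 ^ W.card) * 2 ^ (N / 2) := by ring
    _ ≤ (2 ^ (3 * (N / 20 + m) + W.card / 4 + 1) * 2 ^ N.choose 2) * 2 ^ (N / 2) := by gcongr
    _ = 2 ^ N.choose 2 * (2 ^ (3 * (N / 20 + m) + W.card / 4 + 1) * 2 ^ (N / 2)) := by ring
    _ ≤ 2 ^ N.choose 2 * 2 ^ W.card := by gcongr

/-- **Most contexts are rigid.** -/
theorem rigid_prob (hN : 2 ^ 14 ≤ N) (hm : 100 * m ≤ N) :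
    4 * {Q : SimpleGraph (Fin N) | ¬ Rigid m (N / 20) (N / 100) Q}.ncard ≤ 2 ^ N.choose 2 := by
  classical
  set M := 2 ^ N.choose 2 with hM
  set q := N / 1000 with hq
  have hNq : N ≤ 2 ^ q := lt_pow_thousand hN
  set s := N / 100 with hs
  let B1 : Fin N × Fin N → Set (SimpleGraph (Fin N)) := fun p =>
    {Q | ¬ N / 20 < Nat.card {z : Fin N // ¬ (Q.Adj p.1 z ↔ Q.Adj p.2 z)}}
  let B2 : Fin N → Set (SimpleGraph (Fin N)) := fun r =>
    {Q | ¬ N / 20 + m < Nat.card {z : Fin N // Q.Adj r z}}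
  let B3 : (Fin s → Fin N) × (Fin s → Fin N) → Set (SimpleGraph (Fin N)) := fun p =>
    {Q | ∀ i j, (Q.Adj (p.1 i) (p.1 j) ↔ Q.Adj (p.2 i) (p.2 j))}
  let S1 : Finset (Fin N × Fin N) := univ.filter fun p => p.1 ≠ p.2
  let S3 : Finset ((Fin s → Fin N) × (Fin s → Fin N)) := univ.filter fun p =>
    Function.Injective p.1 ∧ ∀ i j, p.1 i ≠ p.2 j
  have hsub : {Q : SimpleGraph (Fin N) | ¬ Rigid m (N / 20) s Q} ⊆
      (⋃ p ∈ S1, B1 p) ∪ ((⋃ r ∈ (univ : Finset (Fin N)), B2 r) ∪ ⋃ p ∈ S3, B3 p) := by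
    intro Q hQ
    by_contra hcon
    simp only [Set.mem_union, Set.mem_iUnion, not_or, not_exists] at hcon
    obtain ⟨c1, c2, c3⟩ := hcon
    apply hQ
    refine ⟨fun r r' hr => ?_, fun r => ?_, fun f g hf hfg => ?_⟩
    · have h := c1 (r, r') (mem_filter.2 ⟨mem_univ _, hr⟩)
      exact not_not.1 h
    · exact not_not.1 (c2 r (mem_univ _))
    · have h := c3 (f, g) (mem_filter.2 ⟨mem_univ _, hf, hfg⟩)
      by_contra h4
      push Not at h4
      exact h h4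
  have hcard := (Set.ncard_le_ncard hsub (Set.toFinite _)).trans ((Set.ncard_union_le _ _).trans
    (Nat.add_le_add_left (Set.ncard_union_le _ _) _))
  have b1 : 16 * (⋃ p ∈ S1, B1 p).ncard ≤ M := by
    have h1 := Finset.set_ncard_biUnion_le S1 B1
    have h2 : (∑ p ∈ S1, (B1 p).ncard) * 2 ^ (N / 2) ≤ S1.card * M := by
      rw [Finset.sum_mul, ← smul_eq_mul S1.card, ← Finset.sum_const]
      exact Finset.sum_le_sum fun p hp => rows_bad hN (mem_filter.1 hp).2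
    have h3 : S1.card ≤ 2 ^ (2 * q) := by
      refine (card_le_univ S1).trans ?_
      rw [Fintype.card_prod, Fintype.card_fin, two_mul, pow_add]
      exact Nat.mul_le_mul hNq hNq
    refine Nat.le_of_mul_le_mul_right (c := 2 ^ (2 * q)) ?_ (by positivity)
    calc 16 * (⋃ p ∈ S1, B1 p).ncard * 2 ^ (2 * q)
        ≤ 16 * (∑ p ∈ S1, (B1 p).ncard) * 2 ^ (2 * q) := by gcongr
      _ = (∑ p ∈ S1, (B1 p).ncard) * 2 ^ (2 * q + 4) := by rw [pow_add]; ring
      _ ≤ (∑ p ∈ S1, (B1 p).ncard) * 2 ^ (N / 2) :=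
          Nat.mul_le_mul_left _ (Nat.pow_le_pow_right (by norm_num) (by omega))
      _ ≤ S1.card * M := h2
      _ ≤ 2 ^ (2 * q) * M := Nat.mul_le_mul_right _ h3
      _ = M * 2 ^ (2 * q) := by ring
  have b2 : 16 * (⋃ r ∈ (univ : Finset (Fin N)), B2 r).ncard ≤ M := by
    have h1 := Finset.set_ncard_biUnion_le (univ : Finset (Fin N)) B2
    have h2 : (∑ p : Fin N, (B2 p).ncard) * 2 ^ (N / 2) ≤ (univ : Finset (Fin N)).card * M := by
      rw [Finset.sum_mul, ← smul_eq_mul (univ : Finset (Fin N)).card, ← Finset.sum_const]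
      exact Finset.sum_le_sum fun p hp => degree_bad hN hm p
    have h3 : (univ : Finset (Fin N)).card ≤ 2 ^ q := by
      rw [card_univ, Fintype.card_fin]
      exact hNq
    refine Nat.le_of_mul_le_mul_right (c := 2 ^ q) ?_ (by positivity)
    calc 16 * (⋃ p ∈ (univ : Finset (Fin N)), B2 p).ncard * 2 ^ q
        ≤ 16 * (∑ p : Fin N, (B2 p).ncard) * 2 ^ q := by gcongr
      _ = (∑ p : Fin N, (B2 p).ncard) * 2 ^ (q + 4) := by rw [pow_add]; ring
      _ ≤ (∑ p : Fin N, (B2 p).ncard) * 2 ^ (N / 2) :=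
          Nat.mul_le_mul_left _ (Nat.pow_le_pow_right (by norm_num) (by omega))
      _ ≤ (univ : Finset (Fin N)).card * M := h2
      _ ≤ 2 ^ q * M := Nat.mul_le_mul_right _ h3
      _ = M * 2 ^ q := by ring
  have b3 : 16 * (⋃ p ∈ S3, B3 p).ncard ≤ M := by
    have h1 := Finset.set_ncard_biUnion_le S3 B3
    have h2 : (∑ p ∈ S3, (B3 p).ncard) * 2 ^ (s.choose 2) ≤ S3.card * M := by
      rw [Finset.sum_mul, ← smul_eq_mul S3.card, ← Finset.sum_const]
      exact Finset.sum_le_sum fun p hp => sub_count p.1 p.2 (mem_filter.1 hp).2.1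
        (mem_filter.1 hp).2.2
    have h3 : S3.card ≤ 2 ^ (2 * (q * s)) := by
      refine (card_le_univ S3).trans ?_
      rw [Fintype.card_prod, Fintype.card_fun, Fintype.card_fin, Fintype.card_fin, two_mul, pow_add,
        pow_mul]
      exact Nat.mul_le_mul (Nat.pow_le_pow_left hNq _) (Nat.pow_le_pow_left hNq _)
    have h4 : 2 * (q * s) + 4 ≤ s.choose 2 := by
      rw [Nat.choose_two_right, Nat.le_div_iff_mul_le (by norm_num)]
      have h5 : 10 * q ≤ s := by omega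
      have h6 : 16 ≤ q := by omega
      obtain ⟨t, ht⟩ : ∃ t, s = t + 1 := ⟨s - 1, by omega⟩
      rw [ht, Nat.add_sub_cancel]
      nlinarith
    refine Nat.le_of_mul_le_mul_right (c := 2 ^ (2 * (q * s))) ?_ (by positivity)
    calc 16 * (⋃ p ∈ S3, B3 p).ncard * 2 ^ (2 * (q * s))
        ≤ 16 * (∑ p ∈ S3, (B3 p).ncard) * 2 ^ (2 * (q * s)) := by gcongr
      _ = (∑ p ∈ S3, (B3 p).ncard) * 2 ^ (2 * (q * s) + 4) := by rw [pow_add]; ring
      _ ≤ (∑ p ∈ S3, (B3 p).ncard) * 2 ^ (s.choose 2) :=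
          Nat.mul_le_mul_left _ (Nat.pow_le_pow_right (by norm_num) h4)
      _ ≤ S3.card * M := h2
      _ ≤ 2 ^ (2 * (q * s)) * M := Nat.mul_le_mul_right _ h3
      _ = M * 2 ^ (2 * (q * s)) := by ring
  omega

end Pool.Agent.N579.WA
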