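import Pool.Agent.N579.WA.Build

/-!
# Rigid contexts
-/

set_option autoImplicit false

namespace Pool.Agent.N579.WA

open Finset Pool.Agent.N579.WL

variable {m N : ℕ}

/-- The coloured graph `(A, X)` in the context `Q`: vertex `a` of `A` is joined to the vertex `l` of
`Q` if and only if the bit `l` of its colour is one. -/
def ctx (A : SimpleGraph (Fin m)) (X : Fin m → Fin m → Bool) (Q : SimpleGraph (Fin N)) :
    SimpleGraph (Fin m ⊕ Fin N) where
  Adj
    | Sum.inl a, Sum.inl b => A.Adj a b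
    | Sum.inr r, Sum.inr s => Q.Adj r s
    | Sum.inl a, Sum.inr r => ∃ h : (r : ℕ) < m, X a ⟨r, h⟩ = true
    | Sum.inr r, Sum.inl a => ∃ h : (r : ℕ) < m, X a ⟨r, h⟩ = true
  symm := ⟨by
    rintro (a | r) (b | s) h
    · exact A.adj_symm h
    · exact h
    · exact h
    · exact Q.adj_symm h⟩
  loopless := ⟨by
    rintro (a | r) h
    · exact A.irrefl h
    · exact Q.irrefl h⟩

/-- Rigidity. -/
structure Rigid (m e s : ℕ) (Q : SimpleGraph (Fin N)) : Prop where
  rows : ∀ r r' : Fin N, r ≠ r' → e < Nat.card {z : Fin N // ¬ (Q.Adj r z ↔ Q.Adj r' z)}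
  degree : ∀ r : Fin N, e + m < Nat.card {z : Fin N // Q.Adj r z}
  sub : ∀ f g : Fin s → Fin N, Function.Injective f → (∀ i j, f i ≠ g j) →
    ∃ i j, ¬ (Q.Adj (f i) (f j) ↔ Q.Adj (g i) (g j))

/-- A large partial injection without fixed points maps some large set to its complement. -/
theorem exists_disjoint (T : Finset (Fin N)) (ψ : Fin N → Fin N)
    (hinj : ∀ x ∈ T, ∀ y ∈ T, ψ x = ψ y → x = y) (hne : ∀ x ∈ T, ψ x ≠ x) :
    ∃ S ⊆ T, (∀ x ∈ S, ∀ y ∈ S, ψ x ≠ y) ∧ T.card ≤ 3 * S.card := by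
  classical
  let F := T.powerset.filter fun S => ∀ x ∈ S, ∀ y ∈ S, ψ x ≠ y
  have hF : F.Nonempty := ⟨∅, by simp [F]⟩
  obtain ⟨S, hS, hmax⟩ := Finset.exists_max_image F card hF
  simp only [F, mem_filter, mem_powerset] at hS
  obtain ⟨h1, h2⟩ := hS
  refine ⟨S, h1, h2, ?_⟩
  have h3 : T ⊆ S ∪ ((T.filter fun x => ψ x ∈ S) ∪ S.image ψ) := by
    intro x hx
    by_contra hcon
    simp only [mem_union, mem_filter, mem_image, not_or, not_and, not_exists] at hcon
    obtain ⟨c1, c2, c3⟩ := hcon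
    have h4 : insert x S ∈ F := by
      simp only [F, mem_filter, mem_powerset]
      refine ⟨insert_subset hx h1, ?_⟩
      intro a ha b hb
      rw [mem_insert] at ha hb
      rcases ha with ha | ha
      · rcases hb with hb | hb
        · rw [ha, hb]
          exact hne x hx
        · intro h
          rw [ha] at h
          exact c2 hx (h ▸ hb)
      · rcases hb with hb | hb
        · rw [hb]
          exact fun h => c3 a ha h
        · exact h2 a ha b hb
    have h5 := hmax _ h4
    rw [card_insert_of_notMem c1] at h5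
    omega
  have h4 : (T.filter fun x => ψ x ∈ S).card ≤ S.card :=
    Finset.card_le_card_of_injOn ψ (fun x hx => (mem_filter.1 hx).2)
      (fun x hx y hy h => hinj x (mem_filter.1 hx).1 y (mem_filter.1 hy).1 h)
  have h5 := (card_le_card h3).trans ((card_union_le _ _).trans
    (Nat.add_le_add_left (card_union_le _ _) _))
  have h6 : (S.image ψ).card ≤ S.card := card_image_le
  omega

/-- **In a rigid context all isomorphisms fix the context.** -/
theorem fix_of_rigid {e s : ℕ} (hs : 3 * s + m ≤ e) {Q : SimpleGraph (Fin N)}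
    (hQ : Rigid m e s Q) {A B : SimpleGraph (Fin m)} {X Y : Fin m → Fin m → Bool}
    (φ : ctx A X Q ≃g ctx B Y Q) (r : Fin N) : φ (Sum.inr r) = Sum.inr r := by
  classical
  let T := univ.filter fun r : Fin N => φ (Sum.inr r) ≠ Sum.inr r
  let T1 := T.filter fun r => ∃ r', φ (Sum.inr r) = Sum.inr r'
  let T2 := T.filter fun r => ¬ ∃ r', φ (Sum.inr r) = Sum.inr r'
  -- vertices mapped into the small part
  have hT2 : T2.card ≤ m := by
    have h1 : ∀ r ∈ T2, ∃ a : Fin m, φ (Sum.inr r) = Sum.inl a := by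
      intro r hr
      have h2 := (mem_filter.1 hr).2
      cases h3 : φ (Sum.inr r) with
      | inl a => exact ⟨a, rfl⟩
      | inr r' => exact absurd ⟨r', h3⟩ h2
    choose g hg using h1
    have h2 : Fintype.card T2 ≤ Fintype.card (Fin m) :=
      Fintype.card_le_of_injective (fun x : T2 => g x.1 x.2) (by
        intro x y hxy
        have h3 := hg x.1 x.2
        have h4 : g x.1 x.2 = g y.1 y.2 := hxy
        rw [h4, ← hg y.1 y.2] at h3
        exact Subtype.ext (Sum.inr.inj (φ.injective h3)))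
    simpa using h2
  have hT1 : T1.card ≤ 3 * s := by
    have h1 : ∀ r ∈ T1, ∃ r', φ (Sum.inr r) = Sum.inr r' := fun r hr => (mem_filter.1 hr).2
    choose! ψ hψ using h1
    obtain ⟨S, hS1, hS2, hS3⟩ := exists_disjoint T1 ψ (by
      intro x hx y hy hxy
      have h3 := hψ x hx
      rw [hxy, ← hψ y hy] at h3
      exact Sum.inr.inj (φ.injective h3)) (by
      intro x hx h
      have h3 := hψ x hx
      rw [h] at h3
      exact (mem_filter.1 (mem_filter.1 hx).1).2 h3)
    by_contra hcon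
    push Not at hcon
    have h2 : s ≤ S.card := by omega
    obtain ⟨S', hS', hS'c⟩ := Finset.exists_subset_card_eq h2
    let f : Fin s → Fin N := fun i => (S'.equivFin.symm (Fin.cast hS'c.symm i) : S')
    have hf : ∀ i, f i ∈ S := fun i => hS' (S'.equivFin.symm _).2
    have hfinj : Function.Injective f := by
      intro i j hij
      have := S'.equivFin.symm.injective (Subtype.ext hij)
      simpa using this
    obtain ⟨i, j, hij⟩ := hQ.sub f (fun i => ψ (f i)) hfinj
      (fun i j h => hS2 (f j) (hf j) (f i) (hf i) h.symm)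
    apply hij
    have h3 : (ctx B Y Q).Adj (φ (Sum.inr (f i))) (φ (Sum.inr (f j))) ↔
        (ctx A X Q).Adj (Sum.inr (f i)) (Sum.inr (f j)) := φ.map_rel_iff
    rw [hψ _ (hS1 (hf i)), hψ _ (hS1 (hf j))] at h3
    exact h3.symm
  have hT : T.card ≤ e := by
    have h1 : T1.card + T2.card = T.card := Finset.card_filter_add_card_filter_not _
    omega
  by_contra hr
  have hfix : ∀ z, z ∉ T → φ (Sum.inr z) = Sum.inr z := by
    intro z hz
    by_contra h
    exact hz (mem_filter.2 ⟨mem_univ _, h⟩)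
  have hadj : ∀ z, z ∉ T → ((ctx B Y Q).Adj (φ (Sum.inr r)) (Sum.inr z) ↔ Q.Adj r z) := by
    intro z hz
    have h3 : (ctx B Y Q).Adj (φ (Sum.inr r)) (φ (Sum.inr z)) ↔
        (ctx A X Q).Adj (Sum.inr r) (Sum.inr z) := φ.map_rel_iff
    rw [hfix z hz] at h3
    exact h3
  cases h3 : φ (Sum.inr r) with
  | inl a =>
    rw [h3] at hadj
    have h4 := hQ.degree r
    have h5 : Nat.card {z : Fin N // Q.Adj r z} ≤ e + m := by
      rw [Nat.card_eq_fintype_card, Fintype.card_subtype]
      have h6 : (univ.filter fun z => Q.Adj r z) ⊆ T ∪ univ.filter fun z : Fin N => (z : ℕ) < m := by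
        intro z hz
        rw [mem_filter] at hz
        rw [mem_union]
        by_cases hzT : z ∈ T
        · exact Or.inl hzT
        · right
          obtain ⟨h, _⟩ := (hadj z hzT).2 hz.2
          exact mem_filter.2 ⟨mem_univ _, h⟩
      have h7 : (univ.filter fun z : Fin N => (z : ℕ) < m).card ≤ m := by
        have h8 : (univ.filter fun z : Fin N => (z : ℕ) < m).card ≤ (range m).card :=
          Finset.card_le_card_of_injOn (fun z => (z : ℕ))
            (fun z hz => mem_coe.2 (mem_range.2 (mem_filter.1 hz).2))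
            (fun x _ y _ h => Fin.ext h)
        rwa [card_range] at h8
      have h8 := (card_le_card h6).trans (card_union_le _ _)
      omega
    omega
  | inr r' =>
    rw [h3] at hadj
    have hrr : r ≠ r' := by
      rintro rfl
      exact hr h3
    have h4 := hQ.rows r r' hrr
    have h5 : Nat.card {z : Fin N // ¬ (Q.Adj r z ↔ Q.Adj r' z)} ≤ e := by
      rw [Nat.card_eq_fintype_card, Fintype.card_subtype]
      refine (card_le_card ?_).trans hT
      intro z hz
      rw [mem_filter] at hz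
      by_contra hzT
      exact hz.2 (hadj z hzT).symm
    omega

/-- **Isomorphism in a rigid context is coloured isomorphism.** -/
theorem ctx_iso_iff {e s : ℕ} (hs : 3 * s + m ≤ e) (hmN : m ≤ N) {Q : SimpleGraph (Fin N)}
    (hQ : Rigid m e s Q) (A B : SimpleGraph (Fin m)) (X Y : Fin m → Fin m → Bool) :
    Nonempty (ctx A X Q ≃g ctx B Y Q) ↔ ColIso A X B Y := by
  classical
  constructor
  · rintro ⟨φ⟩
    have h1 := fix_of_rigid hs hQ φ
    have h2 : ∀ a : Fin m, ∃ b : Fin m, φ (Sum.inl a) = Sum.inl b := by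
      intro a
      cases h3 : φ (Sum.inl a) with
      | inl b => exact ⟨b, rfl⟩
      | inr r =>
        rw [← h1 r] at h3
        exact absurd (φ.injective h3) (by simp)
    choose σ hσ using h2
    have hinj : Function.Injective σ := by
      intro a b hab
      have h3 := hσ a
      rw [hab, ← hσ b] at h3
      exact Sum.inl.inj (φ.injective h3)
    refine ⟨⟨Equiv.ofBijective σ (Finite.injective_iff_bijective.1 hinj), ?_⟩, ?_⟩
    · intro a b
      have h3 : (ctx B Y Q).Adj (φ (Sum.inl a)) (φ (Sum.inl b)) ↔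
        (ctx A X Q).Adj (Sum.inl a) (Sum.inl b) := φ.map_rel_iff
      rw [hσ, hσ] at h3
      exact h3
    · intro a
      funext l
      have h3 : (ctx B Y Q).Adj (φ (Sum.inl a)) (φ (Sum.inr ⟨l, l.2.trans_le hmN⟩)) ↔
        (ctx A X Q).Adj (Sum.inl a) (Sum.inr ⟨l, l.2.trans_le hmN⟩) := φ.map_rel_iff
      rw [hσ, h1] at h3
      have h4 : (∃ h : (l : ℕ) < m, Y (σ a) ⟨l, h⟩ = true) ↔ ∃ h : (l : ℕ) < m, X a ⟨l, h⟩ = true := h3
      show X a l = Y (σ a) l
      rw [Bool.eq_iff_iff]
      constructor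
      · intro h
        obtain ⟨_, h5⟩ := h4.2 ⟨l.2, h⟩
        exact h5
      · intro h
        obtain ⟨_, h5⟩ := h4.1 ⟨l.2, h⟩
        exact h5
  · rintro ⟨σ, hσ⟩
    refine ⟨⟨Equiv.sumCongr σ.toEquiv (Equiv.refl _), ?_⟩⟩
    rintro (a | r) (b | r')
    · exact σ.map_rel_iff
    · show (∃ h : (r' : ℕ) < m, Y (σ a) ⟨r', h⟩ = true) ↔ ∃ h : (r' : ℕ) < m, X a ⟨r', h⟩ = true
      rw [hσ a]
    · show (∃ h : (r : ℕ) < m, Y (σ b) ⟨r, h⟩ = true) ↔ ∃ h : (r : ℕ) < m, X b ⟨r, h⟩ = true
      rw [hσ b]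
    · exact Iff.rfl

/-! ## Counting -/

/-- Subsets of bounded size. -/
theorem card_small_sets {α : Type} [DecidableEq α] (W : Finset α) (t : ℕ) :
    (W.powerset.filter fun U => U.card ≤ t).card ≤ 2 ^ (3 * t + W.card / 4 + 1) := by
  have h1 : (W.powerset.filter fun U => U.card ≤ t).card * 8 ^ W.card ≤ 8 ^ t * 9 ^ W.card := by
    have h2 : (9 : ℕ) ^ W.card = ∑ U ∈ W.powerset, 8 ^ (W.card - U.card) := by
      have := Finset.sum_pow_mul_eq_add_pow (1 : ℕ) 8 W
      simp only [one_pow, one_mul] at this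
      rw [this]
    calc (W.powerset.filter fun U => U.card ≤ t).card * 8 ^ W.card
        = ∑ _U ∈ W.powerset.filter fun U => U.card ≤ t, 8 ^ W.card := by
          rw [Finset.sum_const, smul_eq_mul]
      _ ≤ ∑ U ∈ W.powerset.filter fun U => U.card ≤ t, 8 ^ t * 8 ^ (W.card - U.card) := by
          refine Finset.sum_le_sum fun U hU => ?_
          rw [mem_filter, mem_powerset] at hU
          rw [← pow_add]
          refine Nat.pow_le_pow_right (by norm_num) ?_
          omega
      _ ≤ ∑ U ∈ W.powerset, 8 ^ t * 8 ^ (W.card - U.card) :=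
          Finset.sum_le_sum_of_subset (filter_subset _ _)
      _ = 8 ^ t * 9 ^ W.card := by rw [← Finset.mul_sum, h2]
  have h2 : (9 : ℕ) ^ W.card ≤ 2 ^ (W.card / 4 + 1) * 8 ^ W.card := by
    obtain ⟨k, hk⟩ : ∃ k, k = W.card / 4 := ⟨_, rfl⟩
    obtain ⟨j, hj⟩ : ∃ j, W.card = 4 * k + j := ⟨W.card % 4, by omega⟩
    have hj4 : j < 4 := by omega
    have e9 : (9 : ℕ) ^ (4 * k + j) = (9 ^ 4) ^ k * 9 ^ j := by rw [pow_add, pow_mul]
    have e8 : (8 : ℕ) ^ (4 * k + j) = (8 ^ 4) ^ k * 8 ^ j := by rw [pow_add, pow_mul]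
    have e2 : (2 : ℕ) ^ (k + 1) = 2 ^ k * 2 := pow_succ _ _
    rw [← hk, hj, e9, e8, e2]
    have h3 : (9 : ℕ) ^ j ≤ 2 * 8 ^ j := by interval_cases j <;> norm_num
    have h4 : ((9 : ℕ) ^ 4) ^ k ≤ 2 ^ k * (8 ^ 4) ^ k := by
      rw [← mul_pow]
      exact Nat.pow_le_pow_left (by norm_num) k
    calc ((9 : ℕ) ^ 4) ^ k * 9 ^ j ≤ (2 ^ k * (8 ^ 4) ^ k) * (2 * 8 ^ j) := Nat.mul_le_mul h4 h3
      _ = 2 ^ k * 2 * ((8 ^ 4) ^ k * 8 ^ j) := by ring
  have h3 : (W.powerset.filter fun U => U.card ≤ t).card * 8 ^ W.card ≤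
      2 ^ (3 * t + W.card / 4 + 1) * 8 ^ W.card := by
    refine h1.trans ((Nat.mul_le_mul_left _ h2).trans (le_of_eq ?_))
    rw [show (3 * t + W.card / 4 + 1) = 3 * t + (W.card / 4 + 1) by ring, pow_add 2 (3 * t), pow_mul]
    norm_num
    ring
  exact Nat.le_of_mul_le_mul_right h3 (by positivity)

/-- Few graphs have a row close to a given set which depends on the rest of the graph. -/
theorem row_count (r : Fin N) (W : Finset (Fin N)) (hr : r ∉ W)
    (D : SimpleGraph (Fin N) → Fin N → Prop)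
    (hD : ∀ Q Q', Agree (W.image fun z => s(r, z)) Q Q' → ∀ z, D Q z ↔ D Q' z) (t : ℕ) :
    {Q : SimpleGraph (Fin N) | Nat.card {z : Fin N // z ∈ W ∧ ¬ (Q.Adj r z ↔ D Q z)} ≤ t}.ncard *
      2 ^ W.card ≤ 2 ^ (3 * t + W.card / 4 + 1) * 2 ^ N.choose 2 := by
  classical
  have hcard : (W.image fun z => s(r, z)).card = W.card := by
    refine card_image_of_injOn fun x hx y hy hxy => ?_
    simp only [Sym2.eq_iff] at hxy
    rcases hxy with ⟨_, h⟩ | ⟨h, _⟩
    · exact h
    · exact absurd (h ▸ hy) hr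
  rw [← hcard]
  refine card_le_of_agree _ ?_ _ _ fun Q => ?_
  · intro e he
    obtain ⟨z, hz, rfl⟩ := mem_image.1 he
    rw [Sym2.mk_isDiag_iff]
    rintro rfl
    exact hr hz
  · rw [hcard]
    refine le_trans ?_ (card_small_sets W t)
    rw [← Set.ncard_coe_finset]
    refine Set.ncard_le_ncard_of_injOn (fun Q' => W.filter fun z => ¬ (Q'.Adj r z ↔ D Q z)) ?_ ?_
      (Set.toFinite _)
    · rintro Q' ⟨h1, h2⟩
      simp only [coe_filter, mem_powerset, Set.mem_ofPred_eq]
      refine ⟨filter_subset _ _, ?_⟩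
      refine le_trans (le_of_eq ?_) h1
      rw [Nat.card_eq_fintype_card, Fintype.card_subtype]
      congr 1
      ext z
      simp only [mem_filter, mem_univ, true_and, hD Q Q' h2 z]
    · rintro Q1 ⟨_, h1⟩ Q2 ⟨_, h2⟩ h12
      have key : ∀ z ∈ W, (Q1.Adj r z ↔ Q2.Adj r z) := by
        intro z hz
        have h3 : z ∈ (W.filter fun z => ¬ (Q1.Adj r z ↔ D Q z)) ↔
            z ∈ W.filter fun z => ¬ (Q2.Adj r z ↔ D Q z) := by
          show z ∈ (fun Q' : SimpleGraph (Fin N) => W.filter fun z => ¬ (Q'.Adj r z ↔ D Q z)) Q1 ↔ _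
          rw [h12]
        simp only [mem_filter, hz, true_and] at h3
        tauto
      ext x y
      by_cases he : s(x, y) ∈ W.image fun z => s(r, z)
      · obtain ⟨z, hz, hzz⟩ := mem_image.1 he
        rw [Sym2.eq_iff] at hzz
        rcases hzz with ⟨rfl, rfl⟩ | ⟨rfl, rfl⟩
        · exact key _ hz
        · rw [SimpleGraph.adj_comm, key _ hz, SimpleGraph.adj_comm]
      · have h3 := h1 _ he
        have h4 := h2 _ he
        rw [SimpleGraph.mem_edgeSet] at h3 h4
        exact h3.symm.trans h4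

/-- Few graphs have two isomorphic subgraphs on given disjoint sets. -/
theorem sub_count {s : ℕ} (f g : Fin s → Fin N) (hf : Function.Injective f)
    (hfg : ∀ i j, f i ≠ g j) :
    {Q : SimpleGraph (Fin N) | ∀ i j, (Q.Adj (f i) (f j) ↔ Q.Adj (g i) (g j))}.ncard *
      2 ^ s.choose 2 ≤ 2 ^ N.choose 2 := by
  classical
  let P : Finset (Sym2 (Fin N)) := ((univ : Finset (Sym2 (Fin s))).filter fun e => ¬ e.IsDiag).image
    (Sym2.map f)
  have hP : P.card = s.choose 2 := by
    rw [card_image_of_injective _ (Sym2.map.injective hf), ← Fintype.card_subtype]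
    have := Sym2.card_subtype_not_diag (α := Fin s)
    rw [Fintype.card_fin] at this
    exact this
  rw [← hP, ← card_graphs]
  refine card_le_of_private P ?_ _ ?_
  · intro e he
    obtain ⟨e', he', rfl⟩ := mem_image.1 he
    have h1 := (mem_filter.1 he').2
    induction e' using Sym2.ind with
    | _ a b =>
      rw [Sym2.map_mk, Sym2.mk_isDiag_iff]
      rw [Sym2.mk_isDiag_iff] at h1
      exact fun h => h1 (hf h)
  · intro Q hQ Q' hQ' hag
    have hPg : ∀ i j, s(g i, g j) ∉ P := by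
      intro i j h
      obtain ⟨e', _, he'⟩ := mem_image.1 h
      induction e' using Sym2.ind with
      | _ a b =>
        rw [Sym2.map_mk, Sym2.eq_iff] at he'
        rcases he' with ⟨h1, _⟩ | ⟨h1, _⟩
        · exact hfg _ _ h1
        · exact hfg _ _ h1
    ext x y
    by_cases he : s(x, y) ∈ P
    · obtain ⟨e', _, he'⟩ := mem_image.1 he
      induction e' using Sym2.ind with
      | _ a b =>
        have h1 : Q.Adj (f a) (f b) ↔ Q'.Adj (f a) (f b) := by
          rw [hQ a b, hQ' a b]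
          exact hag _ (hPg a b)
        rw [Sym2.map_mk, Sym2.eq_iff] at he'
        rcases he' with ⟨rfl, rfl⟩ | ⟨rfl, rfl⟩
        · exact h1
        · rw [SimpleGraph.adj_comm, h1, SimpleGraph.adj_comm]
    · exact hag _ he

end Pool.Agent.N579.WA
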