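import Pool.Agent.N579.WA.Halasz

/-!
# Most 0-1-matrices contain rows that are linearly independent on every block
-/

set_option autoImplicit false

namespace Pool.Agent.N579.WA

open Finset

section

variable {q : ℕ} [Fact q.Prime]

/-- bits as elements of the field -/
def toF (q : ℕ) (b : Bool) : ZMod q := if b = true then 1 else 0

theorem toF_inj {b b' : Bool} (h : toF q b = toF q b') : b = b' := by
  have : (1 : ZMod q) ≠ 0 := one_ne_zero
  unfold toF at h
  cases b <;> cases b' <;> simp_all

/-- The matrix of the chosen rows. -/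
def mat (q : ℕ) {h l w i : ℕ} (a : Fin h → Fin l × Fin w → Bool) (x : Fin i → Fin h) :
    Fin i → Fin l × Fin w → ZMod q := fun c p => toF q (a (x c) p)

omit [Fact q.Prime] in
theorem blk_mat_congr {h l w i : ℕ} {a a' : Fin h → Fin l × Fin w → Bool} {x : Fin i → Fin h}
    (hx : ∀ c, a (x c) = a' (x c)) : mat q a x = mat q a' x := by
  funext c p
  unfold mat
  rw [hx c]

/-- The rows `x` are linearly independent on every block. -/
def Indep (q : ℕ) [Fact q.Prime] {h l w i : ℕ} (a : Fin h → Fin l × Fin w → Bool)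
    (x : Fin i → Fin h) : Prop :=
  ∀ k, Function.Injective (blk (mat q a x) k)

theorem indep_snoc {h l w i : ℕ} {a : Fin h → Fin l × Fin w → Bool} {x : Fin i → Fin h}
    (hx : Indep q a x) (y : Fin h)
    (hy : ∀ k, (fun j => toF q (a y (k, j))) ∉ Set.range (blk (mat q a x) k)) :
    Indep q a (Fin.snoc x y : Fin (i + 1) → Fin h) := by
  intro k
  rw [← LinearMap.ker_eq_bot, LinearMap.ker_eq_bot']
  intro θ hθ
  have h1 : ∀ j, ∑ c : Fin i, θ c.castSucc * toF q (a (x c) (k, j)) +
      θ (Fin.last i) * toF q (a y (k, j)) = 0 := by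
    intro j
    have h2 := congrFun hθ j
    change ∑ c : Fin (i + 1), θ c * toF q (a ((Fin.snoc x y : Fin (i + 1) → Fin h) c) (k, j)) = 0
      at h2
    rw [Fin.sum_univ_castSucc] at h2
    simpa only [Fin.snoc_castSucc, Fin.snoc_last] using h2
  have h3 : θ (Fin.last i) = 0 := by
    by_contra hne
    apply hy k
    refine ⟨fun c => -(θ (Fin.last i))⁻¹ * θ c.castSucc, ?_⟩
    funext j
    change ∑ c : Fin i, (-(θ (Fin.last i))⁻¹ * θ c.castSucc) * toF q (a (x c) (k, j)) = _
    have h4 : ∑ c : Fin i, (-(θ (Fin.last i))⁻¹ * θ c.castSucc) * toF q (a (x c) (k, j)) =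
        -(θ (Fin.last i))⁻¹ * ∑ c : Fin i, θ c.castSucc * toF q (a (x c) (k, j)) := by
      rw [Finset.mul_sum]
      exact Finset.sum_congr rfl fun c _ => by ring
    rw [h4, eq_neg_of_add_eq_zero_left (h1 j)]
    field_simp
  have h5 : (fun c : Fin i => θ c.castSucc) = 0 := by
    apply hx k
    rw [map_zero]
    funext j
    have h6 := h1 j
    rw [h3, zero_mul, add_zero] at h6
    exact h6
  funext c
  refine Fin.lastCases ?_ (fun c => ?_) c
  · exact h3
  · exact congrFun h5 c

/-- If there are no `R` independent rows then some independent family of fewer rows cannot be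
extended. -/
theorem exists_stuck {h l w : ℕ} {a : Fin h → Fin l × Fin w → Bool} {R : ℕ}
    (hR : ¬ ∃ x : Fin R → Fin h, Indep q a x) :
    ∃ i < R, ∃ x : Fin i → Fin h, ∀ y : Fin h,
      ∃ k, (fun j => toF q (a y (k, j))) ∈ Set.range (blk (mat q a x) k) := by
  induction R with
  | zero =>
    exfalso
    apply hR
    refine ⟨fun c => c.elim0, fun k => ?_⟩
    intro θ θ' _
    funext c
    exact c.elim0
  | succ R ih =>
    by_cases h1 : ∃ x : Fin R → Fin h, Indep q a x
    · obtain ⟨x, hx⟩ := h1
      by_contra h2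
      push Not at h2
      obtain ⟨y, hy⟩ := h2 R (Nat.lt_succ_self R) x
      exact hR ⟨_, indep_snoc hx y hy⟩
    · obtain ⟨i, hi, x, hx⟩ := ih h1
      exact ⟨i, hi.trans (Nat.lt_succ_self R), x, hx⟩

/-- Few 0-1-vectors lie in the span of few rows on some block. -/
theorem card_span {l w i : ℕ} (M : Fin i → Fin l × Fin w → ZMod q) :
    (univ.filter fun b : Fin l × Fin w → Bool =>
      ∃ k, (fun j => toF q (b (k, j))) ∈ Set.range (blk M k)).card ≤ l * 2 ^ (i + (l - 1) * w) := by
  classical
  have h1 : ∀ k : Fin l, (univ.filter fun b : Fin l × Fin w → Bool =>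
      (fun j => toF q (b (k, j))) ∈ Set.range (blk M k)).card ≤ 2 ^ (i + (l - 1) * w) := by
    intro k
    obtain ⟨B, hB1, hB2⟩ := exists_coords (blk M k)
    let P : Finset (Fin l × Fin w) := ((univ.erase k) ×ˢ univ) ∪ ({k} ×ˢ B)
    have hP : P.card ≤ i + (l - 1) * w := by
      refine (card_union_le _ _).trans ?_
      rw [card_product, card_product, card_erase_of_mem (mem_univ k), card_singleton, card_univ,
        card_univ, Fintype.card_fin, Fintype.card_fin]
      omega
    have h2 : (univ.filter fun b : Fin l × Fin w → Bool =>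
        (fun j => toF q (b (k, j))) ∈ Set.range (blk M k)).card ≤
          (univ : Finset (P → Bool)).card := by
      refine Finset.card_le_card_of_injOn (fun b p => b p) (fun _ _ => mem_univ _) ?_
      intro b hb b' hb' hbb
      simp only [coe_filter, mem_univ, true_and, Set.mem_ofPred_eq] at hb hb'
      obtain ⟨θ, hθ⟩ := hb
      obtain ⟨θ', hθ'⟩ := hb'
      have h3 : ∀ p ∈ P, b p = b' p := fun p hp => congrFun hbb ⟨p, hp⟩
      have h4 : blk M k θ = blk M k θ' := by
        refine hB2 θ θ' fun j hj => ?_
        rw [hθ, hθ']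
        show toF q (b (k, j)) = toF q (b' (k, j))
        rw [h3 (k, j)]
        simp [P, hj]
      funext p
      obtain ⟨k', j⟩ := p
      by_cases hk : k' = k
      · subst hk
        apply toF_inj (q := q)
        rw [hθ, hθ'] at h4
        exact congrFun h4 j
      · exact h3 _ (by simp [P, hk])
    rw [card_univ, Fintype.card_fun, Fintype.card_bool, Fintype.card_coe] at h2
    exact h2.trans (Nat.pow_le_pow_right (by norm_num) hP)
  have h5 : (univ.filter fun b : Fin l × Fin w → Bool =>
      ∃ k, (fun j => toF q (b (k, j))) ∈ Set.range (blk M k)) ⊆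
      univ.biUnion fun k => univ.filter fun b : Fin l × Fin w → Bool =>
        (fun j => toF q (b (k, j))) ∈ Set.range (blk M k) := by
    intro b hb
    simpa using hb
  refine (card_le_card h5).trans (card_biUnion_le.trans ?_)
  refine (Finset.sum_le_sum fun k _ => h1 k).trans ?_
  rw [Finset.sum_const, card_univ, Fintype.card_fin, smul_eq_mul]

end

/-- Functions whose values outside `C` are restricted by the values on `C`. -/
theorem card_fiber {α β : Type} [Fintype α] [DecidableEq α] [Fintype β] [DecidableEq β]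
    (C : Finset α) (D : ℕ) (S : Finset (α → β)) (T : (α → β) → Finset β)
    (hT : ∀ u, (T u).card ≤ D)
    (hS : ∀ a ∈ S, ∀ u : α → β, (∀ c ∈ C, a c = u c) → ∀ y, y ∉ C → a y ∈ T u) :
    S.card ≤ Fintype.card β ^ C.card * D ^ (Fintype.card α - C.card) := by
  classical
  let f : (α → β) → (C → β) := fun a c => a c
  have h1 : ∀ v ∈ S.image f, (S.filter fun a => f a = v).card ≤ D ^ (Fintype.card α - C.card) := by
    intro v hv
    obtain ⟨u, hu, rfl⟩ := mem_image.1 hv
    have h2 : (S.filter fun a => f a = f u) ⊆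
        Fintype.piFinset fun y => if y ∈ C then {u y} else T u := by
      intro a ha
      rw [mem_filter] at ha
      rw [Fintype.mem_piFinset]
      intro y
      split_ifs with hy
      · rw [mem_singleton]
        exact congrFun ha.2 ⟨y, hy⟩
      · exact hS a ha.1 u (fun c hc => congrFun ha.2 ⟨c, hc⟩) y hy
    refine (card_le_card h2).trans ?_
    rw [Fintype.card_piFinset, ← Finset.prod_mul_prod_compl C]
    have h3 : ∏ y ∈ C, (if y ∈ C then ({u y} : Finset β) else T u).card = 1 :=
      Finset.prod_eq_one fun y hy => by rw [if_pos hy, card_singleton]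
    have h4 : ∏ y ∈ Cᶜ, (if y ∈ C then ({u y} : Finset β) else T u).card ≤ ∏ _y ∈ Cᶜ, D :=
      Finset.prod_le_prod' fun y hy => by
        rw [if_neg (mem_compl.1 hy)]
        exact hT u
    rw [h3, one_mul]
    refine h4.trans ?_
    rw [Finset.prod_const, card_compl]
  have h5 := Finset.card_le_mul_card_image S _ h1
  refine h5.trans ?_
  rw [mul_comm]
  refine Nat.mul_le_mul_right _ ?_
  refine (card_le_univ _).trans ?_
  rw [Fintype.card_fun, Fintype.card_coe]

/-- **Few matrices have no `R` rows which are independent on all blocks.** -/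
theorem card_stuck {q : ℕ} [Fact q.Prime] {h l w R : ℕ} (hl : 1 ≤ l)
    (hD : l * 2 ^ (R + (l - 1) * w) ≤ 2 ^ (l * w)) (hRh : R ≤ h) :
    {a : Fin h → Fin l × Fin w → Bool | ¬ ∃ x : Fin R → Fin h, Indep q a x}.ncard ≤
        R * h ^ R * ((2 ^ (l * w)) ^ R * (l * 2 ^ (R + (l - 1) * w)) ^ (h - R)) := by
  classical
  rw [Set.ncard_eq_toFinset_card', Set.toFinset_setOf]
  have h1 : (univ.filter fun a : Fin h → Fin l × Fin w → Bool =>
      ¬ ∃ x : Fin R → Fin h, Indep q a x) ⊆
      (range R).biUnion fun i => (univ : Finset (Fin i → Fin h)).biUnion fun x =>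
        univ.filter fun a : Fin h → Fin l × Fin w → Bool => ∀ y : Fin h,
          ∃ k, (fun j => toF q (a y (k, j))) ∈ Set.range (blk (mat q a x) k) := by
    intro a ha
    rw [mem_filter] at ha
    obtain ⟨i, hi, x, hx⟩ := exists_stuck ha.2
    rw [mem_biUnion]
    refine ⟨i, mem_range.2 hi, ?_⟩
    rw [mem_biUnion]
    exact ⟨x, mem_univ _, mem_filter.2 ⟨mem_univ _, hx⟩⟩
  set D := l * 2 ^ (R + (l - 1) * w) with hDdef
  have h2 : ∀ i ∈ range R, ∀ x : Fin i → Fin h,
      (univ.filter fun a : Fin h → Fin l × Fin w → Bool => ∀ y : Fin h,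
          ∃ k, (fun j => toF q (a y (k, j))) ∈ Set.range (blk (mat q a x) k)).card ≤
        (2 ^ (l * w)) ^ R * D ^ (h - R) := by
    intro i hi x
    rw [mem_range] at hi
    have h3 := card_fiber (univ.image x) D (univ.filter fun a : Fin h → Fin l × Fin w → Bool =>
      ∀ y : Fin h, ∃ k, (fun j => toF q (a y (k, j))) ∈ Set.range (blk (mat q a x) k))
      (fun u => univ.filter fun b : Fin l × Fin w → Bool =>
        ∃ k, (fun j => toF q (b (k, j))) ∈ Set.range (blk (mat q u x) k)) (by
          intro u
          refine (card_span _).trans ?_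
          exact Nat.mul_le_mul_left _ (Nat.pow_le_pow_right (by norm_num) (by omega))) (by
          intro a ha u hau y _
          rw [mem_filter] at ha ⊢
          refine ⟨mem_univ _, ?_⟩
          rw [← blk_mat_congr (q := q) (a := a) (a' := u)
            (fun c => hau (x c) (mem_image_of_mem x (mem_univ c)))]
          exact ha.2 y)
    refine h3.trans ?_
    have h4 : (univ.image x).card ≤ i := by
      refine card_image_le.trans ?_
      simp
    rw [Fintype.card_fun, Fintype.card_bool, Fintype.card_prod, Fintype.card_fin, Fintype.card_fin,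
      Fintype.card_fin]
    obtain ⟨z, hz⟩ : ∃ z, R = (univ.image x).card + z := ⟨R - (univ.image x).card, by omega⟩
    calc (2 ^ (l * w)) ^ (univ.image x).card * D ^ (h - (univ.image x).card) =
        (2 ^ (l * w)) ^ (univ.image x).card * (D ^ z * D ^ (h - R)) := by
          rw [← pow_add]
          congr 2
          omega
      _ ≤ (2 ^ (l * w)) ^ (univ.image x).card * ((2 ^ (l * w)) ^ z * D ^ (h - R)) := by
          refine Nat.mul_le_mul_left _ (Nat.mul_le_mul_right _ ?_)
          exact Nat.pow_le_pow_left hD z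
      _ = (2 ^ (l * w)) ^ R * D ^ (h - R) := by
          rw [← mul_assoc, ← pow_add, ← hz]
  refine (card_le_card h1).trans (card_biUnion_le.trans ?_)
  have h5 : ∀ i ∈ range R, ((univ : Finset (Fin i → Fin h)).biUnion fun x =>
        univ.filter fun a : Fin h → Fin l × Fin w → Bool => ∀ y : Fin h,
          ∃ k, (fun j => toF q (a y (k, j))) ∈ Set.range (blk (mat q a x) k)).card ≤
      h ^ R * ((2 ^ (l * w)) ^ R * D ^ (h - R)) := by
    intro i hi
    refine card_biUnion_le.trans ((Finset.sum_le_sum fun x _ => h2 i hi x).trans ?_)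
    rw [Finset.sum_const, smul_eq_mul, card_univ, Fintype.card_fun, Fintype.card_fin,
      Fintype.card_fin]
    refine Nat.mul_le_mul_right _ ?_
    rw [mem_range] at hi
    rcases Nat.eq_zero_or_pos h with h0 | h0
    · subst h0
      omega
    · exact Nat.pow_le_pow_right h0 hi.le
  refine (Finset.sum_le_sum h5).trans ?_
  rw [Finset.sum_const, card_range, smul_eq_mul]
  exact le_of_eq (by ring)

end Pool.Agent.N579.WA
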