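import Mathlib

/-!
# Small ball probabilities for systems of linear forms (Halász)
-/

set_option autoImplicit false

namespace Pool.Agent.N579.WA

open Finset

/-- Coordinates that determine the elements of the image of a linear map. -/
theorem exists_coords {F : Type} [Field F] {i w : ℕ} (T : (Fin i → F) →ₗ[F] (Fin w → F)) :
    ∃ b : Finset (Fin w), b.card ≤ i ∧
      ∀ θ θ' : Fin i → F, (∀ j ∈ b, T θ j = T θ' j) → T θ = T θ' := by
  classical
  let v : Fin w → Module.Dual F (Fin i → F) := fun j => (LinearMap.proj j).comp T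
  obtain ⟨b, -, -, h1, h2⟩ := exists_linearIndepOn_extension (K := F) (v := v) (s := ∅)
    (t := Set.univ) (linearIndepOn_empty F v) (Set.empty_subset _)
  refine ⟨b.toFinset, ?_, ?_⟩
  · have h3 : Fintype.card b ≤ Module.finrank F (Module.Dual F (Fin i → F)) :=
      h2.linearIndependent.fintype_card_le_finrank
    rw [Subspace.dual_finrank_eq, Module.finrank_fin_fun] at h3
    rwa [Set.toFinset_card]
  · intro θ θ' h
    have h3 : ∀ f ∈ Submodule.span F (v '' b), f θ = f θ' := by
      intro f hf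
      induction hf using Submodule.span_induction with
      | mem x hx =>
        obtain ⟨j, hj, rfl⟩ := hx
        exact h j (by simpa using hj)
      | zero => rfl
      | add x y _ _ hx hy => rw [LinearMap.add_apply, LinearMap.add_apply, hx, hy]
      | smul a x _ hx => rw [LinearMap.smul_apply, LinearMap.smul_apply, hx]
    funext j
    exact h3 (v j) (h1 ⟨j, Set.mem_univ _, rfl⟩)

theorem card_coords {F : Type} [Field F] {i w : ℕ} {T : (Fin i → F) →ₗ[F] (Fin w → F)}
    (hT : Function.Injective T) {b : Finset (Fin w)} (hb : b.card ≤ i)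
    (h : ∀ θ θ' : Fin i → F, (∀ j ∈ b, T θ j = T θ' j) → T θ = T θ') : b.card = i := by
  classical
  refine le_antisymm hb ?_
  let T' : (Fin i → F) →ₗ[F] (b → F) := LinearMap.pi fun j => (LinearMap.proj (j : Fin w)).comp T
  have h1 : Function.Injective T' := fun θ θ' hθ => hT (h θ θ' fun j hj => congrFun hθ ⟨j, hj⟩)
  have h2 := LinearMap.finrank_le_finrank_of_injective h1
  simpa using h2

section

variable {q : ℕ} [Fact q.Prime]

/-- The standard character. -/
noncomputable abbrev chr (q : ℕ) [Fact q.Prime] : AddChar (ZMod q) ℂ := ZMod.stdAddChar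

noncomputable def ee (t : ZMod q) : ℝ := ‖1 + chr q t‖

theorem ee_nonneg (t : ZMod q) : 0 ≤ ee t := norm_nonneg _

theorem ee_le (t : ZMod q) : ee t ≤ 2 := by
  unfold ee
  calc ‖1 + chr q t‖ ≤ ‖(1 : ℂ)‖ + ‖chr q t‖ := norm_add_le _ _
    _ = 2 := by
      rw [norm_one, AddChar.norm_apply]
      norm_num

theorem map_sum' {ι : Type} (s : Finset ι) (f : ι → ZMod q) :
    chr q (∑ i ∈ s, f i) = ∏ i ∈ s, chr q (f i) := by
  classical
  induction s using Finset.induction_on with
  | empty => simp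
  | insert a s ha ih => rw [Finset.sum_insert ha, Finset.prod_insert ha, AddChar.map_add_eq_mul, ih]

theorem orth {R : ℕ} (c : Fin R → ZMod q) :
    ∑ θ : Fin R → ZMod q, chr q (∑ i, θ i * c i) = if ∀ i, c i = 0 then (q : ℂ) ^ R else 0 := by
  classical
  have h1 : ∀ θ : Fin R → ZMod q, chr q (∑ i, θ i * c i) = ∏ i, chr q (θ i * c i) := fun θ =>
    map_sum' _ _
  simp_rw [h1]
  have h2 := (Finset.prod_univ_sum (fun _ : Fin R => (univ : Finset (ZMod q)))
    (fun i t => chr q (t * c i)))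
  rw [Fintype.piFinset_univ] at h2
  rw [← h2]
  have h3 : ∀ i, ∑ t : ZMod q, chr q (t * c i) = if c i = 0 then (q : ℂ) else 0 := by
    intro i
    rw [AddChar.sum_mulShift (c i) (ZMod.isPrimitive_stdAddChar q), ZMod.card]
    split_ifs <;> simp
  simp_rw [h3]
  by_cases h : ∀ i, c i = 0
  · simp [h]
  · rw [if_neg h]
    push Not at h
    obtain ⟨i, hi⟩ := h
    exact Finset.prod_eq_zero (mem_univ i) (if_neg hi)

/-- `(1 / q) ∑ |1 + χ(t)| ^ (2 m)` is the number of pairs of subsets of equal size. -/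
theorem sum_ee {m : ℕ} (hm : m < q) :
    ∑ t : ZMod q, ee t ^ (2 * m) = q * ∑ i ∈ range (m + 1), ((m.choose i : ℝ)) ^ 2 := by
  classical
  have h0 : ∀ t : ZMod q, ((ee t ^ (2 * m) : ℝ) : ℂ) =
      (chr q t + 1) ^ m * (chr q (-t) + 1) ^ m := by
    intro t
    rw [pow_mul, ← mul_pow]
    have h1 : ((ee t ^ 2 : ℝ) : ℂ) = (chr q t + 1) * (chr q (-t) + 1) := by
      unfold ee
      rw [← Complex.normSq_eq_norm_sq, ← Complex.mul_conj, AddChar.map_neg_eq_conj, map_add, map_one]
      ring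
    rw [← h1]
    push_cast
    ring
  have h2 : ((∑ t : ZMod q, ee t ^ (2 * m) : ℝ) : ℂ) = ((q * ∑ i ∈ range (m + 1),
      ((m.choose i : ℝ)) ^ 2 : ℝ) : ℂ) := by
    rw [Complex.ofReal_sum]
    simp_rw [h0, add_pow, one_pow, mul_one]
    have h3 : ∀ t : ZMod q, (∑ i ∈ range (m + 1), chr q t ^ i * (m.choose i : ℂ)) *
        (∑ j ∈ range (m + 1), chr q (-t) ^ j * (m.choose j : ℂ)) =
        ∑ i ∈ range (m + 1), ∑ j ∈ range (m + 1), (m.choose i : ℂ) * (m.choose j : ℂ) *
          chr q (t * ((i : ZMod q) - (j : ZMod q))) := by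
      intro t
      rw [Finset.sum_mul_sum]
      refine Finset.sum_congr rfl fun i _ => Finset.sum_congr rfl fun j _ => ?_
      have h4 : chr q (t * ((i : ZMod q) - (j : ZMod q))) = chr q t ^ i * chr q (-t) ^ j := by
        rw [← AddChar.map_nsmul_eq_pow, ← AddChar.map_nsmul_eq_pow, ← AddChar.map_add_eq_mul]
        congr 1
        simp only [nsmul_eq_mul]
        ring
      rw [h4]
      ring
    simp_rw [h3]
    rw [Finset.sum_comm]
    have h5 : ∀ i ∈ range (m + 1), ∑ t : ZMod q, ∑ j ∈ range (m + 1),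
        (m.choose i : ℂ) * (m.choose j : ℂ) * chr q (t * ((i : ZMod q) - (j : ZMod q))) =
          q * (m.choose i : ℂ) ^ 2 := by
      intro i hi
      rw [Finset.sum_comm]
      have h6 : ∀ j ∈ range (m + 1), ∑ t : ZMod q, (m.choose i : ℂ) * (m.choose j : ℂ) *
          chr q (t * ((i : ZMod q) - (j : ZMod q))) =
          if j = i then q * (m.choose i : ℂ) ^ 2 else 0 := by
        intro j hj
        rw [← Finset.mul_sum, AddChar.sum_mulShift _ (ZMod.isPrimitive_stdAddChar q), ZMod.card]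
        rw [mem_range] at hi hj
        by_cases hij : j = i
        · subst hij
          rw [sub_self, if_pos rfl, if_pos rfl]
          ring
        · rw [if_neg hij, if_neg, Nat.cast_zero, mul_zero]
          rw [sub_eq_zero]
          intro h
          apply hij
          have h7 := congrArg ZMod.val h
          rw [ZMod.val_natCast_of_lt (by omega), ZMod.val_natCast_of_lt (by omega)] at h7
          exact h7.symm
      rw [Finset.sum_congr rfl h6, Finset.sum_ite_eq' (range (m + 1)) i, if_pos hi]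
    rw [Finset.sum_congr rfl h5, ← Finset.mul_sum]
    push_cast
    rfl
  exact_mod_cast h2

theorem central_even' (m : ℕ) : (m.centralBinom) ^ 2 * (2 * m + 1) ≤ 16 ^ m := by
  induction m with
  | zero => simp
  | succ m ih =>
    have h1 := Nat.succ_mul_centralBinom_succ m
    have h2 : (m + 1) ^ 2 * ((m + 1).centralBinom ^ 2 * (2 * (m + 1) + 1)) ≤
        (m + 1) ^ 2 * 16 ^ (m + 1) := by
      calc (m + 1) ^ 2 * ((m + 1).centralBinom ^ 2 * (2 * (m + 1) + 1)) =
          ((m + 1) * (m + 1).centralBinom) ^ 2 * (2 * (m + 1) + 1) := by ring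
        _ = (2 * (2 * m + 1) * m.centralBinom) ^ 2 * (2 * (m + 1) + 1) := by rw [h1]
        _ = (m.centralBinom ^ 2 * (2 * m + 1)) * (4 * ((2 * m + 1) * (2 * m + 3))) := by ring
        _ ≤ 16 ^ m * (4 * ((2 * m + 1) * (2 * m + 3))) := Nat.mul_le_mul_right _ ih
        _ ≤ 16 ^ m * (16 * (m + 1) ^ 2) := Nat.mul_le_mul_left _ (by nlinarith)
        _ = (m + 1) ^ 2 * 16 ^ (m + 1) := by ring
    exact Nat.le_of_mul_le_mul_left h2 (by positivity)

theorem central' (b : ℕ) : (b.choose (b / 2)) ^ 2 * (b + 1) ≤ 4 ^ b := by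
  rcases Nat.even_or_odd' b with ⟨m, rfl | rfl⟩
  · have h1 := central_even' m
    rw [Nat.mul_div_cancel_left _ (by norm_num)]
    rw [Nat.centralBinom_eq_two_mul_choose] at h1
    calc _ ≤ 16 ^ m := h1
      _ = 4 ^ (2 * m) := by rw [pow_mul]; norm_num
  · have h1 := central_even' (m + 1)
    have h2 : (2 * m + 1) / 2 = m := by omega
    rw [h2]
    have h3 : (m + 1).centralBinom = 2 * (2 * m + 1).choose m := by
      rw [Nat.centralBinom_eq_two_mul_choose, show 2 * (m + 1) = (2 * m + 1) + 1 by ring,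
        Nat.choose_succ_succ]
      have h4 : (2 * m + 1).choose (m + 1) = (2 * m + 1).choose m := by
        rw [← Nat.choose_symm_of_eq_add]
        omega
      rw [h4]
      ring
    rw [h3] at h1
    have h5 : 4 ^ (2 * m + 1) * 4 = 16 ^ (m + 1) := by
      rw [← pow_succ, show 2 * m + 1 + 1 = 2 * (m + 1) by ring, pow_mul]
      norm_num
    nlinarith

/-- The bound for one coordinate. -/
theorem sum_ee_le {m : ℕ} (hm : m < q) :
    ((∑ t : ZMod q, ee t ^ (2 * m)) / q) ^ 2 * (m + 1) ≤ 16 ^ m := by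
  rw [sum_ee hm]
  have hq : (q : ℝ) ≠ 0 := by
    have := (Fact.out : q.Prime).pos
    positivity
  rw [mul_div_cancel_left₀ _ hq]
  have h1 : ∑ i ∈ range (m + 1), ((m.choose i : ℝ)) ^ 2 ≤ (m.choose (m / 2) : ℝ) * 2 ^ m := by
    calc ∑ i ∈ range (m + 1), ((m.choose i : ℝ)) ^ 2 ≤
        ∑ i ∈ range (m + 1), (m.choose (m / 2) : ℝ) * (m.choose i : ℝ) := by
          refine Finset.sum_le_sum fun i _ => ?_
          rw [sq]
          refine mul_le_mul_of_nonneg_right ?_ (Nat.cast_nonneg _)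
          exact_mod_cast Nat.choose_le_middle i m
      _ = (m.choose (m / 2) : ℝ) * 2 ^ m := by
          rw [← Finset.mul_sum]
          congr 1
          exact_mod_cast Nat.sum_range_choose m
  have h2 : (0 : ℝ) ≤ ∑ i ∈ range (m + 1), ((m.choose i : ℝ)) ^ 2 :=
    Finset.sum_nonneg fun i _ => by positivity
  have h3 : ((m.choose (m / 2) : ℝ)) ^ 2 * (m + 1) ≤ 4 ^ m := by exact_mod_cast central' m
  calc (∑ i ∈ range (m + 1), ((m.choose i : ℝ)) ^ 2) ^ 2 * (m + 1) ≤
      ((m.choose (m / 2) : ℝ) * 2 ^ m) ^ 2 * (m + 1) := by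
        refine mul_le_mul_of_nonneg_right ?_ (by positivity)
        exact pow_le_pow_left₀ h2 h1 2
    _ = ((m.choose (m / 2) : ℝ)) ^ 2 * (m + 1) * 4 ^ m := by
        rw [mul_pow, ← pow_mul, mul_comm m 2, pow_mul]
        norm_num
        ring
    _ ≤ 4 ^ m * 4 ^ m := mul_le_mul_of_nonneg_right h3 (by positivity)
    _ = 16 ^ m := by rw [← mul_pow]; norm_num

/-- The linear map of a block. -/
def blk {R l w : ℕ} (M : Fin R → Fin l × Fin w → ZMod q) (k : Fin l) :
    (Fin R → ZMod q) →ₗ[ZMod q] (Fin w → ZMod q) where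
  toFun θ j := ∑ i, θ i * M i (k, j)
  map_add' θ θ' := by
    funext j
    simp [add_mul, Finset.sum_add_distrib]
  map_smul' a θ := by
    funext j
    simp [Finset.mul_sum, mul_assoc]

theorem prod_le_sum_pow {l : ℕ} (hl : 0 < l) (g : Fin l → ℝ) (hg : ∀ k, 0 ≤ g k) :
    ∏ k, g k ≤ ∑ k, g k ^ l := by
  classical
  have : Nonempty (Fin l) := ⟨⟨0, hl⟩⟩
  obtain ⟨k0, -, hk0⟩ := Finset.exists_max_image univ g univ_nonempty
  calc ∏ k, g k ≤ ∏ _k : Fin l, g k0 :=
        Finset.prod_le_prod (fun k _ => hg k) fun k _ => hk0 k (mem_univ k)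
    _ = g k0 ^ l := by rw [Finset.prod_const, card_univ, Fintype.card_fin]
    _ ≤ ∑ k, g k ^ l := Finset.single_le_sum (f := fun k => g k ^ l)
        (fun k _ => pow_nonneg (hg k) _) (mem_univ k0)

/-- **Small ball estimate.** If the rows of `M` are linearly independent on each of `2 m` blocks,
then few 0-1-vectors have given values of all the forms. -/
theorem halasz {m R w : ℕ} (hm1 : 1 ≤ m) (hm : m < q)
    (M : Fin R → Fin (2 * m) × Fin w → ZMod q) (hM : ∀ k, Function.Injective (blk M k))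
    (b : Fin R → ZMod q) :
    ((univ.filter fun r : Fin (2 * m) × Fin w → Bool =>
      ∀ i, ∑ p, M i p * (if r p = true then 1 else 0) = b i).card : ℝ) ^ 2 * (m + 1) ^ R ≤
      ((2 * m : ℕ) * 2 ^ (2 * m * w)) ^ 2 := by
  classical
  set S := univ.filter fun r : Fin (2 * m) × Fin w → Bool =>
    ∀ i, ∑ p, M i p * (if r p = true then 1 else 0) = b i with hS
  have hq0 : (0 : ℝ) < q := by exact_mod_cast (Fact.out : q.Prime).pos
  -- the character sum
  have h1 : ((S.card : ℂ)) * (q : ℂ) ^ R = ∑ θ : Fin R → ZMod q,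
      chr q (-∑ i, θ i * b i) * ∏ p, (1 + chr q (∑ i, θ i * M i p)) := by
    have h2 : ((S.card : ℂ)) * (q : ℂ) ^ R = ∑ r : Fin (2 * m) × Fin w → Bool,
        ∑ θ : Fin R → ZMod q, chr q (∑ i, θ i *
          (∑ p, M i p * (if r p = true then 1 else 0) - b i)) := by
      simp_rw [orth]
      rw [← Finset.sum_filter, Finset.sum_const, nsmul_eq_mul]
      congr 2
      rw [hS]
      congr 1
      ext r
      simp [sub_eq_zero]
    rw [h2, Finset.sum_comm]
    refine Finset.sum_congr rfl fun θ _ => ?_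
    have h3 : ∀ r : Fin (2 * m) × Fin w → Bool, chr q (∑ i, θ i *
          (∑ p, M i p * (if r p = true then 1 else 0) - b i)) =
        chr q (-∑ i, θ i * b i) * ∏ p, (if r p = true then chr q (∑ i, θ i * M i p) else 1) := by
      intro r
      have h4 : ∑ i, θ i * (∑ p, M i p * (if r p = true then 1 else 0) - b i) =
          -∑ i, θ i * b i + ∑ p, (if r p = true then ∑ i, θ i * M i p else 0) := by
        simp_rw [mul_sub, Finset.sum_sub_distrib, Finset.mul_sum]
        rw [Finset.sum_comm, neg_add_eq_sub]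
        congr 1
        refine Finset.sum_congr rfl fun p _ => ?_
        split_ifs
        · refine Finset.sum_congr rfl fun i _ => ?_
          ring
        · simp
      rw [h4, AddChar.map_add_eq_mul]
      congr 1
      rw [map_sum']
      refine Finset.prod_congr rfl fun p _ => ?_
      split_ifs
      · rfl
      · exact AddChar.map_zero_eq_one _
    simp_rw [h3]
    rw [← Finset.mul_sum]
    congr 1
    have h5 := (Finset.prod_univ_sum (fun _ : Fin (2 * m) × Fin w => (univ : Finset Bool))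
      (fun p (c : Bool) => if c = true then chr q (∑ i, θ i * M i p) else 1))
    rw [Fintype.piFinset_univ] at h5
    rw [← h5]
    refine Finset.prod_congr rfl fun p _ => ?_
    rw [Fintype.sum_bool]
    simp [add_comm]
  have h2 : (S.card : ℝ) * (q : ℝ) ^ R ≤ ∑ θ : Fin R → ZMod q,
      ∏ p, ee (∑ i, θ i * M i p) := by
    have h3 := congrArg norm h1
    rw [norm_mul, norm_pow, Complex.norm_natCast, Complex.norm_natCast] at h3
    rw [h3]
    refine (norm_sum_le _ _).trans (Finset.sum_le_sum fun θ _ => ?_)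
    rw [norm_mul, AddChar.norm_apply, one_mul, norm_prod]
    exact le_rfl
  -- bases of the blocks
  have h3 : ∀ k, ∃ B : Finset (Fin w), B.card = R ∧
      ∀ θ θ' : Fin R → ZMod q, (∀ j ∈ B, blk M k θ j = blk M k θ' j) → θ = θ' := by
    intro k
    obtain ⟨B, hB1, hB2⟩ := exists_coords (blk M k)
    exact ⟨B, card_coords (hM k) hB1 hB2, fun θ θ' h => hM k (hB2 θ θ' h)⟩
  choose B hB1 hB2 using h3
  have h4 : ∀ θ : Fin R → ZMod q, ∏ p, ee (∑ i, θ i * M i p) ≤
      ∑ k, ((2 : ℝ) ^ (w - R)) ^ (2 * m) * (∏ j ∈ B k, ee (blk M k θ j)) ^ (2 * m) := by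
    intro θ
    rw [Fintype.prod_prod_type]
    have h5 : ∀ k : Fin (2 * m), ∏ j, ee (∑ i, θ i * M i (k, j)) ≤
        (2 : ℝ) ^ (w - R) * ∏ j ∈ B k, ee (blk M k θ j) := by
      intro k
      rw [← Finset.prod_mul_prod_compl (B k)]
      rw [mul_comm]
      refine mul_le_mul ?_ le_rfl (Finset.prod_nonneg fun j _ => ee_nonneg _) (by positivity)
      calc ∏ j ∈ (B k)ᶜ, ee (∑ i, θ i * M i (k, j)) ≤ ∏ _j ∈ (B k)ᶜ, (2 : ℝ) :=
            Finset.prod_le_prod (fun j _ => ee_nonneg _) fun j _ => ee_le _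
        _ = 2 ^ (w - R) := by rw [Finset.prod_const, card_compl, Fintype.card_fin, hB1]
    refine (Finset.prod_le_prod (fun k _ => Finset.prod_nonneg fun j _ => ee_nonneg _)
      fun k _ => h5 k).trans ?_
    refine (prod_le_sum_pow (by omega) _ fun k => mul_nonneg (by positivity)
      (Finset.prod_nonneg fun j _ => ee_nonneg _)).trans (le_of_eq ?_)
    exact Finset.sum_congr rfl fun k _ => mul_pow _ _ _
  set E : ℝ := ∑ t : ZMod q, ee t ^ (2 * m) with hE
  have h5 : ∀ k, ∑ θ : Fin R → ZMod q, (∏ j ∈ B k, ee (blk M k θ j)) ^ (2 * m) = E ^ R := by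
    intro k
    -- the bijection
    let Φ : (Fin R → ZMod q) → (B k → ZMod q) := fun θ j => blk M k θ j
    have hΦ : Function.Bijective Φ := by
      rw [Fintype.bijective_iff_injective_and_card]
      refine ⟨fun θ θ' h => hB2 k θ θ' fun j hj => congrFun h ⟨j, hj⟩, ?_⟩
      simp [hB1 k]
    have h6 : ∀ θ : Fin R → ZMod q, (∏ j ∈ B k, ee (blk M k θ j)) ^ (2 * m) =
        ∏ j : B k, ee (Φ θ j) ^ (2 * m) := by
      intro θ
      rw [← Finset.prod_pow, ← Finset.prod_coe_sort]
    simp_rw [h6]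
    rw [hΦ.sum_comp (fun φ : B k → ZMod q => ∏ j, ee (φ j) ^ (2 * m))]
    have h7 := (Finset.prod_univ_sum (fun _ : B k => (univ : Finset (ZMod q)))
      (fun _ t => ee t ^ (2 * m)))
    rw [Fintype.piFinset_univ] at h7
    rw [← h7, Finset.prod_const, card_univ, Fintype.card_coe, hB1]
  have h6 : (S.card : ℝ) * (q : ℝ) ^ R ≤ (2 * m : ℕ) * (((2 : ℝ) ^ (w - R)) ^ (2 * m) * E ^ R) := by
    refine (h2.trans (Finset.sum_le_sum fun θ _ => h4 θ)).trans (le_of_eq ?_)
    rw [Finset.sum_comm]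
    have h7 : ∀ k : Fin (2 * m), ∑ θ : Fin R → ZMod q, ((2 : ℝ) ^ (w - R)) ^ (2 * m) *
        (∏ j ∈ B k, ee (blk M k θ j)) ^ (2 * m) = ((2 : ℝ) ^ (w - R)) ^ (2 * m) * E ^ R := by
      intro k
      rw [← Finset.mul_sum, h5]
    rw [Finset.sum_congr rfl fun k _ => h7 k, Finset.sum_const, card_univ, Fintype.card_fin,
      nsmul_eq_mul]
  have hRw : R ≤ w := by
    have h7 : (B ⟨0, by omega⟩).card ≤ w := by
      have := Finset.card_le_univ (B ⟨0, by omega⟩)
      simpa using this
    rw [hB1] at h7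
    exact h7
  have h7 : (S.card : ℝ) ≤ (2 * m : ℕ) * (((2 : ℝ) ^ (w - R)) ^ (2 * m) * (E / q) ^ R) := by
    rw [div_pow, ← mul_div_assoc, ← mul_div_assoc, le_div_iff₀ (by positivity)]
    exact h6
  have hE0 : 0 ≤ E := Finset.sum_nonneg fun t _ => pow_nonneg (ee_nonneg _) _
  have h8 : ((E / q) ^ 2 * (m + 1)) ^ R ≤ (16 ^ m) ^ R :=
    pow_le_pow_left₀ (by positivity) (sum_ee_le hm) R
  calc (S.card : ℝ) ^ 2 * (m + 1) ^ R ≤
      ((2 * m : ℕ) * (((2 : ℝ) ^ (w - R)) ^ (2 * m) * (E / q) ^ R)) ^ 2 * (m + 1) ^ R := by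
        refine mul_le_mul_of_nonneg_right ?_ (by positivity)
        exact pow_le_pow_left₀ (Nat.cast_nonneg _) h7 2
    _ = ((2 * m : ℕ) * ((2 : ℝ) ^ (w - R)) ^ (2 * m)) ^ 2 * ((E / q) ^ 2 * (m + 1)) ^ R := by
        rw [mul_pow, mul_pow, mul_pow, mul_pow]
        ring
    _ ≤ ((2 * m : ℕ) * ((2 : ℝ) ^ (w - R)) ^ (2 * m)) ^ 2 * (16 ^ m) ^ R :=
        mul_le_mul_of_nonneg_left h8 (by positivity)
    _ = ((2 * m : ℕ) * 2 ^ (2 * m * w)) ^ 2 := by
        rw [mul_pow, mul_pow, mul_assoc]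
        congr 1
        rw [show (16 : ℝ) = 2 ^ 4 by norm_num, ← pow_mul, ← pow_mul, ← pow_mul, ← pow_mul, ← pow_mul,
          ← pow_add]
        congr 1
        obtain ⟨z, rfl⟩ : ∃ z, w = R + z := ⟨w - R, by omega⟩
        rw [show R + z - R = z by omega]
        ring

end

end Pool.Agent.N579.WA
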