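import Pool.Agent.N579.WA.Greedy
import Pool.Agent.N579.WL.Upper2

/-!
# Individualizing one vertex of a random graph
-/

set_option autoImplicit false

namespace Pool.Agent.N579.WA

open Finset Pool.Agent.N579.WL

/-- Two graphs agree outside a set of pairs. -/
def Agree {n : ℕ} (P : Finset (Sym2 (Fin n))) (G G' : SimpleGraph (Fin n)) : Prop :=
  ∀ e, e ∉ P → (e ∈ G.edgeSet ↔ e ∈ G'.edgeSet)

/-- Counting the members of a family by fixing the pairs outside of `P`. -/
theorem card_le_of_agree {n : ℕ} (P : Finset (Sym2 (Fin n))) (hP : ∀ e ∈ P, ¬ e.IsDiag)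
    (S : Set (SimpleGraph (Fin n))) (B : ℕ)
    (h : ∀ G, {G' ∈ S | Agree P G G'}.ncard ≤ B) :
    S.ncard * 2 ^ P.card ≤ B * 2 ^ n.choose 2 := by
  classical
  rcases Nat.eq_zero_or_pos B with hB | hB
  · subst hB
    have h0 : S = ∅ := by
      rw [Set.eq_empty_iff_forall_notMem]
      intro G hG
      have h1 := h G
      rw [Nat.le_zero, Set.ncard_eq_zero (Set.toFinite _)] at h1
      have h2 : G ∈ ({G' ∈ S | Agree P G G'} : Set (SimpleGraph (Fin n))) := ⟨hG, fun _ _ => Iff.rfl⟩
      rw [h1] at h2
      exact h2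
    rw [h0, Set.ncard_empty, zero_mul]
    exact Nat.zero_le _
  -- an index which distinguishes the members of a class
  let rep : SimpleGraph (Fin n) → SimpleGraph (Fin n) := fun G =>
    SimpleGraph.fromEdgeSet (G.edgeSet \ (P : Set (Sym2 (Fin n))))
  have hrep : ∀ G G', rep G = rep G' → Agree P G G' := by
    intro G G' hGG e he
    have h1 : ∀ G : SimpleGraph (Fin n), (e ∈ (rep G).edgeSet ↔ e ∈ G.edgeSet) := by
      intro G
      simp only [rep, SimpleGraph.edgeSet_fromEdgeSet, Set.mem_sdiff, mem_coe]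
      constructor
      · exact fun h => h.1.1
      · intro h
        exact ⟨⟨h, he⟩, by simpa using SimpleGraph.not_isDiag_of_mem_edgeSet _ h⟩
    rw [← h1 G, ← h1 G', hGG]
  have hrep' : ∀ G, Agree P (rep G) G := by
    intro G e he
    simp only [rep, SimpleGraph.edgeSet_fromEdgeSet, Set.mem_sdiff, mem_coe]
    constructor
    · exact fun h => h.1.1
    · intro h
      exact ⟨⟨h, he⟩, by simpa using SimpleGraph.not_isDiag_of_mem_edgeSet _ h⟩
  have hemb : ∀ G, ∃ f : SimpleGraph (Fin n) → Fin B,
      Set.InjOn f {G' ∈ S | Agree P G G'} := by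
    intro G
    have h1 := h G
    rw [Set.ncard_eq_toFinset_card'] at h1
    obtain ⟨g⟩ : Nonempty (({G' ∈ S | Agree P G G'} : Set (SimpleGraph (Fin n))).toFinset ↪ Fin B) :=
      Function.Embedding.nonempty_of_card_le (by rw [Fintype.card_coe, Fintype.card_fin]; exact h1)
    refine ⟨fun G' => if hG' : G' ∈ ({G' ∈ S | Agree P G G'} : Set (SimpleGraph (Fin n))).toFinset
      then g ⟨G', hG'⟩ else ⟨0, hB⟩, ?_⟩
    intro a ha b hb hab
    have ha' : a ∈ ({G' ∈ S | Agree P G G'} : Set (SimpleGraph (Fin n))).toFinset := by simpa using ha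
    have hb' : b ∈ ({G' ∈ S | Agree P G G'} : Set (SimpleGraph (Fin n))).toFinset := by simpa using hb
    simp only [ha', hb', dif_pos] at hab
    have := g.injective hab
    simpa using this
  choose f hf using hemb
  let idx : SimpleGraph (Fin n) → Fin B := fun G => f (rep G) G
  have h1 : ∀ b : Fin B, {G ∈ S | idx G = b}.ncard * 2 ^ P.card ≤ 2 ^ n.choose 2 := by
    intro b
    have h2 := card_le_of_private P hP {G ∈ S | idx G = b} (by
      rintro G ⟨hG, hGb⟩ G' ⟨hG', hGb'⟩ hagree
      have hrr : rep G = rep G' := by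
        have h3 : G.edgeSet \ (P : Set (Sym2 (Fin n))) = G'.edgeSet \ (P : Set (Sym2 (Fin n))) := by
          ext e
          simp only [Set.mem_sdiff, mem_coe]
          constructor
          · exact fun h => ⟨(hagree e h.2).1 h.1, h.2⟩
          · exact fun h => ⟨(hagree e h.2).2 h.1, h.2⟩
        show SimpleGraph.fromEdgeSet _ = SimpleGraph.fromEdgeSet _
        rw [h3]
      refine hf (rep G) ⟨hG, hrep' G⟩ ⟨hG', ?_⟩ ?_
      · rw [hrr]
        exact hrep' G'
      · rw [show f (rep G) G = idx G from rfl, hGb, ← hGb', hrr])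
    rwa [card_graphs] at h2
  have h2 : S ⊆ ⋃ b ∈ (univ : Finset (Fin B)), {G ∈ S | idx G = b} := by
    intro G hG
    simp only [Set.mem_iUnion]
    exact ⟨idx G, mem_univ _, hG, rfl⟩
  calc S.ncard * 2 ^ P.card ≤ (∑ b : Fin B, {G ∈ S | idx G = b}.ncard) * 2 ^ P.card :=
        Nat.mul_le_mul_right _ ((Set.ncard_le_ncard h2 (Set.toFinite _)).trans
          (Finset.set_ncard_biUnion_le _ _))
    _ = ∑ b : Fin B, {G ∈ S | idx G = b}.ncard * 2 ^ P.card := by rw [Finset.sum_mul]
    _ ≤ ∑ _b : Fin B, 2 ^ n.choose 2 := Finset.sum_le_sum fun b _ => h1 b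
    _ = B * 2 ^ n.choose 2 := by
        rw [Finset.sum_const, card_univ, Fintype.card_fin, smul_eq_mul]

/-- The number of common neighbours. -/
noncomputable def codeg {n : ℕ} (G : SimpleGraph (Fin n)) (x v : Fin n) : ℕ := by
  classical
  exact (univ.filter fun z => G.Adj x z ∧ G.Adj v z).card

theorem codeg_le {n : ℕ} (G : SimpleGraph (Fin n)) (x v : Fin n) : codeg G x v ≤ n := by
  classical
  unfold codeg
  refine (card_le_univ _).trans ?_
  simp

/-- Equivalent vertices have the same number of common neighbours with a vertex which is alone in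
its class. -/
theorem codeg_eq {n : ℕ} {G : SimpleGraph (Fin n)} {ρ : Fin n → Fin n} (hρ : EqM G ρ) {v : Fin n}
    (hv : ∀ x, ρ x = ρ v → x = v) {x y : Fin n} (hxy : ρ x = ρ y) :
    codeg G x v = codeg G y v := by
  classical
  have hvv : ρ v = v := hv _ (hρ.idem v)
  have h1 : ∀ w w', ρ w = ρ w' → (G.Adj v w ↔ G.Adj v w') := by
    intro w w' hw
    have h2 := hρ.eq w w' hw v
    have h3 : ∀ u, ρ u = v ↔ u = v := by
      intro u
      constructor
      · intro h
        exact hv u (by rw [h, hvv])
      · rintro rfl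
        exact hvv
    simp only [h3] at h2
    have h4 : ∀ u, Nat.card {z // G.Adj u z ∧ z = v} = if G.Adj v u then 1 else 0 := by
      intro u
      rw [Nat.card_eq_fintype_card, Fintype.card_subtype]
      split_ifs with h
      · rw [card_eq_one]
        refine ⟨v, ?_⟩
        ext z
        simp only [mem_filter, mem_univ, true_and, mem_singleton]
        constructor
        · exact fun h => h.2
        · rintro rfl
          exact ⟨h.symm, rfl⟩
      · rw [card_eq_zero, filter_eq_empty_iff]
        rintro z - ⟨hz, rfl⟩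
        exact h hz.symm
    rw [h4, h4] at h2
    by_cases ha : G.Adj v w <;> by_cases hb : G.Adj v w' <;> simp_all
  have h2 : ∀ u, codeg G u v = ∑ z : Fin n, if G.Adj v z then Nat.card {w // G.Adj u w ∧ ρ w = z}
      else 0 := by
    intro u
    unfold codeg
    rw [Finset.card_eq_sum_card_fiberwise (f := ρ) (t := univ) (fun _ _ => mem_univ _)]
    refine Finset.sum_congr rfl fun z _ => ?_
    rw [Nat.card_eq_fintype_card, Fintype.card_subtype, filter_filter]
    by_cases hz : ρ z = z
    · split_ifs with h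
      · congr 1
        ext w
        simp only [mem_filter, mem_univ, true_and]
        constructor
        · rintro ⟨⟨h3, _⟩, h4⟩
          exact ⟨h3, h4⟩
        · rintro ⟨h3, h4⟩
          exact ⟨⟨h3, (h1 z w (by rw [hz, h4])).1 h⟩, h4⟩
      · rw [card_eq_zero, filter_eq_empty_iff]
        rintro w - ⟨⟨_, h3⟩, h4⟩
        exact h ((h1 w z (by rw [hz, h4])).1 h3)
    · have h5 : ∀ w, ρ w ≠ z := by
        rintro w rfl
        exact hz (hρ.idem w)
      simp [h5]
  rw [h2, h2]
  refine Finset.sum_congr rfl fun z _ => ?_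
  rw [hρ.eq x y hxy z]

/-- Few classes give few numbers of common neighbours. -/
theorem card_codeg_le {n : ℕ} {G : SimpleGraph (Fin n)} {ρ : Fin n → Fin n} (hρ : EqM G ρ)
    {v : Fin n} (hv : ∀ x, ρ x = ρ v → x = v) (S : Finset (Fin n)) :
    (S.image fun x => codeg G x v).card + defect ρ ≤ n := by
  classical
  have h1 : (S.image fun x => codeg G x v) ⊆
      (univ.filter fun x => ρ x = x).image fun x => codeg G x v := by
    intro c hc
    rw [mem_image] at hc ⊢
    obtain ⟨x, -, rfl⟩ := hc
    exact ⟨ρ x, by simp [hρ.idem x], codeg_eq hρ hv (hρ.idem x)⟩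
  have h2 := (card_le_card h1).trans card_image_le
  have h3 := card_reps ρ
  omega

/-! ## Positions -/

section pos

variable {n h l w : ℕ} (H : 2 * h + l * w ≤ n)

def xs (i : Fin h) : Fin n := ⟨i, by have := i.2; omega⟩
def vs (i : Fin h) : Fin n := ⟨h + i, by have := i.2; omega⟩
def zb (p : Fin l × Fin w) : Fin n :=
  ⟨2 * h + (finProdFinEquiv p : Fin (l * w)), by have := (finProdFinEquiv p : Fin (l * w)).2; omega⟩

theorem zb_inj : Function.Injective (zb H) := by
  intro p p' h
  have h1 := congrArg Fin.val h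
  simp only [zb] at h1
  exact finProdFinEquiv.injective (Fin.ext (by omega))

theorem vs_inj : Function.Injective (vs H) := by
  intro p p' h
  have h1 := congrArg Fin.val h
  simp only [vs] at h1
  exact Fin.ext (by omega)

theorem xs_inj : Function.Injective (xs H) := by
  intro p p' h
  have h1 := congrArg Fin.val h
  simp only [xs] at h1
  exact Fin.ext (by omega)

theorem xs_ne_zb (i : Fin h) (p : Fin l × Fin w) : xs H i ≠ zb H p := by
  intro h
  have h1 := congrArg Fin.val h
  simp only [xs, zb] at h1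
  have := i.2
  omega

theorem vs_ne_zb (i : Fin h) (p : Fin l × Fin w) : vs H i ≠ zb H p := by
  intro h
  have h1 := congrArg Fin.val h
  simp only [vs, zb] at h1
  have := i.2
  omega

theorem xs_ne_vs (i j : Fin h) : xs H i ≠ vs H j := by
  intro h
  have h1 := congrArg Fin.val h
  simp only [vs, xs] at h1
  have := i.2
  omega

/-- The bit of a pair. -/
noncomputable def bit (G : SimpleGraph (Fin n)) (x y : Fin n) : Bool := by
  classical exact decide (G.Adj x y)

theorem bit_iff {G : SimpleGraph (Fin n)} {x y : Fin n} : bit G x y = true ↔ G.Adj x y := by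
  simp [bit]

theorem bit_congr {G G' : SimpleGraph (Fin n)} {x y : Fin n} (h : G.Adj x y ↔ G'.Adj x y) :
    bit G x y = bit G' x y := by
  rw [Bool.eq_iff_iff, bit_iff, bit_iff]
  exact h

/-- pairs between a block of vertices and the block `zb` -/
noncomputable def prs (H : 2 * h + l * w ≤ n) (f : Fin h → Fin n) : Finset (Sym2 (Fin n)) := by
  classical
  exact (univ : Finset (Fin h × (Fin l × Fin w))).image fun p => s(f p.1, zb H p.2)

theorem mem_prs {f : Fin h → Fin n} {e : Sym2 (Fin n)} :
    e ∈ prs H f ↔ ∃ i p, s(f i, zb H p) = e := by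
  classical
  simp [prs]

theorem card_prs {f : Fin h → Fin n} (hf : Function.Injective f) (hfz : ∀ i p, f i ≠ zb H p) :
    (prs H f).card = h * (l * w) := by
  classical
  unfold prs
  rw [card_image_of_injective]
  · simp
  · rintro ⟨i, p⟩ ⟨j, p'⟩ h
    simp only [Sym2.eq_iff] at h
    rcases h with ⟨h1, h2⟩ | ⟨h1, _⟩
    · rw [hf h1, zb_inj H h2]
    · exact absurd h1 (hfz _ _)

theorem prs_diag {f : Fin h → Fin n} (hfz : ∀ i p, f i ≠ zb H p) {e : Sym2 (Fin n)}
    (he : e ∈ prs H f) : ¬ e.IsDiag := by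
  obtain ⟨i, p, rfl⟩ := (mem_prs H).1 he
  rw [Sym2.mk_isDiag_iff]
  exact hfz i p

/-- the rows of the block `f` -/
noncomputable def rows (f : Fin h → Fin n) (G : SimpleGraph (Fin n)) :
    Fin h → Fin l × Fin w → Bool := fun i p => bit G (f i) (zb H p)

/-- graphs that agree outside the block are determined by the rows -/
theorem eq_of_rows {f : Fin h → Fin n} {G G1 G2 : SimpleGraph (Fin n)}
    (h1 : Agree (prs H f) G G1) (h2 : Agree (prs H f) G G2) (hr : rows H f G1 = rows H f G2) :
    G1 = G2 := by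
  ext x y
  by_cases he : s(x, y) ∈ prs H f
  · obtain ⟨i, p, hip⟩ := (mem_prs H).1 he
    have h3 : G1.Adj (f i) (zb H p) ↔ G2.Adj (f i) (zb H p) := by
      have h4 := congrFun (congrFun hr i) p
      rw [← bit_iff, ← bit_iff]
      exact Bool.eq_iff_iff.1 h4
    rw [Sym2.eq_iff] at hip
    rcases hip with ⟨rfl, rfl⟩ | ⟨rfl, rfl⟩
    · exact h3
    · rw [SimpleGraph.adj_comm, h3, SimpleGraph.adj_comm]
  · have h3 := h1 _ he
    have h4 := h2 _ he
    rw [SimpleGraph.mem_edgeSet] at h3 h4
    exact h3.symm.trans h4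

end pos

end Pool.Agent.N579.WA
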