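import Pool.Agent.N579.WA.Prob

/-!
# Individualizing one vertex of a random graph: the two counting steps
-/

set_option autoImplicit false

namespace Pool.Agent.N579.WA

open Finset Pool.Agent.N579.WL

section

variable {q : ℕ} [Fact q.Prime]

/-- Few rows give few values. -/
theorem card_bad {n m R w T : ℕ} (hm1 : 1 ≤ m) (hm : m < q)
    (a : Fin (2 * R) → Fin (2 * m) × Fin w → Bool)
    (ha : ∀ k, Function.Injective (blk (fun i p => toF q (a i p)) k)) (c : Fin (2 * R) → ℕ) :
    {r : Fin (2 * m) × Fin w → Bool | (∀ i, (univ.filter fun p => a i p = true ∧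
      r p = true).card + c i ≤ n) ∧ (univ.image fun i => (univ.filter fun p => a i p = true ∧
        r p = true).card + c i).card ≤ T}.ncard * (m + 1) ^ R ≤
      (n + 1) ^ T * T ^ (2 * R) * ((2 * m) * 2 ^ (2 * m * w)) := by
  classical
  let M : Fin (2 * R) → Fin (2 * m) × Fin w → ZMod q := fun i p => toF q (a i p)
  let E : (Fin (2 * R) → ZMod q) → Finset (Fin (2 * m) × Fin w → Bool) := fun b =>
    univ.filter fun r => ∀ i, ∑ p, M i p * (if r p = true then 1 else 0) = b i
  have hE : ∀ b, (E b).card * (m + 1) ^ R ≤ (2 * m) * 2 ^ (2 * m * w) := by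
    intro b
    have h1 := halasz hm1 hm M ha b
    have h2 : (((E b).card * (m + 1) ^ R : ℕ) : ℝ) ^ 2 ≤ (((2 * m) * 2 ^ (2 * m * w) : ℕ) : ℝ) ^ 2 := by
      have h3 : (((E b).card * (m + 1) ^ R : ℕ) : ℝ) ^ 2 = ((E b).card : ℝ) ^ 2 * (m + 1) ^ (2 * R) := by
        push_cast
        rw [mul_pow, ← pow_mul, mul_comm R 2]
      rw [h3]
      refine h1.trans (le_of_eq ?_)
      push_cast
      ring
    have h3 := (pow_le_pow_iff_left₀ (Nat.cast_nonneg _) (Nat.cast_nonneg _) (by norm_num)).1 h2
    exact_mod_cast h3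
  have hcast : ∀ (r : Fin (2 * m) × Fin w → Bool) (i : Fin (2 * R)),
      (((univ.filter fun p => a i p = true ∧ r p = true).card : ℕ) : ZMod q) =
        ∑ p, M i p * (if r p = true then 1 else 0) := by
    intro r i
    rw [Finset.card_filter]
    push_cast
    refine Finset.sum_congr rfl fun p _ => ?_
    simp only [M, toF]
    by_cases h1 : a i p = true <;> by_cases h2 : r p = true <;> simp [h1, h2]
  have hsub : {r : Fin (2 * m) × Fin w → Bool | (∀ i, (univ.filter fun p => a i p = true ∧
      r p = true).card + c i ≤ n) ∧ (univ.image fun i => (univ.filter fun p => a i p = true ∧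
        r p = true).card + c i).card ≤ T} ⊆
      ((univ : Finset ((Fin T → Fin (n + 1)) × (Fin (2 * R) → Fin T))).biUnion fun si =>
        E fun i => ((si.1 (si.2 i) : ℕ) : ZMod q) - (c i : ZMod q) :
        Set (Fin (2 * m) × Fin w → Bool)) := by
    rintro r ⟨hr1, hr2⟩
    set V := univ.image fun i => (univ.filter fun p => a i p = true ∧ r p = true).card + c i with hV
    obtain ⟨g⟩ : Nonempty (V ↪ Fin T) :=
      Function.Embedding.nonempty_of_card_le (by rw [Fintype.card_coe, Fintype.card_fin]; exact hr2)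
    have hVn : ∀ v : V, (v : ℕ) < n + 1 := by
      intro v
      obtain ⟨i, -, hi⟩ := mem_image.1 v.2
      rw [← hi]
      exact Nat.lt_succ_of_le (hr1 i)
    have hmem : ∀ i, (univ.filter fun p => a i p = true ∧ r p = true).card + c i ∈ V := fun i =>
      mem_image_of_mem _ (mem_univ i)
    rw [mem_coe, mem_biUnion]
    refine ⟨(Function.extend g (fun v => (⟨v, hVn v⟩ : Fin (n + 1))) (fun _ => 0),
      fun i => g ⟨_, hmem i⟩), mem_univ _, ?_⟩
    simp only [E, mem_filter, mem_univ, true_and]
    intro i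
    rw [g.injective.extend_apply, ← hcast r i]
    push_cast
    ring_nf
  have hcard := (Set.ncard_le_ncard hsub (Set.toFinite _)).trans
    ((Set.ncard_coe_finset _).le.trans card_biUnion_le)
  calc _ ≤ (∑ si : (Fin T → Fin (n + 1)) × (Fin (2 * R) → Fin T),
        (E fun i => ((si.1 (si.2 i) : ℕ) : ZMod q) - (c i : ZMod q)).card) * (m + 1) ^ R :=
        Nat.mul_le_mul_right _ hcard
    _ = ∑ si : (Fin T → Fin (n + 1)) × (Fin (2 * R) → Fin T),
        (E fun i => ((si.1 (si.2 i) : ℕ) : ZMod q) - (c i : ZMod q)).card * (m + 1) ^ R := by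
        rw [Finset.sum_mul]
    _ ≤ ∑ _si : (Fin T → Fin (n + 1)) × (Fin (2 * R) → Fin T), (2 * m) * 2 ^ (2 * m * w) :=
        Finset.sum_le_sum fun si _ => hE _
    _ = _ := by
        rw [Finset.sum_const, card_univ, Fintype.card_prod, Fintype.card_fun, Fintype.card_fun,
          Fintype.card_fin, Fintype.card_fin, Fintype.card_fin, smul_eq_mul]

variable {n h m w : ℕ} (H : 2 * h + 2 * m * w ≤ n)

/-- **First step.** Few graphs have no independent rows. -/
theorem step_one {R : ℕ} (hD : 2 * m * 2 ^ (R + (2 * m - 1) * w) ≤ 2 ^ (2 * m * w)) (hRh : R ≤ h)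
    (hm1 : 1 ≤ m) :
    {G : SimpleGraph (Fin n) | ¬ ∃ x : Fin R → Fin h, Indep q (rows H (xs H) G) x}.ncard *
      2 ^ (h * (2 * m * w)) ≤
      R * h ^ R * ((2 ^ (2 * m * w)) ^ R * (2 * m * 2 ^ (R + (2 * m - 1) * w)) ^ (h - R)) *
        2 ^ n.choose 2 := by
  classical
  rw [← card_prs H (xs_inj H) (xs_ne_zb H)]
  refine card_le_of_agree _ (fun e he => prs_diag H (xs_ne_zb H) he) _ _ fun G => ?_
  refine le_trans ?_ (card_stuck (q := q) (by omega) hD hRh)
  refine Set.ncard_le_ncard_of_injOn (rows H (xs H)) (fun G' hG' => hG'.1) ?_ (Set.toFinite _)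
  intro G1 h1 G2 h2 h12
  exact eq_of_rows H h1.2 h2.2 h12

/-- Common neighbours inside and outside of the block. -/
theorem codeg_split (G : SimpleGraph (Fin n)) (i v : Fin h) :
    codeg G (xs H i) (vs H v) = (univ.filter fun p : Fin (2 * m) × Fin w =>
      rows H (xs H) G i p = true ∧ rows H (vs H) G v p = true).card +
      Nat.card {z : Fin n // z ∉ Set.range (zb (l := 2 * m) (w := w) H) ∧ G.Adj (xs H i) z ∧ G.Adj (vs H v) z} := by
  classical
  unfold codeg
  rw [← Finset.card_filter_add_card_filter_not (s := univ.filter fun z => G.Adj (xs H i) z ∧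
    G.Adj (vs H v) z) (fun z => z ∈ Set.range (zb (l := 2 * m) (w := w) H))]
  congr 1
  · rw [filter_filter]
    symm
    refine Finset.card_bij (fun p _ => zb H p) ?_ ?_ ?_
    · intro p hp
      simp only [rows, mem_filter, mem_univ, true_and, bit_iff] at hp ⊢
      exact ⟨hp, p, rfl⟩
    · intro p _ p' _ h
      exact zb_inj H h
    · intro z hz
      simp only [mem_filter, mem_univ, true_and] at hz
      obtain ⟨⟨h1, h2⟩, p, rfl⟩ := hz
      exact ⟨p, by simp only [rows, mem_filter, mem_univ, true_and, bit_iff]; exact ⟨h1, h2⟩, rfl⟩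
  · rw [Nat.card_eq_fintype_card, Fintype.card_subtype, filter_filter]
    congr 1
    ext z
    simp only [mem_filter, mem_univ, true_and]
    tauto

theorem agree_xs {G G' : SimpleGraph (Fin n)}
    (hG : Agree (prs (l := 2 * m) (w := w) H (vs H)) G G') :
    rows (l := 2 * m) (w := w) H (xs H) G = rows H (xs H) G' := by
  classical
  funext i p
  refine bit_congr ?_
  rw [← SimpleGraph.mem_edgeSet, ← SimpleGraph.mem_edgeSet]
  refine hG _ fun he => ?_
  obtain ⟨j, p', hj⟩ := (mem_prs H).1 he
  rw [Sym2.eq_iff] at hj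
  rcases hj with ⟨h1, _⟩ | ⟨h1, _⟩
  · exact xs_ne_vs H i j h1.symm
  · exact vs_ne_zb H j p h1

theorem agree_rest {G G' : SimpleGraph (Fin n)}
    (hG : Agree (prs (l := 2 * m) (w := w) H (vs H)) G G') (i v : Fin h) :
    Nat.card {z : Fin n // z ∉ Set.range (zb (l := 2 * m) (w := w) H) ∧ G.Adj (xs H i) z ∧
      G.Adj (vs H v) z} =
    Nat.card {z : Fin n // z ∉ Set.range (zb (l := 2 * m) (w := w) H) ∧ G'.Adj (xs H i) z ∧
      G'.Adj (vs H v) z} := by
  classical
  have h1 : ∀ z, G.Adj (xs H i) z ↔ G'.Adj (xs H i) z := by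
    intro z
    rw [← SimpleGraph.mem_edgeSet, ← SimpleGraph.mem_edgeSet]
    refine hG _ fun he => ?_
    obtain ⟨j, p', hj⟩ := (mem_prs H).1 he
    rw [Sym2.eq_iff] at hj
    rcases hj with ⟨h1, _⟩ | ⟨_, h1⟩
    · exact xs_ne_vs H i j h1.symm
    · exact xs_ne_zb H i p' h1.symm
  have h2 : ∀ z, z ∉ Set.range (zb (l := 2 * m) (w := w) H) →
      (G.Adj (vs H v) z ↔ G'.Adj (vs H v) z) := by
    intro z hz
    rw [← SimpleGraph.mem_edgeSet, ← SimpleGraph.mem_edgeSet]
    refine hG _ fun he => ?_
    obtain ⟨j, p', hj⟩ := (mem_prs H).1 he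
    rw [Sym2.eq_iff] at hj
    rcases hj with ⟨_, h1⟩ | ⟨_, h1⟩
    · exact hz ⟨p', h1⟩
    · exact vs_ne_zb H v p' h1.symm
  refine Nat.card_congr (Equiv.subtypeEquivRight fun z => ?_)
  constructor
  · rintro ⟨h3, h4, h5⟩
    exact ⟨h3, (h1 z).1 h4, (h2 z h3).1 h5⟩
  · rintro ⟨h3, h4, h5⟩
    exact ⟨h3, (h1 z).2 h4, (h2 z h3).2 h5⟩

/-- **Second step.** Few graphs with independent rows have few numbers of common neighbours with
every vertex of the second block. -/
theorem step_two {R T : ℕ} (hm1 : 1 ≤ m) (hm : m < q) :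
    {G : SimpleGraph (Fin n) | (∃ x : Fin (2 * R) → Fin h,
        Indep q (rows (l := 2 * m) (w := w) H (xs H) G) x) ∧
      ∀ v : Fin h, (univ.image fun i : Fin h => codeg G (xs H i) (vs H v)).card ≤ T}.ncard *
      2 ^ (h * (2 * m * w)) * ((m + 1) ^ R) ^ h ≤
      ((n + 1) ^ T * T ^ (2 * R) * ((2 * m) * 2 ^ (2 * m * w))) ^ h * 2 ^ n.choose 2 := by
  classical
  set K := (m + 1) ^ R with hK
  set N := (n + 1) ^ T * T ^ (2 * R) * ((2 * m) * 2 ^ (2 * m * w)) with hN
  have hK0 : 0 < K ^ h := by positivity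
  have key := card_le_of_agree (prs (l := 2 * m) (w := w) H (vs H))
    (fun e he => prs_diag H (vs_ne_zb H) he)
    {G : SimpleGraph (Fin n) | (∃ x : Fin (2 * R) → Fin h,
        Indep q (rows (l := 2 * m) (w := w) H (xs H) G) x) ∧
      ∀ v : Fin h, (univ.image fun i : Fin h => codeg G (xs H i) (vs H v)).card ≤ T}
    (N ^ h / K ^ h) (by
      intro G
      rw [Nat.le_div_iff_mul_le hK0]
      by_cases hx : ∃ x : Fin (2 * R) → Fin h, Indep q (rows (l := 2 * m) (w := w) H (xs H) G) x
      swap
      · have h0 : ({G' ∈ {G : SimpleGraph (Fin n) | (∃ x : Fin (2 * R) → Fin h,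
            Indep q (rows (l := 2 * m) (w := w) H (xs H) G) x) ∧
            ∀ v : Fin h, (univ.image fun i : Fin h => codeg G (xs H i) (vs H v)).card ≤ T} |
            Agree (prs (l := 2 * m) (w := w) H (vs H)) G G'} : Set (SimpleGraph (Fin n))) = ∅ := by
          rw [Set.eq_empty_iff_forall_notMem]
          rintro G' ⟨⟨hG1, _⟩, hG2⟩
          rw [← agree_xs H hG2] at hG1
          exact hx hG1
        rw [h0, Set.ncard_empty, zero_mul]
        exact Nat.zero_le _
      · obtain ⟨x, hx⟩ := hx
        let c : Fin h → Fin (2 * R) → ℕ := fun v i => Nat.card {z : Fin n //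
          z ∉ Set.range (zb (l := 2 * m) (w := w) H) ∧ G.Adj (xs H (x i)) z ∧ G.Adj (vs H v) z}
        let a : Fin (2 * R) → Fin (2 * m) × Fin w → Bool := fun i => rows H (xs H) G (x i)
        let Bd : Fin h → Finset (Fin (2 * m) × Fin w → Bool) := fun v =>
          Set.toFinset {r : Fin (2 * m) × Fin w → Bool | (∀ i, (univ.filter fun p => a i p = true ∧
            r p = true).card + c v i ≤ n) ∧ (univ.image fun i => (univ.filter fun p => a i p = true ∧
            r p = true).card + c v i).card ≤ T}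
        have hBd : ∀ v, (Bd v).card * K ≤ N := by
          intro v
          have h1 := card_bad (n := n) (T := T) hm1 hm a hx (c v)
          rw [Set.ncard_eq_toFinset_card'] at h1
          exact h1
        have h2 : ({G' ∈ {G : SimpleGraph (Fin n) | (∃ x : Fin (2 * R) → Fin h,
            Indep q (rows (l := 2 * m) (w := w) H (xs H) G) x) ∧
            ∀ v : Fin h, (univ.image fun i : Fin h => codeg G (xs H i) (vs H v)).card ≤ T} |
            Agree (prs (l := 2 * m) (w := w) H (vs H)) G G'} : Set (SimpleGraph (Fin n))).ncard ≤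
            (Fintype.piFinset Bd).card := by
          rw [← Set.ncard_coe_finset]
          refine Set.ncard_le_ncard_of_injOn (rows H (vs H)) ?_ ?_ (Set.toFinite _)
          · rintro G' ⟨⟨-, hG1⟩, hG2⟩
            rw [mem_coe, Fintype.mem_piFinset]
            intro v
            simp only [Bd, Set.mem_toFinset, Set.mem_ofPred_eq]
            have h3 : ∀ i, (univ.filter fun p => a i p = true ∧
                rows H (vs H) G' v p = true).card + c v i = codeg G' (xs H (x i)) (vs H v) := by
              intro i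
              rw [codeg_split H G' (x i) v, ← agree_xs H hG2, ← agree_rest H hG2 (x i) v]
            simp only [h3]
            refine ⟨fun i => codeg_le _ _ _, le_trans (card_le_card ?_) (hG1 v)⟩
            intro y hy
            rw [mem_image] at hy ⊢
            obtain ⟨i, -, rfl⟩ := hy
            exact ⟨x i, mem_univ _, rfl⟩
          · intro G1 h1 G2 h2 h12
            exact eq_of_rows H h1.2 h2.2 h12
        calc _ ≤ (Fintype.piFinset Bd).card * K ^ h := Nat.mul_le_mul_right _ h2
          _ = ∏ v : Fin h, (Bd v).card * K := by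
              rw [Fintype.card_piFinset, Finset.prod_mul_distrib, Finset.prod_const, card_univ,
                Fintype.card_fin]
          _ ≤ ∏ _v : Fin h, N := Finset.prod_le_prod' fun v _ => hBd v
          _ = N ^ h := by rw [Finset.prod_const, card_univ, Fintype.card_fin])
  rw [card_prs H (vs_inj H) (vs_ne_zb H)] at key
  calc _ ≤ N ^ h / K ^ h * 2 ^ n.choose 2 * K ^ h := Nat.mul_le_mul_right _ key
    _ = (N ^ h / K ^ h * K ^ h) * 2 ^ n.choose 2 := by ring
    _ ≤ _ := Nat.mul_le_mul_right _ (Nat.div_mul_le_self _ _)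

end

end Pool.Agent.N579.WA
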