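import Pool.Agent.N579.WA.Prob

/-!
# Simultaneous colour refinement of two graphs with an individualized vertex
-/

set_option autoImplicit false

namespace Pool.Agent.N579.WA

open Finset Pool.Agent.N579.WL

/-- The inputs of a circuit which reads two graphs with `n` vertices. -/
abbrev In (n : ℕ) : Type := Bool × Fin n × Fin n

variable {n : ℕ}

/-- The adjacency bits of two graphs. -/
noncomputable def cod (G H : SimpleGraph (Fin n)) : In n → Bool := fun e =>
  if e.1 = true then bit G e.2.1 e.2.2 else bit H e.2.1 e.2.2

/-- adjacency in the disjoint union -/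
def adjb (z : In n → Bool) (p u : Bool × Fin n) : Bool := (p.1 == u.1) && z (p.1, p.2, u.2)

theorem adjb_true {G H : SimpleGraph (Fin n)} {x y : Fin n} :
    adjb (cod G H) (true, x) (true, y) = true ↔ G.Adj x y := by
  simp [adjb, cod, bit_iff]

theorem adjb_false {G H : SimpleGraph (Fin n)} {x y : Fin n} :
    adjb (cod G H) (false, x) (false, y) = true ↔ H.Adj x y := by
  simp [adjb, cod, bit_iff]

theorem adjb_ne {z : In n → Bool} {a b : Bool} (hab : a ≠ b) {x y : Fin n} :
    ¬ adjb z (a, x) (b, y) = true := by
  simp [adjb, hab]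

/-- The equivalence of the vertices after `t` rounds. -/
def EE (v w : Fin n) : ℕ → Bool × Fin n → Bool × Fin n → (In n → Bool) → Bool
  | 0, p, q, _ => decide ((p.2 = cond p.1 v w) ↔ (q.2 = cond q.1 v w))
  | t + 1, p, q, z => EE v w t p q z && decide (∀ r : Bool × Fin n,
      (univ.filter fun u => (adjb z p u && EE v w t u r z) = true).card =
      (univ.filter fun u => (adjb z q u && EE v w t u r z) = true).card)

variable {v w : Fin n} {z : In n → Bool}

theorem EE_succ {t : ℕ} {p q : Bool × Fin n} : EE v w (t + 1) p q z = true ↔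
    EE v w t p q z = true ∧ ∀ r : Bool × Fin n,
      (univ.filter fun u => (adjb z p u && EE v w t u r z) = true).card =
      (univ.filter fun u => (adjb z q u && EE v w t u r z) = true).card := by
  show (EE v w t p q z && decide _) = true ↔ _
  rw [Bool.and_eq_true, decide_eq_true_eq]

theorem EE_refl (t : ℕ) (p : Bool × Fin n) : EE v w t p p z = true := by
  induction t with
  | zero => simp [EE]
  | succ t ih => exact EE_succ.2 ⟨ih, fun _ => rfl⟩

theorem EE_symm {t : ℕ} {p q : Bool × Fin n} (h : EE v w t p q z = true) :
    EE v w t q p z = true := by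
  induction t generalizing p q with
  | zero =>
    simp only [EE, decide_eq_true_eq] at h ⊢
    exact h.symm
  | succ t ih =>
    obtain ⟨h1, h2⟩ := EE_succ.1 h
    exact EE_succ.2 ⟨ih h1, fun r => (h2 r).symm⟩

theorem EE_trans {t : ℕ} {p q s : Bool × Fin n} (h : EE v w t p q z = true)
    (h' : EE v w t q s z = true) : EE v w t p s z = true := by
  induction t generalizing p q s with
  | zero =>
    simp only [EE, decide_eq_true_eq] at h h' ⊢
    exact h.trans h'
  | succ t ih =>
    obtain ⟨h1, h2⟩ := EE_succ.1 h
    obtain ⟨h3, h4⟩ := EE_succ.1 h'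
    exact EE_succ.2 ⟨ih h1 h3, fun r => (h2 r).trans (h4 r)⟩

theorem EE_mono {t s : ℕ} (hts : t ≤ s) {p q : Bool × Fin n} (h : EE v w s p q z = true) :
    EE v w t p q z = true := by
  induction s, hts using Nat.le_induction with
  | base => exact h
  | succ s _ ih => exact ih (EE_succ.1 h).1

/-- The number of rounds. -/
def rounds (n : ℕ) : ℕ := (2 * n) ^ 2

theorem EE_stable_aux : ∃ t ≤ rounds n, ∀ p q, EE v w t p q z = true →
    EE v w (t + 1) p q z = true := by
  classical
  by_contra hcon
  push Not at hcon
  let c : ℕ → ℕ := fun t => (univ.filter fun pq : (Bool × Fin n) × (Bool × Fin n) =>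
    EE v w t pq.1 pq.2 z = true).card
  have h1 : ∀ t ≤ rounds n, c (t + 1) < c t := by
    intro t ht
    obtain ⟨p, q, h2, h3⟩ := hcon t ht
    refine Finset.card_lt_card ⟨fun pq h => ?_, fun h => ?_⟩
    · rw [mem_filter] at h ⊢
      exact ⟨mem_univ _, EE_mono (Nat.le_succ t) h.2⟩
    · have h4 := h (mem_filter.2 ⟨mem_univ (p, q), h2⟩)
      rw [mem_filter] at h4
      exact h3 h4.2
  have h2 : ∀ t ≤ rounds n + 1, c t + t ≤ c 0 := by
    intro t
    induction t with
    | zero => simp
    | succ t ih =>
      intro ht
      have := ih (by omega)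
      have := h1 t (by omega)
      omega
  have h3 := h2 (rounds n + 1) le_rfl
  have h4 : c 0 ≤ rounds n := by
    refine (card_le_univ _).trans ?_
    simp [rounds]
    ring_nf
    omega
  omega

theorem EE_stable {t : ℕ} (ht : ∀ p q, EE v w t p q z = true → EE v w (t + 1) p q z = true)
    (s : ℕ) (p q : Bool × Fin n) (h : EE v w (t + s) p q z = true) :
    EE v w (t + s + 1) p q z = true := by
  induction s generalizing p q with
  | zero => exact ht p q h
  | succ s ih =>
    have h1 : ∀ p q, EE v w (t + s) p q z = EE v w (t + s + 1) p q z := by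
      intro p q
      rw [Bool.eq_iff_iff]
      exact ⟨ih p q, EE_mono (Nat.le_succ _)⟩
    rw [show t + (s + 1) = t + s + 1 by ring] at h ⊢
    obtain ⟨h2, h3⟩ := EE_succ.1 h
    refine EE_succ.2 ⟨h, fun r => ?_⟩
    have h4 := h3 r
    simp only [h1] at h4
    exact h4

/-- The stable equivalence. -/
def eqv (v w : Fin n) (p q : Bool × Fin n) (z : In n → Bool) : Bool := EE v w (rounds n) p q z

theorem eqv_refl (p : Bool × Fin n) : eqv v w p p z = true := EE_refl _ p

theorem eqv_symm {p q : Bool × Fin n} (h : eqv v w p q z = true) : eqv v w q p z = true :=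
  EE_symm h

theorem eqv_comm {p q : Bool × Fin n} : eqv v w p q z = eqv v w q p z := by
  rw [Bool.eq_iff_iff]
  exact ⟨eqv_symm, eqv_symm⟩

theorem eqv_trans {p q s : Bool × Fin n} (h : eqv v w p q z = true)
    (h' : eqv v w q s z = true) : eqv v w p s z = true := EE_trans h h'

theorem eqv_congr {p q : Bool × Fin n} (h : eqv v w p q z = true) (s : Bool × Fin n) :
    eqv v w p s z = eqv v w q s z := by
  rw [Bool.eq_iff_iff]
  exact ⟨fun h' => eqv_trans (eqv_symm h) h', fun h' => eqv_trans h h'⟩

theorem eqv_congr' {p q : Bool × Fin n} (h : eqv v w p q z = true) (s : Bool × Fin n) :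
    eqv v w s p z = eqv v w s q z := by
  rw [eqv_comm, eqv_congr h, eqv_comm]

theorem eqv_count {p q : Bool × Fin n} (h : eqv v w p q z = true) (r : Bool × Fin n) :
    (univ.filter fun u => (adjb z p u && eqv v w u r z) = true).card =
      (univ.filter fun u => (adjb z q u && eqv v w u r z) = true).card := by
  obtain ⟨t, ht, h1⟩ := EE_stable_aux (v := v) (w := w) (z := z)
  have h2 := EE_stable h1 (rounds n - t) p q (by
    rw [show t + (rounds n - t) = rounds n by omega]
    exact h)
  rw [show t + (rounds n - t) = rounds n by omega] at h2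
  exact (EE_succ.1 h2).2 r

theorem eqv_ind {a b : Bool} {x y : Fin n} (h : eqv v w (a, x) (b, y) z = true) :
    (x = cond a v w) ↔ (y = cond b v w) := by
  have h1 : EE v w 0 (a, x) (b, y) z = true := EE_mono (Nat.zero_le _) h
  simpa [EE] using h1

/-- Isomorphic vertices are equivalent. -/
theorem eqv_iso {G H : SimpleGraph (Fin n)} (φ : G ≃g H) (hφ : φ v = w) (x : Fin n) :
    eqv v w (true, x) (false, φ x) (cod G H) = true := by
  classical
  have key : ∀ t x, EE v w t (true, x) (false, φ x) (cod G H) = true := by
    intro t
    induction t with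
    | zero =>
      intro x
      simp only [EE, cond_true, cond_false, decide_eq_true_eq]
      rw [← hφ]
      exact (EmbeddingLike.apply_eq_iff_eq φ).symm
    | succ t ih =>
      intro x
      refine EE_succ.2 ⟨ih x, fun r => ?_⟩
      refine Finset.card_bij (fun u _ => (false, φ u.2)) ?_ ?_ ?_
      · rintro ⟨a, u⟩ hu
        simp only [mem_filter, mem_univ, true_and, Bool.and_eq_true] at hu ⊢
        obtain ⟨h1, h2⟩ := hu
        cases a
        · exact absurd h1 (adjb_ne (by simp))
        · refine ⟨?_, EE_trans (EE_symm (ih u)) h2⟩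
          rw [adjb_true] at h1
          rw [adjb_false]
          exact φ.map_rel_iff.2 h1
      · rintro ⟨a, u⟩ hu ⟨b, u'⟩ hu' h
        simp only [mem_filter, mem_univ, true_and, Bool.and_eq_true] at hu hu'
        cases a
        · exact absurd hu.1 (adjb_ne (by simp))
        cases b
        · exact absurd hu'.1 (adjb_ne (by simp))
        simpa using h
      · rintro ⟨a, u⟩ hu
        simp only [mem_filter, mem_univ, true_and, Bool.and_eq_true] at hu
        cases a
        · refine ⟨(true, φ.symm u), ?_, by simp⟩
          simp only [mem_filter, mem_univ, true_and, Bool.and_eq_true]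
          obtain ⟨h1, h2⟩ := hu
          rw [adjb_false] at h1
          refine ⟨?_, ?_⟩
          · rw [adjb_true, ← φ.map_rel_iff]
            simpa using h1
          · refine EE_trans (ih (φ.symm u)) ?_
            simpa using h2
        · exact absurd hu.1 (adjb_ne (by simp))
  exact key _ x

/-- The partition of the first graph. -/
def setG (v w : Fin n) (z : In n → Bool) : Setoid (Fin n) where
  r x y := eqv v w (true, x) (true, y) z = true
  iseqv := ⟨fun _ => eqv_refl _, eqv_symm, eqv_trans⟩

theorem card_sub {p : Bool × Fin n → Prop} [DecidablePred p] {q : Fin n → Prop} {a : Bool}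
    (h : ∀ b x, p (b, x) ↔ b = a ∧ q x) : (univ.filter p).card = Nat.card {x // q x} := by
  classical
  rw [Nat.card_eq_fintype_card, Fintype.card_subtype]
  symm
  refine Finset.card_bij (fun x _ => (a, x)) ?_ ?_ ?_
  · intro x hx
    rw [mem_filter] at hx ⊢
    exact ⟨mem_univ _, (h a x).2 ⟨rfl, hx.2⟩⟩
  · intro x _ y _ hxy
    exact (Prod.mk.inj hxy).2
  · rintro ⟨b, x⟩ hx
    rw [mem_filter] at hx
    obtain ⟨rfl, h1⟩ := (h b x).1 hx.2
    exact ⟨x, mem_filter.2 ⟨mem_univ _, h1⟩, rfl⟩

theorem equitable_setG {G H : SimpleGraph (Fin n)} : Equitable G (setG v w (cod G H)) := by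
  classical
  intro x y hxy s
  have h1 := eqv_count hxy (true, s)
  have h2 : ∀ x, (univ.filter fun u => (adjb (cod G H) (true, x) u &&
      eqv v w u (true, s) (cod G H)) = true).card =
      Nat.card {u // G.Adj x u ∧ setG v w (cod G H) u s} := by
    intro x
    refine card_sub (a := true) fun b u => ?_
    rw [Bool.and_eq_true]
    cases b
    · simp [adjb]
    · rw [adjb_true]
      exact ⟨fun h => ⟨rfl, h⟩, fun h => h.2⟩
  rw [h2, h2] at h1
  exact h1

/-- the vertex `x` of the graph `a` is not the only one of its colour in this graph -/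
def multi (v w : Fin n) (a : Bool) (x : Fin n) (z : In n → Bool) : Bool :=
  !decide ((univ.filter fun y => eqv v w (a, x) (a, y) z = true).card = 1)

theorem not_multi {a : Bool} {x : Fin n} (h : ¬ multi v w a x z = true) {y : Fin n}
    (hy : eqv v w (a, x) (a, y) z = true) : y = x := by
  simp only [multi, Bool.not_eq_true', decide_eq_false_iff_not, not_not] at h
  obtain ⟨c, hc⟩ := card_eq_one.1 h
  have h1 : x ∈ ({c} : Finset (Fin n)) := by
    rw [← hc, mem_filter]
    exact ⟨mem_univ _, eqv_refl _⟩
  have h2 : y ∈ ({c} : Finset (Fin n)) := by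
    rw [← hc, mem_filter]
    exact ⟨mem_univ _, hy⟩
  rw [mem_singleton] at h1 h2
  rw [h1, h2]

/-- A good vertex leaves few vertices with multiple colours. -/
theorem card_multi {m : ℕ} {G H : SimpleGraph (Fin n)}
    (hv : ∀ ρ : Fin n → Fin n, EqM G ρ → (∀ x, ρ x = ρ v → x = v) → n ≤ (sing ρ).card + m) :
    (univ.filter fun x => multi v w true x (cod G H) = true).card ≤ m := by
  classical
  obtain ⟨ρ, h1, h2⟩ := exists_eqM (equitable_setG (v := v) (w := w) (G := G) (H := H))
  have h3 := hv ρ h1 (by
    intro x hx
    have h4 : eqv v w (true, x) (true, v) (cod G H) = true := (h2 x v).2 hx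
    exact (eqv_ind h4).2 rfl)
  have h4 : sing ρ ⊆ univ.filter fun x => ¬ multi v w true x (cod G H) = true := by
    intro x hx
    rw [mem_sing] at hx
    rw [mem_filter]
    refine ⟨mem_univ _, ?_⟩
    simp only [multi, Bool.not_eq_true', decide_eq_false_iff_not, not_not]
    rw [card_eq_one]
    refine ⟨x, ?_⟩
    ext y
    rw [mem_filter, mem_singleton]
    constructor
    · rintro ⟨_, hy⟩
      have h5 : ρ x = ρ y := (h2 x y).1 hy
      exact hx.2 y (by rw [← h5, hx.1])
    · rintro rfl
      exact ⟨mem_univ _, eqv_refl _⟩
  have h5 := card_le_card h4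
  have h6 := Finset.card_filter_add_card_filter_not (s := (univ : Finset (Fin n)))
    (fun x => multi v w true x (cod G H) = true)
  rw [card_univ, Fintype.card_fin] at h6
  omega

/-- Equal numbers of vertices of every colour in the two graphs. -/
def CondA (v w : Fin n) (z : In n → Bool) : Prop := ∀ r : Bool × Fin n,
  (univ.filter fun x => eqv v w (true, x) r z = true).card =
    (univ.filter fun x => eqv v w (false, x) r z = true).card

/-- The other vertices induce isomorphic coloured graphs. -/
def CondC (v w : Fin n) (z : In n → Bool) : Prop :=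
  ∃ σ : {x // multi v w true x z = true} ≃ {x // multi v w false x z = true},
    (∀ x : {x // multi v w true x z = true},
      eqv v w (true, (x : Fin n)) (false, (σ x : Fin n)) z = true) ∧
      ∀ x x' : {x // multi v w true x z = true}, z (true, x, x') = z (false, σ x, σ x')

/-- A bijection which preserves the colours. -/
theorem exists_pi (h : CondA v w z) : ∃ π : Fin n ≃ Fin n,
    ∀ x, eqv v w (true, x) (false, π x) z = true := by
  classical
  let s : Setoid (Bool × Fin n) := ⟨fun p q => eqv v w p q z = true,
    ⟨fun _ => eqv_refl _, eqv_symm, eqv_trans⟩⟩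
  have h1 : (univ : Finset (Fin n)).val.map (fun x => (Quotient.mk s (true, x))) =
      (univ : Finset (Fin n)).val.map (fun x => (Quotient.mk s (false, x))) := by
    ext c
    obtain ⟨r, rfl⟩ := Quotient.exists_rep c
    rw [Multiset.count_map, Multiset.count_map]
    have h2 : ∀ a : Bool, (Multiset.filter (fun x => Quotient.mk s r = Quotient.mk s (a, x))
        (univ : Finset (Fin n)).val).card = (univ.filter fun x => eqv v w (a, x) r z = true).card := by
      intro a
      rw [← Finset.filter_val, Finset.card_val]
      congr 1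
      ext x
      simp only [mem_filter, mem_univ, true_and]
      rw [Quotient.eq]
      exact ⟨fun h => eqv_symm h, fun h => eqv_symm h⟩
    rw [h2, h2]
    exact h r
  obtain ⟨e, he⟩ := exists_equiv_of_map _ _ h1
  refine ⟨e, fun x => ?_⟩
  have h2 := he x
  rw [Quotient.eq] at h2
  exact eqv_symm h2

theorem multi_pi (h : CondA v w z) {x y : Fin n} (hxy : eqv v w (true, x) (false, y) z = true) :
    multi v w true x z = multi v w false y z := by
  classical
  have h1 : (univ.filter fun x' => eqv v w (true, x) (true, x') z = true).card =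
      (univ.filter fun y' => eqv v w (false, y) (false, y') z = true).card := by
    have h2 := h (true, x)
    have e1 : (univ.filter fun x' => eqv v w (true, x) (true, x') z = true) =
        univ.filter fun x' => eqv v w (true, x') (true, x) z = true := by
      ext u
      simp only [mem_filter, mem_univ, true_and]
      exact ⟨eqv_symm, eqv_symm⟩
    have e2 : (univ.filter fun y' => eqv v w (false, y) (false, y') z = true) =
        univ.filter fun y' => eqv v w (false, y') (true, x) z = true := by
      ext u
      simp only [mem_filter, mem_univ, true_and]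
      exact ⟨fun h => eqv_symm (eqv_trans hxy h), fun h => eqv_symm (eqv_trans h hxy)⟩
    rw [e1, e2]
    exact h2
  unfold multi
  rw [h1]

/-- **The two conditions imply isomorphism.** -/
theorem iso_of_cond {G H : SimpleGraph (Fin n)} (hA : CondA v w (cod G H))
    (hC : CondC v w (cod G H)) : Nonempty (G ≃g H) := by
  classical
  obtain ⟨π, hπ⟩ := exists_pi hA
  obtain ⟨σ, hσ1, hσ2⟩ := hC
  have hm : ∀ x, multi v w true x (cod G H) = multi v w false (π x) (cod G H) := fun x =>
    multi_pi hA (hπ x)
  let f : Fin n → Fin n := fun x => if h : multi v w true x (cod G H) = true then σ ⟨x, h⟩ else π x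
  have f1 : ∀ x (h : multi v w true x (cod G H) = true), f x = σ ⟨x, h⟩ := fun x h => dif_pos h
  have f2 : ∀ x, ¬ multi v w true x (cod G H) = true → f x = π x := fun x h => dif_neg h
  have f3 : ∀ x, eqv v w (true, x) (false, f x) (cod G H) = true := by
    intro x
    by_cases h : multi v w true x (cod G H) = true
    · rw [f1 x h]
      exact hσ1 ⟨x, h⟩
    · rw [f2 x h]
      exact hπ x
  have f4 : ∀ x, multi v w true x (cod G H) = multi v w false (f x) (cod G H) := fun x =>
    multi_pi hA (f3 x)
  have hinj : Function.Injective f := by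
    intro x y hxy
    have h1 := f4 x
    rw [hxy, ← f4 y] at h1
    by_cases h : multi v w true x (cod G H) = true
    · have h' : multi v w true y (cod G H) = true := by rw [← h1]; exact h
      rw [f1 x h, f1 y h'] at hxy
      have := σ.injective (Subtype.ext hxy)
      simpa using this
    · have h' : ¬ multi v w true y (cod G H) = true := by rw [← h1]; exact h
      rw [f2 x h, f2 y h'] at hxy
      exact π.injective hxy
  -- adjacency with a vertex of unique colour
  have key : ∀ x s, ¬ multi v w true s (cod G H) = true → (G.Adj x s ↔ H.Adj (f x) (f s)) := by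
    intro x s hs
    have h1 := eqv_count (f3 x) (true, s)
    have hs' : ¬ multi v w false (f s) (cod G H) = true := by rw [← f4 s]; exact hs
    have e1 : (univ.filter fun u => (adjb (cod G H) (true, x) u &&
        eqv v w u (true, s) (cod G H)) = true).card = if G.Adj x s then 1 else 0 := by
      rw [card_sub (a := true) (q := fun u => G.Adj x u ∧ u = s)]
      · rw [Nat.card_eq_fintype_card, Fintype.card_subtype]
        split_ifs with h
        · rw [card_eq_one]
          refine ⟨s, ?_⟩
          ext u
          simp only [mem_filter, mem_univ, true_and, mem_singleton]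
          exact ⟨fun h => h.2, fun h' => ⟨h' ▸ h, h'⟩⟩
        · rw [card_eq_zero, filter_eq_empty_iff]
          rintro u - ⟨h2, rfl⟩
          exact h h2
      · intro b u
        rw [Bool.and_eq_true]
        cases b
        · simp [adjb]
        · rw [adjb_true]
          constructor
          · rintro ⟨h2, h3⟩
            exact ⟨rfl, h2, not_multi hs (eqv_symm h3)⟩
          · rintro ⟨_, h2, rfl⟩
            exact ⟨h2, eqv_refl _⟩
    have e2 : (univ.filter fun u => (adjb (cod G H) (false, f x) u &&
        eqv v w u (true, s) (cod G H)) = true).card = if H.Adj (f x) (f s) then 1 else 0 := by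
      rw [card_sub (a := false) (q := fun u => H.Adj (f x) u ∧ u = f s)]
      · rw [Nat.card_eq_fintype_card, Fintype.card_subtype]
        split_ifs with h
        · rw [card_eq_one]
          refine ⟨f s, ?_⟩
          ext u
          simp only [mem_filter, mem_univ, true_and, mem_singleton]
          exact ⟨fun h => h.2, fun h' => ⟨h' ▸ h, h'⟩⟩
        · rw [card_eq_zero, filter_eq_empty_iff]
          rintro u - ⟨h2, rfl⟩
          exact h h2
      · intro b u
        rw [Bool.and_eq_true]
        cases b
        · rw [adjb_false]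
          constructor
          · rintro ⟨h2, h3⟩
            refine ⟨rfl, h2, ?_⟩
            exact not_multi hs' (eqv_symm (eqv_trans h3 (f3 s)))
          · rintro ⟨_, h2, rfl⟩
            exact ⟨h2, eqv_symm (f3 s)⟩
        · simp [adjb]
    rw [e1, e2] at h1
    by_cases ha : G.Adj x s <;> by_cases hb : H.Adj (f x) (f s) <;> simp_all
  have hadj : ∀ x y, G.Adj x y ↔ H.Adj (f x) (f y) := by
    intro x y
    by_cases hy : multi v w true y (cod G H) = true
    · by_cases hx : multi v w true x (cod G H) = true
      · have h1 := hσ2 ⟨x, hx⟩ ⟨y, hy⟩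
        rw [f1 x hx, f1 y hy]
        simp only [cod, if_true, Bool.false_eq_true, if_false] at h1
        rw [← bit_iff, ← bit_iff, h1]
      · rw [SimpleGraph.adj_comm, key y x hx, SimpleGraph.adj_comm]
    · exact key x y hy
  exact ⟨⟨Equiv.ofBijective f (Finite.injective_iff_bijective.1 hinj), fun {a b} => (hadj a b).symm⟩⟩

/-- **Isomorphic graphs satisfy the conditions.** -/
theorem cond_of_iso {G H : SimpleGraph (Fin n)} (φ : G ≃g H) (hφ : φ v = w) :
    CondA v w (cod G H) ∧ CondC v w (cod G H) := by
  classical
  have h1 := eqv_iso φ hφ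
  have hA : CondA v w (cod G H) := by
    intro r
    refine Finset.card_bij (fun x _ => φ x) ?_ ?_ ?_
    · intro x hx
      rw [mem_filter] at hx ⊢
      exact ⟨mem_univ _, eqv_trans (eqv_symm (h1 x)) hx.2⟩
    · intro x _ y _ h
      exact φ.injective h
    · intro y hy
      rw [mem_filter] at hy
      refine ⟨φ.symm y, ?_, by simp⟩
      rw [mem_filter]
      refine ⟨mem_univ _, eqv_trans (h1 _) ?_⟩
      simpa using hy.2
  have hc : ∀ x x', cod G H (true, x, x') = cod G H (false, φ x, φ x') := by
    intro x x'
    simp only [cod, if_true, Bool.false_eq_true, if_false]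
    rw [Bool.eq_iff_iff, bit_iff, bit_iff]
    exact φ.map_rel_iff.symm
  have hm : ∀ x, multi v w true x (cod G H) = multi v w false (φ x) (cod G H) := fun x =>
    multi_pi hA (h1 x)
  refine ⟨hA, ?_⟩
  refine ⟨φ.toEquiv.subtypeEquiv fun x => ?_, fun x => h1 x, fun x x' => hc x x'⟩
  rw [hm]
  rfl

end Pool.Agent.N579.WA
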