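import Pool.Agent.N579.WA.Count

/-!
# From circuits which are correct on most graphs to circuits which are correct on all graphs
-/

set_option autoImplicit false

namespace Pool.Agent.N579.WA

open Finset Pool.Agent.N579.WL

variable {m N : ℕ}

/-- The context on `Fin (m + N)`. -/
def ctxF (A : SimpleGraph (Fin m)) (X : Fin m → Fin m → Bool) (Q : SimpleGraph (Fin N)) :
    SimpleGraph (Fin (m + N)) := (ctx A X Q).comap finSumFinEquiv.symm

/-- transport -/
def ctxFIso (A : SimpleGraph (Fin m)) (X : Fin m → Fin m → Bool) (Q : SimpleGraph (Fin N)) :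
    ctxF A X Q ≃g ctx A X Q := SimpleGraph.Iso.comap finSumFinEquiv.symm (ctx A X Q)

theorem ctxF_iso_iff (A B : SimpleGraph (Fin m)) (X Y : Fin m → Fin m → Bool)
    (Q : SimpleGraph (Fin N)) :
    Nonempty (ctxF A X Q ≃g ctxF B Y Q) ↔ Nonempty (ctx A X Q ≃g ctx B Y Q) :=
  ⟨fun ⟨φ⟩ => ⟨((ctxFIso A X Q).symm.trans φ).trans (ctxFIso B Y Q)⟩,
    fun ⟨φ⟩ => ⟨((ctxFIso A X Q).trans φ).trans (ctxFIso B Y Q).symm⟩⟩

/-- the bit of the context -/
noncomputable def pbit (Q : SimpleGraph (Fin N)) (a : Bool) :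
    Fin m ⊕ Fin N → Fin m ⊕ Fin N → Bool ⊕ Jc m
  | Sum.inl x, Sum.inl y => Sum.inr (true, a, x, y)
  | Sum.inr r, Sum.inr s => Sum.inl (bit Q r s)
  | Sum.inl x, Sum.inr r => if h : (r : ℕ) < m then Sum.inr (false, a, x, ⟨r, h⟩) else Sum.inl false
  | Sum.inr r, Sum.inl x => if h : (r : ℕ) < m then Sum.inr (false, a, x, ⟨r, h⟩) else Sum.inl false

theorem bit_eq {n : ℕ} {G : SimpleGraph (Fin n)} {x y : Fin n} {b : Bool}
    (h : G.Adj x y ↔ b = true) : bit G x y = b := by
  rw [Bool.eq_iff_iff, bit_iff, h]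

theorem pbit_eq (Q : SimpleGraph (Fin N)) (A B : SimpleGraph (Fin m)) (X Y : Fin m → Fin m → Bool)
    (p : In (m + N)) : cod (ctxF A X Q) (ctxF B Y Q) p =
      Sum.elim id (colcod A X B Y)
        (pbit Q p.1 (finSumFinEquiv.symm p.2.1) (finSumFinEquiv.symm p.2.2)) := by
  obtain ⟨a, i, j⟩ := p
  obtain ⟨i', rfl⟩ := finSumFinEquiv.surjective i
  obtain ⟨j', rfl⟩ := finSumFinEquiv.surjective j
  simp only [Equiv.symm_apply_apply]
  have key : ∀ (A : SimpleGraph (Fin m)) (X : Fin m → Fin m → Bool) (b : Bool),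
      ((ctxF A X Q).Adj (finSumFinEquiv i') (finSumFinEquiv j') ↔ b = true) ↔
      ((ctx A X Q).Adj i' j' ↔ b = true) := by
    intro A X b
    show ((ctx A X Q).Adj (finSumFinEquiv.symm (finSumFinEquiv i'))
      (finSumFinEquiv.symm (finSumFinEquiv j')) ↔ b = true) ↔ _
    rw [Equiv.symm_apply_apply, Equiv.symm_apply_apply]
  cases a
  · show bit (ctxF B Y Q) _ _ = _
    apply bit_eq
    rw [key]
    rcases i' with x | r <;> rcases j' with y | s
    · show B.Adj x y ↔ bit B x y = true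
      exact bit_iff.symm
    · show (∃ h : (s : ℕ) < m, Y x ⟨s, h⟩ = true) ↔ _
      by_cases h : (s : ℕ) < m
      · simp [pbit, h, colcod]
      · simp [pbit, h]
    · show (∃ h : (r : ℕ) < m, Y y ⟨r, h⟩ = true) ↔ _
      by_cases h : (r : ℕ) < m
      · simp [pbit, h, colcod]
      · simp [pbit, h]
    · show Q.Adj r s ↔ bit Q r s = true
      exact bit_iff.symm
  · show bit (ctxF A X Q) _ _ = _
    apply bit_eq
    rw [key]
    rcases i' with x | r <;> rcases j' with y | s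
    · show A.Adj x y ↔ bit A x y = true
      exact bit_iff.symm
    · show (∃ h : (s : ℕ) < m, X x ⟨s, h⟩ = true) ↔ _
      by_cases h : (s : ℕ) < m
      · simp [pbit, h, colcod]
      · simp [pbit, h]
    · show (∃ h : (r : ℕ) < m, X y ⟨r, h⟩ = true) ↔ _
      by_cases h : (r : ℕ) < m
      · simp [pbit, h, colcod]
      · simp [pbit, h]
    · show Q.Adj r s ↔ bit Q r s = true
      exact bit_iff.symm

/-- The context determines everything in it. -/
theorem ctxF_inj {A B : SimpleGraph (Fin m)} {X Y : Fin m → Fin m → Bool}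
    {Q Q' : SimpleGraph (Fin N)} (h : ctxF A X Q = ctxF B Y Q') : Q = Q' := by
  have h1 : ∀ i j, (ctxF A X Q).Adj i j ↔ (ctxF B Y Q').Adj i j := fun i j => by rw [h]
  ext r s
  have h2 := h1 (finSumFinEquiv (Sum.inr r)) (finSumFinEquiv (Sum.inr s))
  have h3 : (ctx A X Q).Adj (finSumFinEquiv.symm (finSumFinEquiv (Sum.inr r)))
      (finSumFinEquiv.symm (finSumFinEquiv (Sum.inr s))) ↔
      (ctx B Y Q').Adj (finSumFinEquiv.symm (finSumFinEquiv (Sum.inr r)))
      (finSumFinEquiv.symm (finSumFinEquiv (Sum.inr s))) := h2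
  simp only [Equiv.symm_apply_apply] at h3
  exact h3

/-- **Worst case to average case.** -/
theorem exists_col (hN : 2 ^ 14 ≤ N) (hm : 100 * m ≤ N) {s : ℕ} {f : Fn (In (m + N))}
    (hf : Computes s f) {E : Set (SimpleGraph (Fin (m + N)))} (hE : 4 * E.ncard ≤ 2 ^ N.choose 2)
    (h : ∀ G H, G ∉ E → H ∉ E → (f (cod G H) = true ↔ Nonempty (G ≃g H))) :
    ∃ g : Fn (Jc m), Computes s g ∧ SolvesCol g := by
  classical
  obtain ⟨Q, hQ1, hQ2⟩ : ∃ Q : SimpleGraph (Fin N), Rigid m (N / 20) (N / 100) Q ∧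
      ∀ A X, ctxF A X Q ∉ E := by
    by_contra hcon
    push Not at hcon
    have h1 : (Set.univ : Set (SimpleGraph (Fin N))) ⊆
        {Q | ¬ Rigid m (N / 20) (N / 100) Q} ∪
          {Q | ∃ (A : SimpleGraph (Fin m)) (X : Fin m → Fin m → Bool), ctxF A X Q ∈ E} := by
      intro Q _
      by_cases hQ : Rigid m (N / 20) (N / 100) Q
      · obtain ⟨A, X, hAX⟩ := hcon Q hQ
        exact Or.inr ⟨A, X, hAX⟩
      · exact Or.inl hQ
    have h2 : {Q : SimpleGraph (Fin N) | ∃ (A : SimpleGraph (Fin m)) (X : Fin m → Fin m → Bool),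
        ctxF A X Q ∈ E}.ncard ≤ E.ncard := by
      have h3 : ∀ Q : SimpleGraph (Fin N), ∃ G : SimpleGraph (Fin (m + N)),
          (∃ (A : SimpleGraph (Fin m)) (X : Fin m → Fin m → Bool), ctxF A X Q ∈ E) →
          ∃ (A : SimpleGraph (Fin m)) (X : Fin m → Fin m → Bool), ctxF A X Q ∈ E ∧
            G = ctxF A X Q := by
        intro Q
        by_cases h4 : ∃ (A : SimpleGraph (Fin m)) (X : Fin m → Fin m → Bool), ctxF A X Q ∈ E
        · obtain ⟨A, X, hAX⟩ := h4
          exact ⟨ctxF A X Q, fun _ => ⟨A, X, hAX, rfl⟩⟩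
        · exact ⟨⊥, fun h5 => absurd h5 h4⟩
      choose F hF using h3
      refine Set.ncard_le_ncard_of_injOn F ?_ ?_ (Set.toFinite _)
      · intro Q hQ
        obtain ⟨A, X, h5, h6⟩ := hF Q hQ
        rw [h6]
        exact h5
      · intro Q hQ Q' hQ' hQQ
        obtain ⟨A, X, _, h6⟩ := hF Q hQ
        obtain ⟨B, Y, _, h8⟩ := hF Q' hQ'
        rw [h6, h8] at hQQ
        exact ctxF_inj hQQ
    have h3 := (Set.ncard_le_ncard h1 (Set.toFinite _)).trans (Set.ncard_union_le _ _)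
    rw [Set.ncard_univ, card_graphs] at h3
    have h4 := rigid_prob hN hm
    have h5 : 0 < 2 ^ N.choose 2 := by positivity
    omega
  refine ⟨_, hf.proj fun p => pbit Q p.1 (finSumFinEquiv.symm p.2.1) (finSumFinEquiv.symm p.2.2),
    fun A X B Y => ?_⟩
  have h1 : (fun p : In (m + N) => Sum.elim id (colcod A X B Y)
      (pbit Q p.1 (finSumFinEquiv.symm p.2.1) (finSumFinEquiv.symm p.2.2))) =
      cod (ctxF A X Q) (ctxF B Y Q) := funext fun p => (pbit_eq Q A B X Y p).symm
  show f (fun p : In (m + N) => Sum.elim id (colcod A X B Y)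
      (pbit Q p.1 (finSumFinEquiv.symm p.2.1) (finSumFinEquiv.symm p.2.2))) = true ↔ _
  rw [h1, h _ _ (hQ2 A X) (hQ2 B Y), ctxF_iso_iff]
  exact ctx_iso_iff (by omega) (by omega) hQ1 A B X Y

/-- Isomorphism of coloured graphs is at least as hard as isomorphism of graphs. -/
theorem plain_of_col {s : ℕ} {g : Fn (Jc m)} (hg : Computes s g) (hsol : SolvesCol g) :
    ∃ f : Fn (In m), Computes s f ∧ ∀ G H, f (cod G H) = true ↔ Nonempty (G ≃g H) := by
  refine ⟨_, hg.proj fun j => if j.1 = true then Sum.inr j.2 else Sum.inl false, fun G H => ?_⟩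
  have h1 : (fun j : Jc m => Sum.elim id (cod G H)
      (if j.1 = true then Sum.inr j.2 else Sum.inl false)) =
      colcod G (fun _ _ => false) H (fun _ _ => false) := by
    funext j
    obtain ⟨b, a, i, l⟩ := j
    cases b <;> cases a <;> rfl
  show g (fun j : Jc m => Sum.elim id (cod G H)
      (if j.1 = true then Sum.inr j.2 else Sum.inl false)) = true ↔ _
  rw [h1, hsol]
  exact ⟨fun ⟨σ, _⟩ => ⟨σ⟩, fun ⟨σ⟩ => ⟨σ, fun _ => rfl⟩⟩

/-- Isomorphism of coloured graphs by brute force. -/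
theorem exists_col_brute (m : ℕ) : ∃ g : Fn (Jc m),
    Computes (m.factorial * (32 * m ^ 2 + 8) + 1) g ∧ SolvesCol g := by
  classical
  have h1 : ∀ σ : Equiv.Perm (Fin m), Fam (32 * m ^ 2 + 5) (∅ : Set (Fn (Jc m)))
      {fun z => decide (∀ i j : Fin m, z (true, true, i, j) = z (true, false, σ i, σ j) ∧
        z (false, true, i, j) = z (false, false, σ i, j))} := by
    intro σ
    have h2 := Fam.bigAnd (F := (∅ : Set (Fn (Jc m)))) (univ : Finset (Fin m × Fin m)) (c := 29)
      (f := fun p => fun z => (z (true, true, p.1, p.2) == z (true, false, σ p.1, σ p.2)) &&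
        (z (false, true, p.1, p.2) == z (false, false, σ p.1, p.2)))
      (fun p _ => (((Fam.input _ _).beq (Fam.input _ _)).and
        ((Fam.input _ _).beq (Fam.input _ _))).mono (by omega) le_rfl le_rfl)
    refine Fam.ext (h2.mono ?_ le_rfl le_rfl) ?_
    · rw [card_univ, Fintype.card_prod, Fintype.card_fin]
      nlinarith
    · intro z
      simp
  refine ⟨_, computes_of_fam ((Fam.bigOr (F := (∅ : Set (Fn (Jc m))))
    (univ : Finset (Equiv.Perm (Fin m))) (fun σ _ => h1 σ)).mono ?_ le_rfl le_rfl), ?_⟩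
  · rw [card_univ, Fintype.card_perm, Fintype.card_fin]
  · intro A X B Y
    simp only [mem_univ, true_and, decide_eq_true_eq]
    constructor
    · rintro ⟨σ, hσ⟩
      refine ⟨⟨σ, ?_⟩, fun i => funext fun l => (hσ i l).2⟩
      intro i j
      have h2 : bit A i j = bit B (σ i) (σ j) := (hσ i j).1
      show B.Adj (σ i) (σ j) ↔ A.Adj i j
      rw [← bit_iff, ← bit_iff, h2]
    · rintro ⟨σ, hσ⟩
      refine ⟨σ.toEquiv, fun i j => ⟨?_, congrFun (hσ i) j⟩⟩
      show bit A i j = bit B (σ i) (σ j)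
      rw [Bool.eq_iff_iff, bit_iff, bit_iff]
      exact σ.map_rel_iff.symm

end Pool.Agent.N579.WA
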